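import Pool.Agent.L5helper15.GA.Def

set_option autoImplicit false

/-!
# The local densities

The number of solutions of `20 m² + 16 m + s² + t² + t = ν` modulo `D` with `8 m + 3` prime to `D`.
Adapted from N339, N291, N432, N378 (project AO).
-/

namespace Pool.Agent.L5helper15.GA
open Finset Pool.Agent.N699.AO
open Pool.Agent.N339.AO (red card_fib isUnit_of_red exists_lift)
open Pool.Agent.N291.AO (fib)
open Pool.Agent.N378.AO (prime_cases)

open Classical in
/-- the number of local solutions -/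
noncomputable def rhoU (D : ℕ) [NeZero D] (ν : ZMod D) : ℕ :=
  (univ.filter (fun p : ZMod D × ZMod D × ZMod D => IsUnit (8 * p.1 + 3) ∧
    20 * p.1 ^ 2 + 16 * p.1 + p.2.1 ^ 2 + p.2.2 ^ 2 + p.2.2 = ν)).card

/-- the number of nonsingular solutions modulo a prime -/
def rhoUS (D : ℕ) [NeZero D] (ν : ZMod D) : ℕ :=
  (univ.filter (fun p : ZMod D × ZMod D × ZMod D => 8 * p.1 + 3 ≠ 0 ∧
    20 * p.1 ^ 2 + 16 * p.1 + p.2.1 ^ 2 + p.2.2 ^ 2 + p.2.2 = ν ∧ 2 * p.2.2 + 1 ≠ 0)).card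

theorem lift' (p : ℕ) (hp : p.Prime) (hp0 : NeZero p) (e : ℕ) (hpe : NeZero (p ^ (e + 1)))
    (ν : ℤ) : p ^ (2 * e) * rhoUS p (ν : ZMod p) ≤ rhoU (p ^ (e + 1)) (ν : ZMod (p ^ (e + 1))) := by
  classical
  set R := ZMod (p ^ (e + 1)) with hR
  set S : Finset (ZMod p × ZMod p × ZMod p) :=
    univ.filter (fun q : ZMod p × ZMod p × ZMod p => 8 * q.1 + 3 ≠ 0 ∧
    20 * q.1 ^ 2 + 16 * q.1 + q.2.1 ^ 2 + q.2.2 ^ 2 + q.2.2 = (ν : ZMod p) ∧
      2 * q.2.2 + 1 ≠ 0) with hS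
  set L : Finset (R × R × R) :=
    univ.filter (fun q : R × R × R => IsUnit (8 * q.1 + 3) ∧
    20 * q.1 ^ 2 + 16 * q.1 + q.2.1 ^ 2 + q.2.2 ^ 2 + q.2.2 = (ν : R)) with hL
  have e1 : rhoUS p (ν : ZMod p) = S.card := rfl
  have e2 : rhoU (p ^ (e + 1)) (ν : ZMod (p ^ (e + 1))) = L.card := by
    unfold rhoU
    rw [hL]
  rw [e1, e2]
  let Φ : R × R × R → ZMod p × ZMod p × ZMod p :=
    fun q => (red p e q.1, red p e q.2.1, red p e q.2.2)
  have h1 : (L.filter (fun q => Φ q ∈ S)).card =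
      ∑ y ∈ S, ((L.filter (fun q => Φ q ∈ S)).filter (fun q => Φ q = y)).card :=
    Finset.card_eq_sum_card_fiberwise (fun q hq => by
      have : q ∈ L.filter (fun q => Φ q ∈ S) := by exact_mod_cast hq
      exact_mod_cast (Finset.mem_filter.1 this).2)
  have h2 : ∀ y ∈ S, p ^ (2 * e) ≤
      ((L.filter (fun q => Φ q ∈ S)).filter (fun q => Φ q = y)).card := by
    intro y hy
    obtain ⟨a0, s0, t0⟩ := y
    have hy' := (Finset.mem_filter.1 hy).2
    simp only at hy'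
    obtain ⟨hy0, hy1, hy2⟩ := hy'
    have hc : ((univ.filter (fun a : R => red p e a = a0)) ×ˢ
        (univ.filter (fun s : R => red p e s = s0))).card = p ^ (2 * e) := by
      rw [Finset.card_product]
      have c1 := card_fib p e hp a0
      have c2 := card_fib p e hp s0
      rw [show (univ.filter (fun a : R => red p e a = a0)).card = p ^ e from c1,
        show (univ.filter (fun s : R => red p e s = s0)).card = p ^ e from c2]
      ring
    rw [← hc]
    have hex : ∀ q : R × R, red p e q.1 = a0 → red p e q.2 = s0 →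
        ∃ t : R, red p e t = t0 ∧
          t ^ 2 + t = (ν : R) - 20 * q.1 ^ 2 - 16 * q.1 - q.2 ^ 2 := by
      intro q hq1 hq2
      apply exists_lift p e hp t0 hy2
      rw [map_sub, map_sub, map_sub, map_intCast, map_mul, map_pow, hq1,
        map_mul, map_pow, hq1, hq2, ← hy1]
      simp only [map_ofNat]
      ring
    choose! T hT using hex
    refine Finset.card_le_card_of_injOn (fun q => (q.1, q.2, T q)) ?_ ?_
    · intro q hq
      have hq' : q ∈ ((univ.filter (fun a : R => red p e a = a0)) ×ˢ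
        (univ.filter (fun s : R => red p e s = s0))) := by exact_mod_cast hq
      rw [Finset.mem_product, Finset.mem_filter, Finset.mem_filter] at hq'
      obtain ⟨⟨-, hq1⟩, -, hq2⟩ := hq'
      obtain ⟨hT1, hT2⟩ := hT q hq1 hq2
      have hΦ : Φ (q.1, q.2, T q) = (a0, s0, t0) := by simp [Φ, hq1, hq2, hT1]
      have hun : IsUnit (8 * q.1 + 3) := by
        apply isUnit_of_red p e hp
        rw [map_add, map_mul, hq1]
        simpa only [map_ofNat] using hy0
      have hLm : (q.1, q.2, T q) ∈ L := by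
        rw [hL, Finset.mem_filter]
        refine ⟨Finset.mem_univ _, hun, ?_⟩
        simp only
        linear_combination hT2
      have : (q.1, q.2, T q) ∈ (L.filter (fun q => Φ q ∈ S)).filter (fun q => Φ q = (a0, s0, t0)) := by
        rw [Finset.mem_filter, Finset.mem_filter]
        exact ⟨⟨hLm, by rw [hΦ]; exact hy⟩, hΦ⟩
      exact_mod_cast this
    · intro q _ q' _ h
      simp only [Prod.mk.injEq] at h
      exact Prod.ext h.1 h.2.1
  calc p ^ (2 * e) * S.card = ∑ y ∈ S, p ^ (2 * e) := by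
        rw [Finset.sum_const, smul_eq_mul, mul_comm]
    _ ≤ ∑ y ∈ S, ((L.filter (fun q => Φ q ∈ S)).filter (fun q => Φ q = y)).card :=
        Finset.sum_le_sum h2
    _ = (L.filter (fun q => Φ q ∈ S)).card := h1.symm
    _ ≤ L.card := Finset.card_filter_le _ _

theorem dec2' : ∀ ν : ZMod 2, 4 ≤ (univ.filter (fun p : ZMod 2 × ZMod 2 × ZMod 2 =>
    8 * p.1 + 3 ≠ 0 ∧ 20 * p.1 ^ 2 + 16 * p.1 + p.2.1 ^ 2 + p.2.2 ^ 2 + p.2.2 = ν ∧
      2 * p.2.2 + 1 ≠ 0)).card := by decide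

theorem dec3' : ∀ ν : ZMod 3, 2 ≤ (univ.filter (fun p : ZMod 3 × ZMod 3 × ZMod 3 =>
    8 * p.1 + 3 ≠ 0 ∧ 20 * p.1 ^ 2 + 16 * p.1 + p.2.1 ^ 2 + p.2.2 ^ 2 + p.2.2 = ν ∧
      2 * p.2.2 + 1 ≠ 0)).card := by decide

section P

variable {p : ℕ} [hp : Fact p.Prime]

lemma roots2' (h2 : (2 : ZMod p) ≠ 0) (c : ZMod p) :
    (univ.filter (fun a : ZMod p => 20 * a ^ 2 + 16 * a = c)).card ≤ 2 := by
  classical
  have h16 : (16 : ZMod p) ≠ 0 := by
    have : (16 : ZMod p) = 2 ^ 4 := by norm_num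
    rw [this]
    exact pow_ne_zero _ h2
  by_cases h : ∃ a0 : ZMod p, 20 * a0 ^ 2 + 16 * a0 = c
  · obtain ⟨a0, h0⟩ := h
    have hmem : a0 ∈ univ.filter (fun a : ZMod p => 20 * a ^ 2 + 16 * a = c) :=
      mem_filter.2 ⟨mem_univ _, h0⟩
    rw [← card_erase_add_one hmem]
    have h1 : ((univ.filter (fun a : ZMod p => 20 * a ^ 2 + 16 * a = c)).erase
        a0).card ≤ 1 := by
      rw [card_le_one]
      have key : ∀ a : ZMod p, a ≠ a0 → 20 * a ^ 2 + 16 * a = c →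
          20 * (a + a0) + 16 = 0 := by
        intro a ha e
        have e1 : (a - a0) * (20 * (a + a0) + 16) = 0 := by
          linear_combination e - h0
        exact (mul_eq_zero.1 e1).resolve_left (sub_ne_zero.2 ha)
      intro a ha b hb
      have ha' := mem_erase.1 ha
      have hb' := mem_erase.1 hb
      have ea := key a ha'.1 (mem_filter.1 ha'.2).2
      have eb := key b hb'.1 (mem_filter.1 hb'.2).2
      have e3 : (20 : ZMod p) * (a - b) = 0 := by linear_combination ea - eb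
      rcases mul_eq_zero.1 e3 with h | h
      · exfalso
        rw [h, zero_mul, zero_add] at ea
        exact h16 ea
      · exact sub_eq_zero.1 h
    omega
  · push Not at h
    rw [filter_false_of_mem (fun x _ => h x)]
    simp

lemma roots1 (h2 : (2 : ZMod p) ≠ 0) :
    (univ.filter (fun a : ZMod p => 8 * a + 3 = 0)).card ≤ 1 := by
  classical
  have h8 : (8 : ZMod p) ≠ 0 := by
    have : (8 : ZMod p) = 2 ^ 3 := by norm_num
    rw [this]
    exact pow_ne_zero _ h2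
  rw [card_le_one]
  intro a ha b hb
  rw [mem_filter] at ha hb
  have e3 : (8 : ZMod p) * (a - b) = 0 := by linear_combination ha.2 - hb.2
  exact sub_eq_zero.1 ((mul_eq_zero.1 e3).resolve_left h8)

end P

theorem rsp' (p : ℕ) (hp : p.Prime) (h5 : 5 ≤ p) (hz : NeZero p) (ν : ZMod p) :
    p ^ 2 + 9 ≤ rhoUS p ν + 6 * p := by
  classical
  have : Fact p.Prime := ⟨hp⟩
  have h2 : (2 : ZMod p) ≠ 0 := by
    intro e
    have h1 : ((2 : ℕ) : ZMod p) = 0 := by exact_mod_cast e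
    rw [ZMod.natCast_eq_zero_iff] at h1
    have := Nat.le_of_dvd (by norm_num) h1
    omega
  have hh : (2 : ZMod p) * (2 : ZMod p)⁻¹ = 1 := mul_inv_cancel₀ h2
  set h : ZMod p := (2 : ZMod p)⁻¹
  have hsum : rhoUS p ν = ∑ a : ZMod p, (univ.filter (fun q : ZMod p × ZMod p =>
      8 * a + 3 ≠ 0 ∧ (20 * a ^ 2 + 16 * a) + q.1 ^ 2 + q.2 ^ 2 + q.2 = ν ∧
        2 * q.2 + 1 ≠ 0)).card := by
    unfold rhoUS
    simp only [card_filter, Fintype.sum_prod_type]
  set G := univ.filter (fun a : ZMod p =>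
      ¬ (20 * a ^ 2 + 16 * a = ν + h ^ 2 ∨ 8 * a + 3 = 0)) with hG0
  have hG : p ≤ G.card + 3 := by
    have h3 : (univ.filter (fun a : ZMod p => 20 * a ^ 2 + 16 * a = ν + h ^ 2 ∨ 8 * a + 3 = 0)).card
        + G.card = (univ : Finset (ZMod p)).card := by
      rw [hG0]
      exact card_filter_add_card_filter_not _
    rw [card_univ, ZMod.card, filter_or] at h3
    have h4 := roots2' h2 (ν + h ^ 2)
    have h6 := roots1 h2
    have h7 := card_union_le (univ.filter (fun a : ZMod p => 20 * a ^ 2 + 16 * a = ν + h ^ 2))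
      (univ.filter (fun a : ZMod p => 8 * a + 3 = 0))
    omega
  have hlow : G.card * (p - 3) ≤ rhoUS p ν := by
    rw [hsum]
    calc G.card * (p - 3)
        ≤ ∑ a ∈ G, (univ.filter (fun q : ZMod p × ZMod p =>
              8 * a + 3 ≠ 0 ∧ (20 * a ^ 2 + 16 * a) + q.1 ^ 2 + q.2 ^ 2 + q.2 = ν ∧
                2 * q.2 + 1 ≠ 0)).card := by
          rw [← smul_eq_mul]
          apply card_nsmul_le_sum
          intro a ha
          have ha' := (mem_filter.1 ha).2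
          push Not at ha'
          have h7 := fib h2 h hh (20 * a ^ 2 + 16 * a) ν (by
            intro e
            exact ha'.1 (by linear_combination -e))
          have h8 : (univ.filter (fun q : ZMod p × ZMod p =>
              8 * a + 3 ≠ 0 ∧ (20 * a ^ 2 + 16 * a) + q.1 ^ 2 + q.2 ^ 2 + q.2 = ν ∧
                2 * q.2 + 1 ≠ 0)) = (univ.filter (fun q : ZMod p × ZMod p =>
              (20 * a ^ 2 + 16 * a) + q.1 ^ 2 + q.2 ^ 2 + q.2 = ν ∧
                2 * q.2 + 1 ≠ 0)) := by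
            apply filter_congr
            intro q _
            exact ⟨fun h => h.2, fun h => ⟨ha'.2, h⟩⟩
          rw [h8]
          omega
      _ ≤ _ := by
          apply sum_le_sum_of_subset
          exact filter_subset _ _
  obtain ⟨q, rfl⟩ : ∃ q, p = q + 5 := ⟨p - 5, by omega⟩
  have e1 : q + 5 - 3 = q + 2 := by omega
  rw [e1] at hlow
  have e2 : q + 2 ≤ G.card := by omega
  have e3 := Nat.mul_le_mul_right (q + 2) e2
  nlinarith

theorem rhoc' (D E : ℕ) (_ : NeZero D) (_ : NeZero E) (_ : NeZero (D * E)) (h : Nat.Coprime D E)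
    (ν : ℤ) : rhoU (D * E) (ν : ZMod (D * E)) = rhoU D (ν : ZMod D) * rhoU E (ν : ZMod E) := by
  classical
  let φ : ZMod (D * E) ≃+* ZMod D × ZMod E := ZMod.chineseRemainder h
  have hun : ∀ x : ZMod (D * E), IsUnit x ↔ IsUnit (φ x).1 ∧ IsUnit (φ x).2 := by
    intro x
    rw [← Prod.isUnit_iff]
    exact (MulEquiv.isUnit_map φ).symm
  have key : ∀ a s t : ZMod (D * E),
      (IsUnit (8 * a + 3) ∧ 20 * a ^ 2 + 16 * a + s ^ 2 + t ^ 2 + t = (ν : ZMod (D * E))) ↔
      (IsUnit (8 * (φ a).1 + 3) ∧ 20 * (φ a).1 ^ 2 + 16 * (φ a).1 + (φ s).1 ^ 2 + (φ t).1 ^ 2 +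
        (φ t).1 = (ν : ZMod D)) ∧
      (IsUnit (8 * (φ a).2 + 3) ∧ 20 * (φ a).2 ^ 2 + 16 * (φ a).2 + (φ s).2 ^ 2 + (φ t).2 ^ 2 +
        (φ t).2 = (ν : ZMod E)) := by
    intro a s t
    rw [hun, ← φ.injective.eq_iff]
    simp only [map_add, map_mul, map_pow, map_ofNat, map_intCast]
    rw [Prod.ext_iff]
    simp
    tauto
  unfold rhoU
  rw [← Finset.card_product]
  refine Finset.card_bij'
    (fun p _ => (((φ p.1).1, (φ p.2.1).1, (φ p.2.2).1), ((φ p.1).2, (φ p.2.1).2, (φ p.2.2).2)))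
    (fun q _ => (φ.symm (q.1.1, q.2.1), φ.symm (q.1.2.1, q.2.2.1), φ.symm (q.1.2.2, q.2.2.2)))
    ?_ ?_ ?_ ?_
  · intro p hp
    rw [mem_filter] at hp
    rw [mem_product, mem_filter, mem_filter]
    have := (key p.1 p.2.1 p.2.2).1 hp.2
    exact ⟨⟨mem_univ _, this.1⟩, mem_univ _, this.2⟩
  · intro q hq
    rw [mem_product, mem_filter, mem_filter] at hq
    rw [mem_filter]
    refine ⟨mem_univ _, (key _ _ _).2 ?_⟩
    simp only [RingEquiv.apply_symm_apply]
    exact ⟨hq.1.2, hq.2.2⟩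
  · intro p _
    simp
  · intro q _
    simp

/-- the factor at `p` -/
theorem factor_lower' {u : ℝ} (hu0 : 0 ≤ u) (hu : u ≤ 1 / 5) :
    Real.exp (-(3 * u + 30 * u ^ 2)) ≤ 1 - 3 * u := by
  have hy : 0 ≤ 3 * u + 30 * u ^ 2 := by positivity
  have h1 := Real.quadratic_le_exp_of_nonneg hy
  rw [Real.exp_neg]
  have h2 : 0 < Real.exp (3 * u + 30 * u ^ 2) := Real.exp_pos _
  have h4 : 0 < 1 - 3 * u := by linarith
  rw [inv_le_comm₀ h2 h4]
  refine le_trans ?_ h1
  rw [inv_le_iff_one_le_mul₀ h4]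
  have h5 : (1 - 3 * u) * (1 + (3 * u + 30 * u ^ 2) + (3 * u + 30 * u ^ 2) ^ 2 / 2) =
      1 + u ^ 2 * (25.5 - 13.5 * u + 180 * u ^ 2 - 1350 * u ^ 3) := by ring
  have h6 : 0 ≤ 25.5 - 13.5 * u + 180 * u ^ 2 - 1350 * u ^ 3 := by
    have h7 : u ^ 3 ≤ (1 / 5) ^ 3 := pow_le_pow_left₀ hu0 hu 3
    nlinarith [sq_nonneg u]
  have h7 := mul_nonneg (sq_nonneg u) h6
  rw [mul_comm, h5]
  linarith

theorem mert' : ∃ c : ℝ, 0 < c ∧ ∀ Q0 : ℕ, 2 ≤ Q0 →
    c / (Real.log Q0) ^ 6 ≤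
      ∏ p ∈ (Icc 5 Q0).filter Nat.Prime, (1 - 6 / (p : ℝ) + 9 / (p : ℝ) ^ 2) := by
  obtain ⟨C, hC⟩ := Pool.Agent.Helper601.Mertens.mertens_inv
  set c1 : ℝ := Real.exp (-(6 * C + 60)) with hc1
  have hc10 : 0 < c1 := Real.exp_pos _
  refine ⟨min c1 (1 / 10), by positivity, ?_⟩
  intro Q0 hQ0
  rcases Nat.lt_or_ge Q0 3 with h3 | h3
  · -- `Q0 = 2`
    have hQ : Q0 = 2 := by omega
    subst hQ
    have h1 : (Icc 5 2).filter Nat.Prime = ∅ := by
      rw [Finset.Icc_eq_empty (by norm_num), Finset.filter_empty]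
    rw [h1, prod_empty]
    have h2 : (0.69 : ℝ) ≤ Real.log (2 : ℕ) := by
      have := Real.log_two_gt_d9
      push_cast
      linarith
    have h4 : (1 / 10 : ℝ) ≤ Real.log (2 : ℕ) ^ 6 := by
      calc (1 / 10 : ℝ) ≤ 0.69 ^ 6 := by norm_num
        _ ≤ _ := pow_le_pow_left₀ (by norm_num) h2 6
    have h5 : 0 < Real.log ((2 : ℕ) : ℝ) ^ 6 := lt_of_lt_of_le (by norm_num) h4
    exact (div_le_one h5).2 ((min_le_right _ _).trans h4)
  · have hl : 0 < Real.log (Q0 : ℝ) := Real.log_pos (by exact_mod_cast (by omega : 1 < Q0))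
    have hsub : (Icc 5 Q0).filter Nat.Prime ⊆ (Icc 1 Q0).filter Nat.Prime := by
      apply Finset.filter_subset_filter
      apply Finset.Icc_subset_Icc (by norm_num) le_rfl
    have h1 : ∑ p ∈ (Icc 5 Q0).filter Nat.Prime, (1 : ℝ) / p ≤ Real.log (Real.log Q0) + C := by
      have h2 := (abs_le.1 (hC Q0 h3)).2
      have h4 : ∑ p ∈ (Icc 5 Q0).filter Nat.Prime, (1 : ℝ) / p ≤
          ∑ p ∈ (Icc 1 Q0).filter Nat.Prime, (1 : ℝ) / p :=
        Finset.sum_le_sum_of_subset_of_nonneg hsub fun p _ _ => by positivity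
      linarith
    have h2 : ∑ p ∈ (Icc 5 Q0).filter Nat.Prime, ((p : ℝ) ^ 2)⁻¹ ≤ 1 := by
      have h4 : ∑ p ∈ (Icc 5 Q0).filter Nat.Prime, ((p : ℝ) ^ 2)⁻¹ ≤
          ∑ p ∈ Ioc 1 Q0, ((p : ℝ) ^ 2)⁻¹ := by
        apply Finset.sum_le_sum_of_subset_of_nonneg
        · intro p hp
          rw [mem_filter, mem_Icc] at hp
          rw [mem_Ioc]
          omega
        · intro p _ _
          positivity
      have h5 := sum_Ioc_inv_sq_le_sub (α := ℝ) (k := 1) (n := Q0) one_ne_zero (by omega)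
      have h6 : (0 : ℝ) ≤ (Q0 : ℝ)⁻¹ := by positivity
      norm_num at h5
      linarith
    have h4 : Real.exp (-(6 * ∑ p ∈ (Icc 5 Q0).filter Nat.Prime, (1 : ℝ) / p +
        60 * ∑ p ∈ (Icc 5 Q0).filter Nat.Prime, ((p : ℝ) ^ 2)⁻¹)) ≤
        ∏ p ∈ (Icc 5 Q0).filter Nat.Prime, (1 - 6 / (p : ℝ) + 9 / (p : ℝ) ^ 2) := by
      rw [Finset.mul_sum, Finset.mul_sum, ← Finset.sum_add_distrib, ← Finset.sum_neg_distrib,
        Real.exp_sum]
      apply Finset.prod_le_prod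
      · intro p _
        exact (Real.exp_pos _).le
      · intro p hp
        rw [mem_filter, mem_Icc] at hp
        have hp5 : (5 : ℝ) ≤ p := by exact_mod_cast hp.1.1
        have h5 := factor_lower' (u := 1 / (p : ℝ)) (by positivity)
          (by apply one_div_le_one_div_of_le <;> linarith)
        have h6 := pow_le_pow_left₀ (Real.exp_pos _).le h5 2
        rw [← Real.exp_nat_mul] at h6
        have e1 : ((2 : ℕ) : ℝ) * -(3 * (1 / (p : ℝ)) + 30 * (1 / (p : ℝ)) ^ 2) =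
            -(6 * (1 / (p : ℝ)) + 60 * ((p : ℝ) ^ 2)⁻¹) := by
          push_cast
          rw [one_div, inv_pow]
          ring
        have e2 : (1 - 3 * (1 / (p : ℝ))) ^ 2 =
            1 - 6 / (p : ℝ) + 9 / (p : ℝ) ^ 2 := by
          field_simp
          ring
        rw [e1, e2] at h6
        exact h6
    refine le_trans ?_ h4
    have h5 : min c1 (1 / 10) / Real.log Q0 ^ 6 ≤ c1 / Real.log Q0 ^ 6 :=
      div_le_div_of_nonneg_right (min_le_left _ _) (by positivity)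
    refine h5.trans ?_
    have h6 : c1 / Real.log Q0 ^ 6 = Real.exp (-(6 * (Real.log (Real.log Q0) + C) + 60)) := by
      have e1 : -(6 * (Real.log (Real.log Q0) + C) + 60) =
          -(6 * C + 60) + -((6 : ℕ) * Real.log (Real.log Q0)) := by push_cast; ring
      rw [e1, Real.exp_add, Real.exp_neg ((6 : ℕ) * Real.log (Real.log Q0)), Real.exp_nat_mul,
        Real.exp_log hl, ← hc1, div_eq_mul_inv]
    rw [h6]
    apply Real.exp_le_exp.2
    linarith

/-- the local factor -/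
noncomputable def th' (p : ℕ) : ℝ :=
  if p = 2 then 1 else if p = 3 then 2 / 9 else 1 - 6 / (p : ℝ) + 9 / (p : ℝ) ^ 2

lemma th'_pos {p : ℕ} (hp : p.Prime) : 0 < th' p := by
  unfold th'
  split_ifs with h2 h3
  · norm_num
  · norm_num
  · have h5 : 5 ≤ p := by
      rcases prime_cases hp with h | h | h <;> omega
    have h5' : (5 : ℝ) ≤ p := by exact_mod_cast h5
    have hp0 : (0 : ℝ) < p := by linarith
    have e2 : 1 - 6 / (p : ℝ) + 9 / (p : ℝ) ^ 2 = ((p - 3) / p) ^ 2 := by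
      field_simp
      ring
    rw [e2]
    have : 0 < (p : ℝ) - 3 := by linarith
    positivity

lemma th'_le {p : ℕ} (hp : p.Prime) (hz : NeZero p)
    (ν : ZMod p) : (p : ℝ) ^ 2 * th' p ≤ rhoUS p ν := by
  rcases prime_cases hp with h | h | h
  · subst h
    have h4 : 4 ≤ @rhoUS 2 hz ν := dec2' ν
    have h5 : (4 : ℝ) ≤ @rhoUS 2 hz ν := by exact_mod_cast h4
    refine le_trans (le_of_eq ?_) h5
    norm_num [th']
  · subst h
    have h4 : 2 ≤ @rhoUS 3 hz ν := dec3' ν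
    have h5 : (2 : ℝ) ≤ @rhoUS 3 hz ν := by exact_mod_cast h4
    refine le_trans (le_of_eq ?_) h5
    norm_num [th']
  · have h4 := rsp' p hp h hz ν
    have h5 : (p : ℝ) ^ 2 + 9 ≤ rhoUS p ν + 6 * p := by exact_mod_cast h4
    have hp0 : (0 : ℝ) < p := by exact_mod_cast hp.pos
    have h6 : (p : ℝ) ^ 2 * th' p = p ^ 2 - 6 * p + 9 := by
      unfold th'
      rw [if_neg (by omega), if_neg (by omega)]
      field_simp
    rw [h6]
    linarith

lemma local_le' {p : ℕ} (hp : p.Prime) (e : ℕ)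
    (hz : NeZero (p ^ (e + 1))) (ν : ℤ) :
    ((p ^ (e + 1) : ℕ) : ℝ) ^ 2 * th' p ≤ rhoU (p ^ (e + 1)) (ν : ZMod (p ^ (e + 1))) := by
  have hz1 : NeZero p := ⟨hp.ne_zero⟩
  have h4 := lift' p hp hz1 e hz ν
  have h5 : (p : ℝ) ^ (2 * e) * rhoUS p (ν : ZMod p) ≤
      rhoU (p ^ (e + 1)) (ν : ZMod (p ^ (e + 1))) := by exact_mod_cast h4
  refine le_trans ?_ h5
  have h6 := th'_le hp hz1 (ν : ZMod p)
  calc ((p ^ (e + 1) : ℕ) : ℝ) ^ 2 * th' p = (p : ℝ) ^ (2 * e) * ((p : ℝ) ^ 2 * th' p) := by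
        push_cast
        ring
    _ ≤ _ := mul_le_mul_of_nonneg_left h6 (by positivity)

lemma all_le' :
    ∀ D : ℕ, ∀ _ : NeZero D, ∀ ν : ℤ,
      (D : ℝ) ^ 2 * ∏ p ∈ D.primeFactors, th' p ≤ rhoU D (ν : ZMod D) := by
  intro D
  induction D using Nat.recOnPosPrimePosCoprime with
  | prime_pow p n hp hn =>
    intro hz ν
    obtain ⟨e, rfl⟩ : ∃ e, n = e + 1 := ⟨n - 1, by omega⟩
    rw [Nat.primeFactors_prime_pow (by omega) hp, Finset.prod_singleton]
    exact local_le' hp e hz ν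
  | zero =>
    intro hz
    exact absurd rfl hz.ne
  | one =>
    intro hz ν
    rw [Nat.primeFactors_one, Finset.prod_empty, Nat.cast_one, one_pow, one_mul]
    have h : 0 < @rhoU 1 hz (ν : ZMod 1) := by
      classical
      unfold rhoU
      rw [Finset.card_pos]
      exact ⟨(0, 0, 0), Finset.mem_filter.2 ⟨Finset.mem_univ _, isUnit_of_subsingleton _,
        Subsingleton.elim _ _⟩⟩
    exact_mod_cast h
  | coprime a b ha hb hab iha ihb =>
    intro hz ν
    have hza : NeZero a := ⟨by omega⟩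
    have hzb : NeZero b := ⟨by omega⟩
    have h4 := rhoc' a b hza hzb hz hab ν
    have ha' := iha hza ν
    have hb' := ihb hzb ν
    rw [h4, hab.primeFactors_mul, Finset.prod_union hab.disjoint_primeFactors]
    push_cast
    have hpa : 0 ≤ ∏ p ∈ a.primeFactors, th' p :=
      Finset.prod_nonneg fun p hp => (th'_pos (Nat.prime_of_mem_primeFactors hp)).le
    have hpb : 0 ≤ ∏ p ∈ b.primeFactors, th' p :=
      Finset.prod_nonneg fun p hp => (th'_pos (Nat.prime_of_mem_primeFactors hp)).le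
    calc ((a : ℝ) * b) ^ 2 * ((∏ p ∈ a.primeFactors, th' p) * ∏ p ∈ b.primeFactors, th' p)
        = ((a : ℝ) ^ 2 * ∏ p ∈ a.primeFactors, th' p) *
          ((b : ℝ) ^ 2 * ∏ p ∈ b.primeFactors, th' p) := by ring
      _ ≤ _ := mul_le_mul ha' hb' (by positivity) (by positivity)

/-- the lower bound for `D = Q0!` -/
theorem rhof : ∃ c : ℝ, 0 < c ∧ ∀ Q0 : ℕ, 2 ≤ Q0 → ∀ ν : ℤ, ∀ _ : NeZero Q0.factorial,
    c / (Real.log Q0) ^ 6 * (Q0.factorial : ℝ) ^ 2 ≤
      rhoU Q0.factorial (ν : ZMod Q0.factorial) := by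
  obtain ⟨c, hc, hM⟩ := mert'
  refine ⟨2 / 9 * c, by positivity, ?_⟩
  intro Q0 hQ ν hz
  refine le_trans ?_ (all_le' Q0.factorial hz ν)
  have hlog : 0 < Real.log Q0 := Real.log_pos (by exact_mod_cast hQ)
  have hM' := hM Q0 hQ
  set T := (Icc 5 Q0).filter Nat.Prime with hT
  have hTS : T ⊆ Q0.factorial.primeFactors := by
    intro p hp
    obtain ⟨hp1, hp2⟩ := Finset.mem_filter.1 hp
    exact Nat.mem_primeFactors.2 ⟨hp2, (hp2.dvd_factorial).2 (Finset.mem_Icc.1 hp1).2,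
      Nat.factorial_ne_zero _⟩
  have hsub : Q0.factorial.primeFactors \ T ⊆ {2, 3} := by
    intro p hp
    obtain ⟨hp1, hp2⟩ := Finset.mem_sdiff.1 hp
    obtain ⟨hp3, hp4, -⟩ := Nat.mem_primeFactors.1 hp1
    rcases prime_cases hp3 with h | h | h
    · simp [h]
    · simp [h]
    · exact absurd (Finset.mem_filter.2 ⟨Finset.mem_Icc.2 ⟨h, (hp3.dvd_factorial).1 hp4⟩, hp3⟩) hp2
  have h49 : 2 / 9 ≤ ∏ p ∈ Q0.factorial.primeFactors \ T, th' p := by
    have t2 : th' 2 = 1 := by norm_num [th']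
    have t3 : th' 3 = 2 / 9 := by norm_num [th']
    have hS : ∏ p ∈ Q0.factorial.primeFactors \ T, th' p =
        ∏ p ∈ ({2, 3} : Finset ℕ), if p ∈ Q0.factorial.primeFactors \ T then th' p else 1 := by
      rw [← Finset.prod_filter]
      refine Finset.prod_congr ?_ fun _ _ => rfl
      ext x
      rw [Finset.mem_filter]
      exact ⟨fun h => ⟨hsub h, h⟩, fun h => h.2⟩
    rw [hS, Finset.prod_pair (by norm_num), t2, t3]
    split_ifs <;> norm_num
  have hTth : ∏ p ∈ T, (1 - 6 / (p : ℝ) + 9 / (p : ℝ) ^ 2) = ∏ p ∈ T, th' p := by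
    refine Finset.prod_congr rfl fun p hp => ?_
    have hp5 := (Finset.mem_Icc.1 (Finset.mem_filter.1 hp).1).1
    unfold th'
    rw [if_neg (by omega), if_neg (by omega)]
  have hT0 : 0 ≤ ∏ p ∈ T, th' p :=
    Finset.prod_nonneg fun p hp => (th'_pos (Finset.mem_filter.1 hp).2).le
  rw [← Finset.prod_sdiff hTS]
  rw [hTth] at hM'
  have h5 : 2 / 9 * c / Real.log Q0 ^ 6 ≤
      (∏ p ∈ Q0.factorial.primeFactors \ T, th' p) * ∏ p ∈ T, th' p := by
    calc 2 / 9 * c / Real.log Q0 ^ 6 = 2 / 9 * (c / Real.log Q0 ^ 6) := by ring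
      _ ≤ 2 / 9 * ∏ p ∈ T, th' p := by gcongr
      _ ≤ _ := mul_le_mul_of_nonneg_right h49 hT0
  calc 2 / 9 * c / Real.log Q0 ^ 6 * (Q0.factorial : ℝ) ^ 2
      ≤ ((∏ p ∈ Q0.factorial.primeFactors \ T, th' p) * ∏ p ∈ T, th' p) *
        (Q0.factorial : ℝ) ^ 2 := by gcongr
    _ = _ := by ring

end Pool.Agent.L5helper15.GA
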