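import Pool.Agent.L5helper15.GA.Sum
import Pool.Agent.L5helper15.GA.Loc
import Pool.Agent.N814.AO_CNT
import Pool.Agent.TH423.SH.PAIP

set_option autoImplicit false

/-!
# The average over a progression (adapted from N814, project AO)
-/

namespace Pool.Agent.L5helper15.GA
open Finset Pool.Agent.N699.AO
open Pool.Agent.N814.AO (fst' fst_lt fst_le fst_cast fst_cast' fst_le')

/-- the number of the primes `8 m + 3` with `m` in a class -/
theorem class_lower (D : ℕ) [NeZero D] : ∃ M0 : ℕ, ∀ M : ℕ, M0 ≤ M → ∀ m0 : ZMod D,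
    IsUnit (8 * m0 + 3) → (M : ℝ) / (4 * D * Real.log M) ≤
      ((AP M).filter (fun m => ((m : ℕ) : ZMod D) = m0)).card := by
  have hD : 0 < D := Nat.pos_of_ne_zero (NeZero.ne D)
  obtain ⟨x0, hx0⟩ := Pool.Agent.TH423.SH.pai (8 * D) (by omega) (1 / 2) (1 / 20) (by norm_num)
    (by norm_num)
  obtain ⟨M1, hM1⟩ := exists_nat_ge x0
  refine ⟨M1 + 160, ?_⟩
  intro M hM m0 hm0
  obtain ⟨a, ha⟩ : ∃ a : ℕ, a = m0.val := ⟨_, rfl⟩
  have ham : ((a : ℕ) : ZMod D) = m0 := by rw [ha, ZMod.natCast_val, ZMod.cast_id]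
  have hMr : (160 : ℝ) ≤ M := by exact_mod_cast (by omega : 160 ≤ M)
  have hMx : x0 ≤ 160 * (M : ℝ) := by
    have : (M1 : ℝ) ≤ M := by exact_mod_cast (by omega : M1 ≤ M)
    linarith
  have hDr : (0 : ℝ) < D := by exact_mod_cast hD
  have hcop : (8 * a + 3).Coprime (8 * D) := by
    apply Nat.Coprime.mul_right
    · have h1 : Nat.Coprime (8 * a + 3) (2 ^ 3) := by
        apply Nat.Coprime.pow_right
        exact Nat.coprime_two_right.2 ⟨4 * a + 1, by ring⟩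
      exact h1
    · rw [← ZMod.isUnit_iff_coprime]
      push_cast
      rw [ham]
      exact hm0
  have h1 := hx0 (160 * M) hMx (160 * M + 3) (168 * M + 3) (8 * a + 3) (by push_cast; linarith)
    (by push_cast; linarith) (by push_cast; linarith) hcop
  have hlog : 0 < Real.log (160 * (M : ℝ)) := Real.log_pos (by linarith)
  have hlogM : 0 < Real.log (M : ℝ) := Real.log_pos (by linarith)
  have h2 : Real.log (160 * (M : ℝ)) ≤ 2 * Real.log M := by
    rw [Real.log_mul (by norm_num) (by linarith)]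
    have : Real.log 160 ≤ Real.log M := Real.log_le_log (by norm_num) hMr
    linarith
  have htot0 : 0 < Nat.totient (8 * D) := Nat.totient_pos.2 (by omega)
  have htot : (Nat.totient (8 * D) : ℝ) ≤ 8 * D := by exact_mod_cast Nat.totient_le (8 * D)
  have htr : (0 : ℝ) < Nat.totient (8 * D) := by exact_mod_cast htot0
  push_cast at h1
  have e0 : (168 * (M : ℝ) + 3 - (160 * M + 3)) = 8 * M := by ring
  rw [e0] at h1
  have h3 := (abs_le.1 h1).1
  have h4 : (M : ℝ) / (4 * D * Real.log M) ≤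
      1 / 2 * (8 * M / (Nat.totient (8 * D) * Real.log (160 * M))) := by
    have e1 : 1 / 2 * (8 * (M : ℝ) / (Nat.totient (8 * D) * Real.log (160 * M))) =
      4 * M / (Nat.totient (8 * D) * Real.log (160 * M)) := by ring
    rw [e1, div_le_div_iff₀ (by positivity) (by positivity)]
    have h5 : (Nat.totient (8 * D) : ℝ) * Real.log (160 * M) ≤ 8 * D * (2 * Real.log M) := by
      gcongr
    nlinarith
  have h6 : (M : ℝ) / (4 * D * Real.log M) ≤
      (((Ioc (160 * M + 3) (168 * M + 3)).filter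
        (fun q => q.Prime ∧ q % (8 * D) = (8 * a + 3) % (8 * D))).card : ℝ) := by
    linarith
  refine h6.trans ?_
  have h7 : ((Ioc (160 * M + 3) (168 * M + 3)).filter
        (fun q => q.Prime ∧ q % (8 * D) = (8 * a + 3) % (8 * D))).card ≤
      ((AP M).filter (fun m => ((m : ℕ) : ZMod D) = m0)).card := by
    apply card_le_card_of_injOn (fun q => (q - 3) / 8)
    · intro q hq
      have hq' := mem_filter.1 (mem_coe.1 hq)
      obtain ⟨hq1, hq2, hq3⟩ := hq'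
      rw [mem_Ioc] at hq1
      have hq4 : q % 8 = 3 := by
        have := congrArg (· % 8) hq3
        simp only [Nat.mod_mul_right_mod] at this
        omega
      obtain ⟨m, hm⟩ : ∃ m, q = 8 * m + 3 := ⟨q / 8, by omega⟩
      have e2 : (q - 3) / 8 = m := by omega
      apply mem_coe.2
      rw [mem_filter, AP, mem_filter, mem_Ioc]
      simp only [e2]
      refine ⟨⟨⟨by omega, by omega⟩, by rw [← hm]; exact hq2⟩, ?_⟩
      rw [← ham, ZMod.natCast_eq_natCast_iff]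
      have h8 : 8 * m + 3 ≡ 8 * a + 3 [MOD 8 * D] := by
        rw [← hm]; exact hq3
      have h9 : 8 * m ≡ 8 * a [MOD 8 * D] := Nat.ModEq.add_right_cancel' 3 h8
      exact (Nat.ModEq.mul_left_cancel_iff' (by norm_num)).1 h9
    · intro q hq q' hq' h
      have hq1 := mem_filter.1 (mem_coe.1 hq)
      have hq1' := mem_filter.1 (mem_coe.1 hq')
      have hq4 : q % 8 = 3 := by
        have := congrArg (· % 8) hq1.2.2
        simp only [Nat.mod_mul_right_mod] at this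
        omega
      have hq4' : q' % 8 = 3 := by
        have := congrArg (· % 8) hq1'.2.2
        simp only [Nat.mod_mul_right_mod] at this
        omega
      simp only at h
      omega
  exact_mod_cast h7

/-- the remainder -/
def wG (ν : ℤ) (a s : ℕ) : ℕ := (ν - (gl a + (s : ℤ) ^ 2)).toNat

/-- the parametrisation of the triples -/
def FG (D M : ℕ) (ν : ℤ) (q : Σ _ : (ZMod D × ZMod D × ZMod D), ℕ × ℕ × ℕ) : ℕ × ℕ × ℕ :=
  let s := fst' D (20 * M) q.1.2.1 + q.2.2.1 * D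
  let t := fst' D (Nat.sqrt (wG ν q.2.1 s)) q.1.2.2 + q.2.2.2 * D
  (q.2.1, s, t)

lemma FG_inj (D M : ℕ) [NeZero D] (ν : ℤ)
    (U : Finset (Σ _ : (ZMod D × ZMod D × ZMod D), ℕ × ℕ × ℕ))
    (hU : ∀ q ∈ U, ((q.2.1 : ℕ) : ZMod D) = q.1.1) : Set.InjOn (FG D M ν) U := by
  rintro ⟨⟨a0, s0, t0⟩, i, j, l⟩ hq ⟨⟨a1, s1, t1⟩, i', j', l'⟩ hq' h
  have hD : 0 < D := Nat.pos_of_ne_zero (NeZero.ne D)
  have c1 := hU _ (mem_coe.1 hq)
  have c2 := hU _ (mem_coe.1 hq')
  simp only at c1 c2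
  simp only [FG, Prod.mk.injEq] at h
  obtain ⟨ha, hs, ht⟩ := h
  subst ha
  have ha0 : a0 = a1 := by rw [← c1, ← c2]
  subst ha0
  have hs0 : s0 = s1 := by
    have := congrArg (fun n : ℕ => (n : ZMod D)) hs
    simpa only [fst_cast'] using this
  subst hs0
  have hj : j = j' := by
    have : j * D = j' * D := by omega
    exact Nat.eq_of_mul_eq_mul_right hD this
  subst hj
  have ht0 : t0 = t1 := by
    have := congrArg (fun n : ℕ => (n : ZMod D)) ht
    simpa only [fst_cast'] using this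
  subst ht0
  have hl : l = l' := by
    have : l * D = l' * D := by omega
    exact Nat.eq_of_mul_eq_mul_right hD this
  subst hl
  rfl

lemma main_mem (D M J : ℕ) [NeZero D] (ν : ℤ) (hM : 1000 * D ≤ M) (hJ : 1000 * M ≤ J)
    (hJD : J * D ≤ M ^ 2) (h1 : 9800 * (M : ℤ) ^ 2 < ν) (h2 : ν ≤ 9900 * (M : ℤ) ^ 2)
    (p : ZMod D × ZMod D × ZMod D)
    (hp : 20 * p.1 ^ 2 + 16 * p.1 + p.2.1 ^ 2 + p.2.2 ^ 2 + p.2.2 = (ν : ZMod D))
    (a j l : ℕ) (haA : a ∈ AP M) (hac : ((a : ℕ) : ZMod D) = p.1)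
    (hj : j < 10 * M / D) (hl : l < J / (200 * M)) :
    FG D M ν ⟨p, a, j, l⟩ ∈ (Icc (-(J : ℤ)) J).biUnion
      (fun j => (bx (AP M) M).filter (fun q => (vl q : ℤ) = ν + j * D)) := by
  have hD : 0 < D := Nat.pos_of_ne_zero (NeZero.ne D)
  obtain ⟨a0, s0, t0⟩ := p
  simp only at hp hac
  set s := fst' D (20 * M) s0 + j * D with hs
  have haA' := haA
  rw [AP, mem_filter, mem_Ioc] at haA'
  obtain ⟨⟨haK1, haK2⟩, -⟩ := haA'
  have hs1 : 20 * M < s := by
    have h3 := fst_lt D (20 * M) s0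
    omega
  have hs2 : s ≤ 30 * M := by
    have h3 : s ≤ 20 * M + (10 * M / D) * D := fst_le' D _ _ j s0 hj
    have h4 : (10 * M / D) * D ≤ 10 * M := Nat.div_mul_le_self _ _
    omega
  set w := wG ν a s with hw
  have hM1 : 1000 ≤ M := (Nat.le_mul_of_pos_right 1000 hD).trans hM
  -- bounds for `w`
  have hc1 : (20 : ℤ) * M ≤ (a : ℤ) := by exact_mod_cast haK1.le
  have hc2 : (a : ℤ) ≤ 21 * M := by exact_mod_cast haK2
  have hs1' : (20 : ℤ) * M ≤ (s : ℤ) := by exact_mod_cast hs1.le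
  have hs2' : (s : ℤ) ≤ 30 * M := by exact_mod_cast hs2
  have hMz : (1000 : ℤ) ≤ M := by exact_mod_cast hM1
  have hMM : (1000 : ℤ) * M ≤ (M : ℤ) ^ 2 := by
    have := mul_le_mul_of_nonneg_right hMz (by linarith : (0 : ℤ) ≤ M)
    rw [sq]
    exact this
  have hc3 : (a : ℤ) ^ 2 ≤ 441 * (M : ℤ) ^ 2 := by
    have := pow_le_pow_left₀ (by linarith : (0 : ℤ) ≤ (a : ℤ)) hc2 2
    rw [mul_pow] at this
    linarith
  have hc4 : 400 * (M : ℤ) ^ 2 ≤ (a : ℤ) ^ 2 := by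
    have := pow_le_pow_left₀ (by linarith : (0 : ℤ) ≤ 20 * (M : ℤ)) hc1 2
    rw [mul_pow] at this
    linarith
  have hs3 : (s : ℤ) ^ 2 ≤ 900 * (M : ℤ) ^ 2 := by
    have := pow_le_pow_left₀ (by linarith : (0 : ℤ) ≤ (s : ℤ)) hs2' 2
    rw [mul_pow] at this
    linarith
  have hs4 : 400 * (M : ℤ) ^ 2 ≤ (s : ℤ) ^ 2 := by
    have := pow_le_pow_left₀ (by linarith : (0 : ℤ) ≤ 20 * (M : ℤ)) hs1' 2
    rw [mul_pow] at this
    linarith
  have hwz : (w : ℤ) = ν - (20 * (a : ℤ) ^ 2 + 16 * (a : ℤ) + (s : ℤ) ^ 2) := by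
    rw [hw, wG, gl, Int.toNat_of_nonneg]
    linarith
  have hwlo : (64 : ℤ) * (M : ℤ) ^ 2 ≤ w := by
    rw [hwz]
    linarith
  have hwhi : (w : ℤ) < (39 * (M : ℤ)) ^ 2 := by
    rw [hwz, mul_pow]
    linarith
  have hwnat : 64 * M ^ 2 ≤ w := by exact_mod_cast hwlo
  set τ := Nat.sqrt w with hτ
  have hτ1 : τ * τ ≤ w := Nat.sqrt_le w
  have hτ2 : w < (τ + 1) * (τ + 1) := Nat.lt_succ_sqrt w
  have hτ3 : 8 * M ≤ τ := by
    rw [hτ, Nat.le_sqrt]
    calc 8 * M * (8 * M) = 64 * M ^ 2 := by ring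
      _ ≤ w := hwnat
  have hτ4 : τ < 39 * M := by
    rw [hτ, Nat.sqrt_lt']
    exact_mod_cast hwhi
  set t := fst' D τ t0 + l * D with ht
  have ht1 : τ < t := by
    have h3 := fst_lt D τ t0
    omega
  set y := (J / (200 * M)) * D with hy
  have ht2 : t ≤ τ + y := fst_le' D _ _ l t0 hl
  have hy1 : 200 * M * y ≤ J * D := by
    have h3 : (200 * M) * (J / (200 * M)) ≤ J := Nat.mul_div_le _ _
    calc 200 * M * y = ((200 * M) * (J / (200 * M))) * D := by rw [hy]; ring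
      _ ≤ J * D := Nat.mul_le_mul_right D h3
  have hy2 : 200 * y ≤ M := by
    have h3 : (200 * y) * M ≤ M * M := by
      calc (200 * y) * M = 200 * M * y := by ring
        _ ≤ J * D := hy1
        _ ≤ M ^ 2 := hJD
        _ = M * M := by ring
    exact Nat.le_of_mul_le_mul_right h3 (by omega)
  -- the value
  have hval : ((vl (a, s, t) : ℕ) : ℤ) = ν + ((t : ℤ) ^ 2 + t - w) := by
    rw [hwz]
    simp only [vl]
    push_cast
    ring
  have hnn : (0 : ℤ) ≤ (t : ℤ) ^ 2 + t - w := by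
    have h3 : (w : ℤ) < ((τ : ℤ) + 1) * (τ + 1) := by exact_mod_cast hτ2
    have h4 : (τ : ℤ) + 1 ≤ t := by exact_mod_cast ht1
    have h5 : (0 : ℤ) ≤ τ := by positivity
    have h6 := pow_le_pow_left₀ (by linarith : (0 : ℤ) ≤ (τ : ℤ) + 1) h4 2
    rw [sq ((τ : ℤ) + 1)] at h6
    linarith
  have hup : (t : ℤ) ^ 2 + t - w ≤ (J : ℤ) * D := by
    have h3 : (τ : ℤ) * τ ≤ w := by exact_mod_cast hτ1
    have h4 : (t : ℤ) ≤ τ + y := by exact_mod_cast ht2
    have h5 : (τ : ℤ) ≤ 39 * M := by exact_mod_cast hτ4.le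
    have h6 : (200 : ℤ) * M * y ≤ J * D := by exact_mod_cast hy1
    have h7 : (200 : ℤ) * y ≤ M := by exact_mod_cast hy2
    have h8 : (0 : ℤ) ≤ (y : ℤ) := by positivity
    have h9 : (0 : ℤ) ≤ (τ : ℤ) := by positivity
    have h10 : (0 : ℤ) ≤ (t : ℤ) := by positivity
    have h11 : (1000 : ℤ) * M ≤ J * D := by
      have : 1000 * M ≤ J * D := hJ.trans (Nat.le_mul_of_pos_right J hD)
      exact_mod_cast this
    have h12 : (1000 : ℤ) ≤ M := by exact_mod_cast hM1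
    have e1 : (t : ℤ) ^ 2 ≤ (τ + y) ^ 2 := pow_le_pow_left₀ h10 h4 2
    have e0 : ((τ : ℤ) + y) ^ 2 = τ * τ + 2 * (τ * y) + y * y := by ring
    have e3 : (τ : ℤ) * y ≤ 39 * M * y := mul_le_mul_of_nonneg_right h5 h8
    have e4 : (200 : ℤ) * y * y ≤ M * y := mul_le_mul_of_nonneg_right h7 h8
    rw [e0] at e1
    linarith
  have hdvd : (D : ℤ) ∣ (t : ℤ) ^ 2 + t - w := by
    rw [← ZMod.intCast_zmod_eq_zero_iff_dvd]
    have e1 : ((vl (a, s, t) : ℕ) : ZMod D) = (ν : ZMod D) := by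
      rw [← hp]
      simp only [vl]
      push_cast
      have es : (s : ZMod D) = s0 := by rw [hs]; exact fst_cast' D _ _ _
      have et : (t : ZMod D) = t0 := by rw [ht]; exact fst_cast' D _ _ _
      rw [hac, es, et]
    have e2 : (((vl (a, s, t) : ℕ) : ℤ) : ZMod D) =
        ((ν + ((t : ℤ) ^ 2 + t - w) : ℤ) : ZMod D) := by rw [hval]
    rw [Int.cast_natCast, e1, Int.cast_add] at e2
    exact (left_eq_add.1 e2)
  obtain ⟨jj, hjj⟩ := hdvd
  have hDz : (0 : ℤ) < D := by exact_mod_cast hD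
  have hjj0 : 0 ≤ jj := by
    by_contra hc
    push Not at hc
    have := mul_neg_of_pos_of_neg hDz hc
    linarith
  have hjj1 : jj ≤ J := by
    by_contra hc
    push Not at hc
    have := mul_lt_mul_of_pos_left hc hDz
    linarith
  rw [mem_biUnion]
  refine ⟨jj, ?_, ?_⟩
  · rw [mem_Icc]
    constructor
    · have : (0 : ℤ) ≤ (J : ℤ) := by positivity
      omega
    · exact hjj1
  · rw [mem_filter]
    refine ⟨?_, ?_⟩
    · show (a, s, t) ∈ bx (AP M) M
      rw [bx, mem_product, mem_product, mem_Ioc, mem_Ioc]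
      refine ⟨haA, ⟨hs1, hs2⟩, ?_, ?_⟩
      · show 5 * M < t
        omega
      · show t ≤ 40 * M
        omega
    · show ((vl (a, s, t) : ℕ) : ℤ) = ν + jj * D
      rw [hval, hjj]
      ring

theorem cnt (D : ℕ) [NeZero D] : ∃ M0 : ℕ, ∀ M : ℕ, M0 ≤ M → ∀ J : ℕ, 1000 * M ≤ J →
    J * D ≤ M ^ 2 → ∀ ν : ℤ, 9800 * (M : ℤ) ^ 2 < ν → ν ≤ 9900 * (M : ℤ) ^ 2 →
    (1 / 2000 : ℝ) * (J * ((M : ℝ) / Real.log M)) * (rhoU D (ν : ZMod D) / (D : ℝ) ^ 2) ≤
      ∑ j ∈ Icc (-(J : ℤ)) J, (rg (AP M) M (ν + j * D) : ℝ) := by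
  have hD : 0 < D := Nat.pos_of_ne_zero (NeZero.ne D)
  obtain ⟨M0, hM0⟩ := class_lower D
  refine ⟨M0 + 1000 * D, ?_⟩
  intro M hM' J hJ hJD ν h1 h2
  have hM : 1000 * D ≤ M := by omega
  classical
  obtain ⟨a, ha⟩ : ∃ a, a = 10 * M / D := ⟨_, rfl⟩
  obtain ⟨b, hb⟩ : ∃ b, b = J / (200 * M) := ⟨_, rfl⟩
  set S : Finset (ZMod D × ZMod D × ZMod D) := (univ.filter (fun p : ZMod D × ZMod D × ZMod D =>
      IsUnit (8 * p.1 + 3) ∧
      20 * p.1 ^ 2 + 16 * p.1 + p.2.1 ^ 2 + p.2.2 ^ 2 + p.2.2 = (ν : ZMod D))) with hS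
  have hScard : S.card = rhoU D (ν : ZMod D) := by
    rw [rhoU, hS]
  set U : Finset (Σ _ : (ZMod D × ZMod D × ZMod D), ℕ × ℕ × ℕ) :=
    S.sigma (fun p => (AP M).filter (fun m => ((m : ℕ) : ZMod D) = p.1) ×ˢ (range a ×ˢ range b))
    with hU
  have hUm : ∀ q ∈ U, (IsUnit (8 * q.1.1 + 3) ∧ 20 * q.1.1 ^ 2 + 16 * q.1.1 + q.1.2.1 ^ 2 +
      q.1.2.2 ^ 2 + q.1.2.2 = (ν : ZMod D)) ∧ (q.2.1 ∈ AP M ∧ ((q.2.1 : ℕ) : ZMod D) = q.1.1) ∧
      q.2.2.1 < a ∧ q.2.2.2 < b := by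
    intro q hq
    rw [hU, mem_sigma, hS, mem_filter, mem_product, mem_filter, mem_product, mem_range,
      mem_range] at hq
    exact ⟨hq.1.2, hq.2.1, hq.2.2⟩
  have hsub : U.image (FG D M ν) ⊆ (Icc (-(J : ℤ)) J).biUnion
      (fun j => (bx (AP M) M).filter (fun q => (vl q : ℤ) = ν + j * D)) := by
    intro x hx
    rw [mem_image] at hx
    obtain ⟨⟨p, i, j, l⟩, hq, rfl⟩ := hx
    obtain ⟨⟨-, c1⟩, ⟨c2, c3⟩, c4, c5⟩ := hUm _ hq
    rw [ha] at c4
    rw [hb] at c5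
    exact main_mem D M J ν hM hJ hJD h1 h2 p c1 i j l c2 c3 c4 c5
  have hcard : U.card ≤ ∑ j ∈ Icc (-(J : ℤ)) J, rg (AP M) M (ν + j * D) := by
    rw [← Finset.card_image_of_injOn (FG_inj D M ν U (fun q hq => (hUm q hq).2.1.2))]
    exact (card_le_card hsub).trans card_biUnion_le
  have hUcard : (U.card : ℝ) = ∑ p ∈ S,
      (((AP M).filter (fun m => ((m : ℕ) : ZMod D) = p.1)).card : ℝ) * ((a : ℝ) * b) := by
    rw [hU, card_sigma, Nat.cast_sum]
    refine sum_congr rfl fun p _ => ?_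
    rw [card_product, card_product, card_range, card_range]
    push_cast
    ring
  have hR : (U.card : ℝ) ≤ ∑ j ∈ Icc (-(J : ℤ)) J, (rg (AP M) M (ν + j * D) : ℝ) := by
    exact_mod_cast hcard
  refine le_trans ?_ hR
  rw [hUcard]
  have hlow : ∑ p ∈ S, ((M : ℝ) / (4 * D * Real.log M)) * ((a : ℝ) * b) ≤ ∑ p ∈ S,
      (((AP M).filter (fun m => ((m : ℕ) : ZMod D) = p.1)).card : ℝ) * ((a : ℝ) * b) := by
    refine sum_le_sum fun p hp => ?_
    refine mul_le_mul_of_nonneg_right ?_ (by positivity)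
    rw [hS, mem_filter] at hp
    exact hM0 M (by omega) p.1 hp.2.1
  refine le_trans ?_ hlow
  rw [sum_const, nsmul_eq_mul, hScard]
  have hDr : (0 : ℝ) < D := by exact_mod_cast hD
  have hM1 : 1000 ≤ M := (Nat.le_mul_of_pos_right 1000 hD).trans hM
  have hMr : (1000 : ℝ) ≤ M := by exact_mod_cast hM1
  have hMD : (1000 : ℝ) * D ≤ M := by exact_mod_cast hM
  have hJM : (1000 : ℝ) * M ≤ J := by exact_mod_cast hJ
  have hlogM : 0 < Real.log (M : ℝ) := Real.log_pos (by linarith)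
  have key : ∀ x y : ℕ, 0 < y → (x : ℝ) / y - 1 ≤ ((x / y : ℕ) : ℝ) := by
    intro x y hy
    have h := Nat.lt_floor_add_one ((x : ℝ) / y)
    rw [Nat.floor_div_eq_div] at h
    linarith
  have hB : (M : ℝ) / D ≤ (a : ℝ) := by
    rw [ha]
    have h := key (10 * M) D hD
    push_cast at h
    have h3 : (1 : ℝ) ≤ (M : ℝ) / D := by
      rw [le_div_iff₀ hDr]
      linarith
    have h4 : (10 : ℝ) * M / D = 10 * (M / D) := by ring
    rw [h4] at h
    linarith
  have hC : (J : ℝ) / (400 * M) ≤ (b : ℝ) := by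
    rw [hb]
    have h := key J (200 * M) (by omega)
    push_cast at h
    have h3 : (1 : ℝ) ≤ (J : ℝ) / (400 * M) := by
      rw [le_div_iff₀ (by positivity)]
      linarith
    have h4 : (J : ℝ) / (200 * M) = 2 * (J / (400 * M)) := by
      field_simp
      ring
    rw [h4] at h
    linarith
  have hAB : (M : ℝ) / (4 * D * Real.log M) * ((M : ℝ) / D * ((J : ℝ) / (400 * M))) ≤
      (M : ℝ) / (4 * D * Real.log M) * ((a : ℝ) * b) := by
    gcongr
  calc (1 / 2000 : ℝ) * (J * ((M : ℝ) / Real.log M)) * (rhoU D (ν : ZMod D) / (D : ℝ) ^ 2)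
      ≤ (rhoU D (ν : ZMod D) : ℝ) *
        ((M : ℝ) / (4 * D * Real.log M) * ((M : ℝ) / D * ((J : ℝ) / (400 * M)))) := by
        have e : (rhoU D (ν : ZMod D) : ℝ) *
          ((M : ℝ) / (4 * D * Real.log M) * ((M : ℝ) / D * ((J : ℝ) / (400 * M)))) =
          (1 / 1600 : ℝ) * (J * ((M : ℝ) / Real.log M)) * (rhoU D (ν : ZMod D) / (D : ℝ) ^ 2) := by
          have : (M : ℝ) ≠ 0 := by positivity
          field_simp
          ring
        rw [e]
        gcongr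
        norm_num
    _ ≤ _ := by gcongr

end Pool.Agent.L5helper15.GA
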