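import Pool.Agent.N699.AO.Main

set_option autoImplicit false

/-!
# Almost all odd `n`: definitions and the Fourier bound

`A` is a finite set of natural numbers; the triples `(m, s, t)`, `m ∈ A`, with
`20 m² + 16 m + s² + t² + t = ν` are counted. Adapted from project AO (N699, N227, N459, N223).
-/

namespace Pool.Agent.L5helper15.GA
open Finset Pool.Agent.N699.AO MeasureTheory

/-- the polynomial -/
def gl (m : ℤ) : ℤ := 20 * m ^ 2 + 16 * m

/-- the box of the triples `(m, s, t)` -/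
def bx (A : Finset ℕ) (M : ℕ) : Finset (ℕ × ℕ × ℕ) :=
  A ×ˢ (Ioc (20 * M) (30 * M) ×ˢ Ioc (5 * M) (40 * M))

/-- the value of a triple -/
def vl (p : ℕ × ℕ × ℕ) : ℕ := 20 * p.1 ^ 2 + 16 * p.1 + p.2.1 ^ 2 + p.2.2 ^ 2 + p.2.2

/-- the number of triples of the box with value `ν` -/
def rg (A : Finset ℕ) (M : ℕ) (ν : ℤ) : ℕ := ((bx A M).filter (fun p => (vl p : ℤ) = ν)).card

/-- the exponential sum -/
noncomputable def EG (A : Finset ℕ) (α : ℝ) : ℂ := ∑ a ∈ A, ee ((gl a : ℝ) * α)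

/-- the number of pairs with congruent values -/
def NP (A : Finset ℕ) (Q : ℕ) : ℕ := ((A ×ˢ A).filter (fun p => (Q : ℤ) ∣ gl p.1 - gl p.2)).card

section FAV
open Pool.Agent.N459.AO

theorem sq_EF (A : Finset ℕ) (α : ℝ) : ((‖EG A α‖ ^ 2 : ℝ) : ℂ) =
    ∑ p ∈ A ×ˢ A, ee (((gl p.1 - gl p.2 : ℤ) : ℝ) * α) := by
  have h1 : ((‖EG A α‖ ^ 2 : ℝ) : ℂ) = EG A α * (starRingEnd ℂ) (EG A α) := by
    rw [Complex.mul_conj, Complex.normSq_eq_norm_sq]
  rw [h1]
  unfold EG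
  rw [map_sum, sum_mul_sum, sum_product]
  refine sum_congr rfl fun a _ => sum_congr rfl fun b _ => ?_
  rw [conj_ee, ← ee_add]
  congr 1
  push_cast
  ring

theorem t_FAV (A : Finset ℕ) (Q : ℕ) (hQ : 1 ≤ Q) (β : ℝ) :
    ∑ c ∈ range Q, ‖EG A ((c : ℝ) / Q + β)‖ ^ 2 ≤ (Q : ℝ) * NP A Q := by
  have h1 : ((∑ c ∈ range Q, ‖EG A ((c : ℝ) / Q + β)‖ ^ 2 : ℝ) : ℂ) =
      ∑ p ∈ A ×ˢ A, ee (((gl p.1 - gl p.2 : ℤ) : ℝ) * β) *
        (if (Q : ℤ) ∣ gl p.1 - gl p.2 then (Q : ℂ) else 0) := by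
    rw [Complex.ofReal_sum]
    have h0 : ∀ c ∈ range Q, ((‖EG A ((c : ℝ) / Q + β)‖ ^ 2 : ℝ) : ℂ) =
        ∑ p ∈ A ×ˢ A, ee (((gl p.1 - gl p.2 : ℤ) : ℝ) * ((c : ℝ) / Q + β)) :=
      fun c _ => sq_EF A _
    rw [sum_congr rfl h0, sum_comm]
    refine sum_congr rfl fun p _ => ?_
    rw [← geo Q hQ, mul_sum]
    refine sum_congr rfl fun c _ => ?_
    rw [← ee_add]
    congr 1
    ring
  have h2 : ∑ c ∈ range Q, ‖EG A ((c : ℝ) / Q + β)‖ ^ 2 =
      ‖((∑ c ∈ range Q, ‖EG A ((c : ℝ) / Q + β)‖ ^ 2 : ℝ) : ℂ)‖ := by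
    rw [Complex.norm_real, Real.norm_of_nonneg]
    exact sum_nonneg fun c _ => by positivity
  rw [h2, h1]
  refine (norm_sum_le _ _).trans ?_
  have h3 : ∀ p ∈ A ×ˢ A, ‖ee (((gl p.1 - gl p.2 : ℤ) : ℝ) * β) *
      (if (Q : ℤ) ∣ gl p.1 - gl p.2 then (Q : ℂ) else 0)‖ =
      if (Q : ℤ) ∣ gl p.1 - gl p.2 then (Q : ℝ) else 0 := by
    intro p _
    rw [norm_mul, norm_ee, one_mul]
    split_ifs
    · simp
    · simp
  rw [sum_congr rfl h3, ← sum_filter, sum_const, nsmul_eq_mul]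
  unfold NP
  rw [mul_comm]

theorem gl_inj (a b : ℕ) (h : gl a = gl b) : a = b := by
  unfold gl at h
  have ha : (0 : ℤ) ≤ a := by positivity
  have hb : (0 : ℤ) ≤ b := by positivity
  have h3 : ((a : ℤ) - b) * (20 * (a + b) + 16) = 0 := by
    linear_combination h
  rcases mul_eq_zero.1 h3 with h4 | h4
  · omega
  · exfalso
    linarith

theorem t_FL2 (A : Finset ℕ) : ∫ α in (0 : ℝ)..1, ‖EG A α‖ ^ 2 ≤ (A.card : ℝ) := by
  have h1 : ((∫ α in (0 : ℝ)..1, ‖EG A α‖ ^ 2 : ℝ) : ℂ) = ((A).card : ℂ) := by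
    rw [← intervalIntegral.integral_ofReal]
    simp only [sq_EF]
    rw [intervalIntegral.integral_finsetSum
      (fun p _ => (cont_ee (gl p.1 - gl p.2)).intervalIntegrable 0 1)]
    simp only [int_ee]
    rw [sum_product]
    have h2 : ∀ a ∈ A, ∑ b ∈ A, (if gl (a : ℤ) - gl (b : ℤ) = 0 then (1 : ℂ) else 0) = 1 := by
      intro a ha
      rw [sum_eq_single_of_mem a ha]
      · simp
      · intro b _ hb
        rw [if_neg]
        intro h
        exact hb (gl_inj a b (by linarith)).symm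
    rw [sum_congr rfl h2]
    simp
  have h3 : ∫ α in (0 : ℝ)..1, ‖EG A α‖ ^ 2 = ((A).card : ℝ) := by exact_mod_cast h1
  exact h3.le



end FAV

section PARS
open Pool.Agent.N227.AO

/-- the product of the sums is the sum over the box -/
lemma prod_box (A : Finset ℕ) (M : ℕ) (α : ℝ) :
    EG A α * ES M α * ET M α = ∑ p ∈ bx A M, ee (((vl p : ℤ) : ℝ) * α) := by
  unfold EG ES ET EW bx
  rw [Finset.sum_product, mul_assoc, Finset.sum_mul]
  refine Finset.sum_congr rfl fun a _ => ?_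
  rw [Finset.sum_product, Finset.sum_mul, Finset.mul_sum]
  refine Finset.sum_congr rfl fun s _ => ?_
  rw [Finset.mul_sum, Finset.mul_sum]
  refine Finset.sum_congr rfl fun t _ => ?_
  rw [← ee_add, ← ee_add]
  congr 1
  unfold vl gl
  push_cast
  ring

theorem t_PARS (A : Finset ℕ) (M : ℕ) (h : ℤ) (I : Finset ℤ) :
    ((∑ ν ∈ I, ((rg A M ν : ℝ) - rg A M (ν + h)) ^ 2 : ℝ)) ≤
      ∫ α in (0 : ℝ)..1, ‖EG A α * ES M α * ET M α‖ ^ 2 * ‖1 - ee ((h : ℝ) * α)‖ ^ 2 := by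
  set B := bx A M with hB
  set J : Finset ℤ := (B.image fun p => (vl p : ℤ)) ∪ (B.image fun p => (vl p : ℤ) - h) ∪ I with hJ
  set C : ℤ → ℝ := fun ν => (rg A M (ν + h) : ℝ) - rg A M ν with hC
  have e : ∀ α : ℝ, ‖EG A α * ES M α * ET M α‖ ^ 2 * ‖1 - ee ((h : ℝ) * α)‖ ^ 2 =
      ‖∑ ν ∈ J, (C ν : ℂ) * ee ((ν : ℝ) * α)‖ ^ 2 := by
    intro α
    have e1 : ‖1 - ee ((h : ℝ) * α)‖ = ‖ee (-((h : ℝ) * α)) - 1‖ := by
      have : ee (-((h : ℝ) * α)) - 1 = ee (-((h : ℝ) * α)) * (1 - ee ((h : ℝ) * α)) := by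
        rw [mul_sub, mul_one, ← ee_add]
        simp [ee_zero]
      rw [this, norm_mul, norm_ee, one_mul]
    rw [e1, ← mul_pow, ← norm_mul, prod_box]
    congr 2
    have e2 : ∑ p ∈ B, ee (((vl p : ℤ) : ℝ) * α) =
        ∑ ν ∈ J, (rg A M ν : ℂ) * ee ((ν : ℝ) * α) := by
      rw [← Finset.sum_fiberwise_of_maps_to (g := fun p => (vl p : ℤ)) (t := J)]
      · refine Finset.sum_congr rfl fun ν _ => ?_
        have : ∀ p ∈ B.filter (fun p => (vl p : ℤ) = ν), ee (((vl p : ℤ) : ℝ) * α) = ee ((ν : ℝ) * α) := by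
          intro p hp
          rw [(Finset.mem_filter.1 hp).2]
        rw [Finset.sum_congr rfl this, Finset.sum_const, nsmul_eq_mul]
        rfl
      · intro p hp
        simp only [hJ, Finset.mem_union, Finset.mem_image]
        exact Or.inl (Or.inl ⟨p, hp, rfl⟩)
    have e3 : (∑ p ∈ B, ee (((vl p : ℤ) : ℝ) * α)) * ee (-((h : ℝ) * α)) =
        ∑ ν ∈ J, (rg A M (ν + h) : ℂ) * ee ((ν : ℝ) * α) := by
      rw [Finset.sum_mul, ← Finset.sum_fiberwise_of_maps_to (g := fun p => (vl p : ℤ) - h) (t := J)]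
      · refine Finset.sum_congr rfl fun ν _ => ?_
        have : ∀ p ∈ B.filter (fun p => (vl p : ℤ) - h = ν),
            ee (((vl p : ℤ) : ℝ) * α) * ee (-((h : ℝ) * α)) = ee ((ν : ℝ) * α) := by
          intro p hp
          rw [← ee_add]
          congr 1
          have h1 := (Finset.mem_filter.1 hp).2
          rw [← h1]
          push_cast
          ring
        rw [Finset.sum_congr rfl this, Finset.sum_const, nsmul_eq_mul]
        congr 2
        unfold rg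
        congr 1
        apply Finset.filter_congr
        intro p _
        constructor
        · intro h1; omega
        · intro h1; omega
      · intro p hp
        simp only [hJ, Finset.mem_union, Finset.mem_image]
        exact Or.inl (Or.inr ⟨p, hp, rfl⟩)
    rw [mul_sub, e3, mul_one, e2, ← Finset.sum_sub_distrib]
    refine Finset.sum_congr rfl fun ν _ => ?_
    simp only [hC]
    push_cast
    ring
  simp_rw [e]
  rw [pars]
  calc ∑ ν ∈ I, ((rg A M ν : ℝ) - rg A M (ν + h)) ^ 2 = ∑ ν ∈ I, (C ν) ^ 2 := by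
        refine Finset.sum_congr rfl fun ν _ => ?_
        simp only [hC]
        ring
    _ ≤ ∑ ν ∈ J, (C ν) ^ 2 := by
        apply Finset.sum_le_sum_of_subset_of_nonneg
        · intro x hx
          simp only [hJ, Finset.mem_union]
          exact Or.inr hx
        · intro x _ _
          positivity



end PARS

end Pool.Agent.L5helper15.GA
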