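import Pool.Agent.L5helper15.GA.Sca
import Pool.Agent.L5helper7.GM.Spp

set_option autoImplicit false

/-!
# The quadruples of a triple, and the bad primes
-/

namespace Pool.Agent.L5helper15.GA
open Finset Pool.Agent.N699.AO
open Pool.Agent.L5helper7.GM (StrongProbablePrime good_of)
open Pool.Agent.R330.AF (TB TB_bound prime_factor)

/-- the quadruples of `n` for which `x + y` is prime and `N = 2^(x+y) + 2^(z+w) + 1` passes the
strong test to the base `2` and has only prime factors `q > B`, `q ≡ 1 mod 4 (x+y)` -/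
def quadsG (B : ℝ) (n : ℕ) : Set (ℕ × ℕ × ℕ × ℕ) :=
  {p | n = p.1 ^ 2 + p.2.1 ^ 2 + p.2.2.1 ^ 2 + p.2.2.2 ^ 2 ∧ (p.1 + p.2.1).Prime ∧
    StrongProbablePrime 2 (2 ^ (p.1 + p.2.1) + 2 ^ (p.2.2.1 + p.2.2.2) + 1) ∧
    ∀ q : ℕ, q.Prime → q ∣ 2 ^ (p.1 + p.2.1) + 2 ^ (p.2.2.1 + p.2.2.2) + 1 →
      B < q ∧ 4 * (p.1 + p.2.1) ∣ q - 1}

theorem quadsG_finite (B : ℝ) (n : ℕ) : (quadsG B n).Finite := by
  apply Set.Finite.subset (s := (((Finset.range (n + 1)) ×ˢ ((Finset.range (n + 1)) ×ˢ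
    ((Finset.range (n + 1)) ×ˢ (Finset.range (n + 1)))) : Finset (ℕ × ℕ × ℕ × ℕ)) :
    Set (ℕ × ℕ × ℕ × ℕ)))
  · exact Finset.finite_toSet _
  · rintro ⟨a, b, c', d⟩ ⟨h, -⟩
    simp only at h
    simp only [mem_coe, mem_product, mem_range]
    have k1 : a ≤ a ^ 2 := Nat.le_self_pow (by norm_num) a
    have k2 : b ≤ b ^ 2 := Nat.le_self_pow (by norm_num) b
    have k3 : c' ≤ c' ^ 2 := Nat.le_self_pow (by norm_num) c'
    have k4 : d ≤ d ^ 2 := Nat.le_self_pow (by norm_num) d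
    omega

theorem quadsG_mono {B B' : ℝ} (h : B' ≤ B) (n : ℕ) :
    ((quadsG B n).ncard : ℝ) ≤ (quadsG B' n).ncard := by
  have : (quadsG B n).ncard ≤ (quadsG B' n).ncard := by
    apply Set.ncard_le_ncard _ (quadsG_finite B' n)
    rintro p ⟨h1, h2, h3, h4⟩
    exact ⟨h1, h2, h3, fun q hq hd => ⟨lt_of_le_of_lt h (h4 q hq hd).1, (h4 q hq hd).2⟩⟩
  exact_mod_cast this

/-- the good `m`: no number `4 h (8 m + 3) + 1` with `h ≤ H` is prime -/
def AG (H M : ℕ) : Finset ℕ := (AP M).filter (fun m => ∀ h ∈ Icc 1 H, ¬ (4 * h * (8 * m + 3) + 1).Prime)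

/-- the bad `m` -/
def AB (H M : ℕ) : Finset ℕ := (AP M).filter (fun m => ¬ ∀ h ∈ Icc 1 H, ¬ (4 * h * (8 * m + 3) + 1).Prime)

/-- the quadruple of a triple -/
def ΦG (p : ℕ × ℕ × ℕ) : ℕ × ℕ × ℕ × ℕ :=
  (4 * p.1 + p.2.2 + 2, 4 * p.1 + 1 - p.2.2, 2 * p.1 + 1 + p.2.1, 2 * p.1 + 1 - p.2.1)

theorem fiber {H M : ℕ} {B : ℝ} (hB : B ≤ 640 * (H + 1) * M) (ν : ℕ) :
    rg (AG H M) M ν ≤ (quadsG B (2 * ν + 7)).ncard := by
  unfold rg
  rw [← Set.ncard_coe_finset]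
  apply Set.ncard_le_ncard_of_injOn ΦG (ht := quadsG_finite B (2 * ν + 7))
  · rintro ⟨m, s, t⟩ hp
    rw [mem_coe, mem_filter, bx, mem_product, mem_product, mem_Ioc, mem_Ioc, AG, mem_filter, AP,
      mem_filter, mem_Ioc] at hp
    obtain ⟨⟨⟨⟨⟨hm1, hm2⟩, hmp⟩, hmb⟩, ⟨hs1, hs2⟩, ht1, ht2⟩, hv⟩ := hp
    simp only at hm1 hm2 hmp hmb hs1 hs2 ht1 ht2 hv
    have hv' : vl (m, s, t) = ν := by exact_mod_cast hv
    obtain ⟨y, hy⟩ : ∃ y, 4 * m + 1 = t + y := ⟨4 * m + 1 - t, by omega⟩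
    obtain ⟨w, hw⟩ : ∃ w, 2 * m + 1 = s + w := ⟨2 * m + 1 - s, by omega⟩
    have hyv : 4 * m + 1 - t = y := by omega
    have hwv : 2 * m + 1 - s = w := by omega
    have hΦ : ΦG (m, s, t) = (4 * m + t + 2, y, 2 * m + 1 + s, w) := by
      simp only [ΦG, hyv, hwv]
    rw [hΦ]
    have hx : 4 * m + t + 2 + y = 8 * m + 3 := by omega
    have hz : 2 * m + 1 + s + w = 4 * m + 2 := by omega
    have hxp : (4 * m + t + 2 + y).Prime := by rw [hx]; exact hmp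
    obtain ⟨h6, h7⟩ := good_of (x := 4 * m + t + 2) (y := y) (z := 2 * m + 1 + s) (w := w)
      hxp (by omega) (by omega)
    refine ⟨?_, hxp, h6, fun q hq hd => ⟨?_, h7 q hq hd⟩⟩
    · show 2 * ν + 7 = (4 * m + t + 2) ^ 2 + y ^ 2 + (2 * m + 1 + s) ^ 2 + w ^ 2
      rw [← hv']
      simp only [vl]
      have hyz : (y : ℤ) = 4 * m + 1 - t := by omega
      have hwz : (w : ℤ) = 2 * m + 1 - s := by omega
      zify
      rw [hyz, hwz]
      ring
    · show B < (q : ℝ)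
      have hd' : q ∣ 2 ^ (4 * m + t + 2 + y) + 2 ^ (2 * m + 1 + s + w) + 1 := hd
      rw [hx, hz] at hd'
      have e3 : 2 ^ (8 * m + 3) + 2 ^ (4 * m + 2) + 1 =
          2 ^ (8 * m + 3) + 2 ^ (4 * m + 1) + 2 ^ (4 * m + 1) + 1 := by
        rw [show 4 * m + 2 = 4 * m + 1 + 1 by ring, pow_succ 2 (4 * m + 1)]; ring
      rw [e3] at hd'
      obtain ⟨h, hh1, hqh⟩ := prime_factor hmp hq hd'
      have hHh : H + 1 ≤ h := by
        by_contra hcon
        push Not at hcon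
        exact hmb h (mem_Icc.2 ⟨hh1, by omega⟩) (hqh ▸ hq)
      have hmr : 20 * (M : ℝ) ≤ m := by exact_mod_cast hm1.le
      have hHr : ((H : ℝ) + 1) ≤ h := by exact_mod_cast hHh
      have hq' : (q : ℝ) = 4 * h * (8 * m + 3) + 1 := by rw [hqh]; push_cast; ring
      have hM0 : (0 : ℝ) ≤ M := Nat.cast_nonneg _
      have hH0 : (0 : ℝ) ≤ H := Nat.cast_nonneg _
      have h8 : ((H : ℝ) + 1) * (160 * M) ≤ h * (8 * m + 3) :=
        mul_le_mul hHr (by linarith) (by positivity) (by positivity)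
      rw [hq']
      nlinarith
  · rintro ⟨m, s, t⟩ hp ⟨m', s', t'⟩ hp' he
    rw [mem_coe, mem_filter, bx, mem_product, mem_product, mem_Ioc, mem_Ioc, AG, mem_filter, AP,
      mem_filter, mem_Ioc] at hp hp'
    obtain ⟨⟨⟨⟨⟨hm1, hm2⟩, hmp⟩, hmb⟩, ⟨hs1, hs2⟩, ht1, ht2⟩, hv⟩ := hp
    obtain ⟨⟨⟨⟨⟨hm1', hm2'⟩, hmp'⟩, hmb'⟩, ⟨hs1', hs2'⟩, ht1', ht2'⟩, hv'⟩ := hp'
    simp only at hm1 hm2 hs1 hs2 ht1 ht2 hm1' hm2' hs1' hs2' ht1' ht2'
    simp only [ΦG, Prod.mk.injEq] at he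
    obtain ⟨e1, e2, e3, e4⟩ := he
    have : m = m' := by omega
    subst this
    have : s = s' := by omega
    subst this
    have : t = t' := by omega
    subst this
    rfl

theorem rg_split (H M : ℕ) (ν : ℤ) : rg (AP M) M ν ≤ rg (AG H M) M ν + rg (AB H M) M ν := by
  unfold rg
  refine le_trans (card_le_card ?_) (card_union_le _ _)
  intro p hp
  obtain ⟨hp1, hp2⟩ := mem_filter.1 hp
  obtain ⟨hp3, hp4⟩ := mem_product.1 hp1
  rw [mem_union]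
  by_cases h : ∀ h ∈ Icc 1 H, ¬ (4 * h * (8 * p.1 + 3) + 1).Prime
  · left
    exact mem_filter.2 ⟨mem_product.2 ⟨mem_filter.2 ⟨hp3, h⟩, hp4⟩, hp2⟩
  · right
    exact mem_filter.2 ⟨mem_product.2 ⟨mem_filter.2 ⟨hp3, h⟩, hp4⟩, hp2⟩

theorem rg_sum (A : Finset ℕ) (M : ℕ) (I : Finset ℤ) :
    ∑ ν ∈ I, (rg A M ν : ℝ) ≤ 350 * M ^ 2 * A.card := by
  have h1 : ∑ ν ∈ I, rg A M ν ≤ (bx A M).card := by
    unfold rg
    rw [← card_biUnion]
    · apply card_le_card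
      intro p hp
      rw [mem_biUnion] at hp
      obtain ⟨ν, -, hp⟩ := hp
      exact (mem_filter.1 hp).1
    · intro ν _ ν' _ hne
      rw [Function.onFun, disjoint_left]
      intro p hp hp'
      rw [mem_filter] at hp hp'
      exact hne (hp.2.symm.trans hp'.2)
  have h2 : (bx A M).card = A.card * ((10 * M) * (35 * M)) := by
    rw [bx, card_product, card_product, Nat.card_Ioc, Nat.card_Ioc]
    congr 2 <;> omega
  rw [h2] at h1
  have h3 : ((∑ ν ∈ I, rg A M ν : ℕ) : ℝ) ≤ ((A.card * ((10 * M) * (35 * M)) : ℕ) : ℝ) := by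
    exact_mod_cast h1
  push_cast at h3
  refine h3.trans (le_of_eq ?_)
  ring

theorem AB_card : ∃ C : ℝ, 0 < C ∧ ∀ H M : ℕ, 2 ≤ M →
    ((AB H M).card : ℝ) ≤ C * H * (M / (Real.log M) ^ 2) := by
  obtain ⟨C, hC, hT⟩ := TB_bound
  refine ⟨171 * C, by positivity, ?_⟩
  intro H M hM
  have hMr : (2 : ℝ) ≤ M := by exact_mod_cast hM
  have hl : 0 < Real.log M := Real.log_pos (by linarith)
  have h1 : (AB H M).card ≤ ∑ h ∈ Icc 1 H, (TB (168 * M + 3) h).card := by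
    refine le_trans ?_ (card_biUnion_le (s := Icc 1 H) (t := fun h => TB (168 * M + 3) h))
    apply card_le_card_of_injOn (fun m => 8 * m + 3)
    · intro m hm
      rw [mem_coe, AB, mem_filter, AP, mem_filter, mem_Ioc] at hm
      obtain ⟨⟨⟨hm1, hm2⟩, hmp⟩, hmb⟩ := hm
      push Not at hmb
      obtain ⟨h, hh, hhp⟩ := hmb
      rw [mem_coe, mem_biUnion]
      refine ⟨h, hh, ?_⟩
      show 8 * m + 3 ∈ TB (168 * M + 3) h
      rw [TB, mem_filter, mem_Icc]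
      exact ⟨⟨by omega, by omega⟩, by simpa using hmp, hhp⟩
    · intro a _ b _ hab
      simp only at hab
      omega
  have h2 := hT (168 * M + 3) H (by omega)
  have h3 : ((AB H M).card : ℝ) ≤ ((∑ h ∈ Icc 1 H, (TB (168 * M + 3) h).card : ℕ) : ℝ) := by
    exact_mod_cast h1
  refine h3.trans (h2.trans ?_)
  push_cast
  have h4 : Real.log M ≤ Real.log (168 * M + 3) := Real.log_le_log (by linarith) (by linarith)
  have h5 : (168 * (M : ℝ) + 3) / (Real.log (168 * M + 3)) ^ 2 ≤ 171 * M / (Real.log M) ^ 2 := by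
    apply div_le_div₀ (by positivity) (by linarith) (by positivity)
    exact pow_le_pow_left₀ hl.le h4 2
  calc C * H * ((168 * (M : ℝ) + 3) / (Real.log (168 * M + 3)) ^ 2) ≤
        C * H * (171 * M / (Real.log M) ^ 2) := by gcongr
    _ = _ := by ring

/-- one scale: few `n` have few quadruples -/
theorem scaB : ∀ ε : ℝ, 0 < ε → ∃ δ : ℝ, 0 < δ ∧ ∃ M0 : ℕ, ∀ M : ℕ, M0 ≤ M →
    (((Ioc (9800 * M ^ 2) (9900 * M ^ 2)).filter
      (fun ν => ((quadsG (δ * (M * Real.log M)) (2 * ν + 7)).ncard : ℝ) <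
        δ * (M / Real.log M))).card : ℝ) ≤ ε * M ^ 2 := by
  intro ε hε
  obtain ⟨δ, hδ, M0, hS⟩ := sca (ε / 2) (by positivity)
  obtain ⟨C, hC, hAB⟩ := AB_card
  obtain ⟨η, hη⟩ : ∃ η : ℝ, η = ε * δ / (1400 * C) := ⟨_, rfl⟩
  have hη0 : 0 < η := by rw [hη]; positivity
  refine ⟨min (δ / 2) (640 * η), by positivity, M0 + 3, ?_⟩
  intro M hM
  obtain ⟨δ', hδ'⟩ : ∃ δ' : ℝ, δ' = min (δ / 2) (640 * η) := ⟨_, rfl⟩
  rw [← hδ']
  have hd1 : δ' ≤ δ / 2 := by rw [hδ']; exact min_le_left _ _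
  have hd2 : δ' ≤ 640 * η := by rw [hδ']; exact min_le_right _ _
  have hMr : (3 : ℝ) ≤ M := by exact_mod_cast (by omega : 3 ≤ M)
  have hl : 0 < Real.log M := Real.log_pos (by linarith)
  obtain ⟨T, hT⟩ : ∃ T : ℝ, T = (M : ℝ) / Real.log M := ⟨_, rfl⟩
  have hT0 : 0 < T := by rw [hT]; positivity
  obtain ⟨H, hH⟩ : ∃ H : ℕ, H = ⌊η * Real.log M⌋₊ := ⟨_, rfl⟩
  have hH1 : (H : ℝ) ≤ η * Real.log M := by rw [hH]; exact Nat.floor_le (by positivity)
  have hH2 : η * Real.log M ≤ H + 1 := by rw [hH]; exact (Nat.lt_floor_add_one _).le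
  have hB : δ' * (M * Real.log M) ≤ 640 * (H + 1) * M := by
    calc δ' * (M * Real.log M) ≤ 640 * η * (M * Real.log M) := by gcongr
      _ = 640 * (η * Real.log M) * M := by ring
      _ ≤ _ := by gcongr
  have hABc : ((AB H M).card : ℝ) ≤ C * η * T := by
    refine (hAB H M (by omega)).trans ?_
    calc C * H * ((M : ℝ) / Real.log M ^ 2) ≤ C * (η * Real.log M) * (M / Real.log M ^ 2) := by
          gcongr
      _ = C * η * T := by rw [hT]; field_simp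
  have hS' := hS M (by omega)
  rw [← hT] at hS' ⊢
  obtain ⟨I1, hI1⟩ : ∃ I1 : Finset ℤ, I1 = (Ioc (9800 * (M : ℤ) ^ 2) (9900 * (M : ℤ) ^ 2)).filter
    (fun ν => (rg (AP M) M ν : ℝ) < δ * T) := ⟨_, rfl⟩
  obtain ⟨I2, hI2⟩ : ∃ I2 : Finset ℤ, I2 = (Ioc (9800 * (M : ℤ) ^ 2) (9900 * (M : ℤ) ^ 2)).filter
    (fun ν => δ / 2 * T ≤ (rg (AB H M) M ν : ℝ)) := ⟨_, rfl⟩
  rw [← hI1] at hS'
  have h2 : (I2.card : ℝ) ≤ ε / 2 * M ^ 2 := by
    have h3 : (I2.card : ℝ) * (δ / 2 * T) ≤ 350 * M ^ 2 * (C * η * T) := by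
      calc (I2.card : ℝ) * (δ / 2 * T) = ∑ ν ∈ I2, δ / 2 * T := by rw [sum_const, nsmul_eq_mul]
        _ ≤ ∑ ν ∈ I2, (rg (AB H M) M ν : ℝ) := by
            refine sum_le_sum fun ν hν => ?_
            rw [hI2, mem_filter] at hν
            exact hν.2
        _ ≤ 350 * M ^ 2 * (AB H M).card := rg_sum _ _ _
        _ ≤ _ := by gcongr
    have h4 : 350 * (M : ℝ) ^ 2 * (C * η * T) = (ε / 2 * M ^ 2) * (δ / 2 * T) := by
      rw [hη]
      field_simp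
      ring
    rw [h4] at h3
    exact le_of_mul_le_mul_right h3 (by positivity)
  have h5 : ((Ioc (9800 * M ^ 2) (9900 * M ^ 2)).filter
      (fun ν => ((quadsG (δ' * (M * Real.log M)) (2 * ν + 7)).ncard : ℝ) < δ' * T)).card ≤
      (I1 ∪ I2).card := by
    apply card_le_card_of_injOn (fun ν : ℕ => (ν : ℤ))
    · intro ν hν
      rw [mem_coe, mem_filter, mem_Ioc] at hν
      obtain ⟨⟨h6, h7⟩, h8⟩ := hν
      have h6' : 9800 * (M : ℤ) ^ 2 < (ν : ℤ) := by exact_mod_cast h6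
      have h7' : (ν : ℤ) ≤ 9900 * (M : ℤ) ^ 2 := by exact_mod_cast h7
      rw [mem_coe, mem_union]
      by_contra hcon
      push Not at hcon
      obtain ⟨g1, g2⟩ := hcon
      rw [hI1, mem_filter, mem_Ioc] at g1
      rw [hI2, mem_filter, mem_Ioc] at g2
      have g1' : δ * T ≤ (rg (AP M) M (ν : ℤ) : ℝ) := by
        by_contra hc
        exact g1 ⟨⟨h6', h7'⟩, not_le.1 hc⟩
      have g2' : (rg (AB H M) M (ν : ℤ) : ℝ) < δ / 2 * T := by
        by_contra hc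
        exact g2 ⟨⟨h6', h7'⟩, not_lt.1 hc⟩
      have g3 : (rg (AP M) M (ν : ℤ) : ℝ) ≤ rg (AG H M) M (ν : ℤ) + rg (AB H M) M (ν : ℤ) := by
        exact_mod_cast rg_split H M (ν : ℤ)
      have g4 : (rg (AG H M) M (ν : ℤ) : ℝ) ≤
          (quadsG (δ' * (M * Real.log M)) (2 * ν + 7)).ncard := by
        exact_mod_cast fiber hB ν
      have g5 : δ' * T ≤ δ / 2 * T := by gcongr
      linarith
    · intro a _ b _ hab
      have hab' : (a : ℤ) = (b : ℤ) := hab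
      exact_mod_cast hab'
  have h6 := card_union_le I1 I2
  have h7 : (((Ioc (9800 * M ^ 2) (9900 * M ^ 2)).filter
      (fun ν => ((quadsG (δ' * (M * Real.log M)) (2 * ν + 7)).ncard : ℝ) < δ' * T)).card : ℝ) ≤
      (I1.card : ℝ) + I2.card := by exact_mod_cast h5.trans h6
  linarith

end Pool.Agent.L5helper15.GA
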