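import Pool.Agent.L5helper15.GA.Fib

set_option autoImplicit false

/-!
# All odd integers up to `X` (adapted from N698, project AO)
-/

namespace Pool.Agent.L5helper15.GA
open Finset

theorem fin : ∀ ε : ℝ, 0 < ε → ∃ δ : ℝ, 0 < δ ∧ ∃ X₀ : ℕ, ∀ X : ℕ, X₀ ≤ X →
    (((Finset.range (X + 1)).filter
      (fun n => Odd n ∧ ((quadsG (δ * √(X : ℝ) * Real.log X) n).ncard : ℝ) <
        δ * √(X : ℝ) / Real.log X)).card : ℝ) ≤ ε * X := by
  classical
  intro ε hε
  obtain ⟨δ1, hδ1, M0, hS⟩ := scaB ε hε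
  obtain ⟨s, hsdef⟩ : ∃ s : ℝ, s = Real.sqrt (ε / 8 / 9900) := ⟨_, rfl⟩
  have hs : 0 < s := by rw [hsdef]; exact Real.sqrt_pos.2 (by positivity)
  have hs2 : s ^ 2 = ε / 8 / 9900 := by rw [hsdef]; exact Real.sq_sqrt (by positivity)
  obtain ⟨δ, hδd⟩ : ∃ δ : ℝ, δ = δ1 * s / 3 := ⟨_, rfl⟩
  have hδ : 0 < δ := by rw [hδd]; positivity
  refine ⟨δ, hδ, ⌈((M0 + 500 : ℝ) / s) ^ 2⌉₊ + ⌈64 / (3 * ε)⌉₊ + ⌈(1 / s ^ 3) ^ 2⌉₊ + 3, ?_⟩
  intro X hX
  have hXr : ((⌈((M0 + 500 : ℝ) / s) ^ 2⌉₊ : ℕ) : ℝ) + ((⌈64 / (3 * ε)⌉₊ : ℕ) : ℝ) +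
      ((⌈(1 / s ^ 3) ^ 2⌉₊ : ℕ) : ℝ) + 3 ≤ X := by
    exact_mod_cast hX
  have hc1 := Nat.le_ceil (((M0 + 500 : ℝ) / s) ^ 2)
  have hc2 := Nat.le_ceil (64 / (3 * ε))
  have hc3 := Nat.le_ceil ((1 / s ^ 3) ^ 2)
  have hn1 : (0 : ℝ) ≤ ((⌈((M0 + 500 : ℝ) / s) ^ 2⌉₊ : ℕ) : ℝ) := Nat.cast_nonneg _
  have hn2 : (0 : ℝ) ≤ ((⌈64 / (3 * ε)⌉₊ : ℕ) : ℝ) := Nat.cast_nonneg _
  have hn3 : (0 : ℝ) ≤ ((⌈(1 / s ^ 3) ^ 2⌉₊ : ℕ) : ℝ) := Nat.cast_nonneg _
  have hX1 : ((M0 + 500 : ℝ) / s) ^ 2 ≤ X := by linarith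
  have hX2 : 64 / (3 * ε) ≤ X := by linarith
  have hX5 : (1 / s ^ 3) ^ 2 ≤ X := by linarith
  have hX3 : (3 : ℝ) ≤ X := by linarith
  have hX4 : 8 ≤ 3 * ε / 8 * X := by
    rw [div_le_iff₀ (by positivity)] at hX2
    linarith
  have hsqX : Real.sqrt X ^ 2 = X := Real.sq_sqrt (by linarith)
  have hsqX0 : 0 < Real.sqrt X := Real.sqrt_pos.2 (by linarith)
  have hlogX : 0 < Real.log X := Real.log_pos (by linarith)
  have hs3 : 1 ≤ s ^ 3 * Real.sqrt X := by
    have h1 : 1 / s ^ 3 ≤ Real.sqrt X := Real.le_sqrt_of_sq_le hX5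
    rw [div_le_iff₀ (by positivity)] at h1
    linarith
  have hsX : (M0 + 500 : ℝ) ≤ s * Real.sqrt X := by
    have h1 : (M0 + 500 : ℝ) / s ≤ Real.sqrt X := Real.le_sqrt_of_sq_le hX1
    rw [div_le_iff₀ hs] at h1
    linarith
  obtain ⟨bad, hbad⟩ : ∃ bad : ℕ → Prop, bad = fun ν =>
    ((quadsG (δ * √(X : ℝ) * Real.log X) (2 * ν + 7)).ncard : ℝ) <
    δ * √(X : ℝ) / Real.log X := ⟨_, rfl⟩
  have key : ∀ Z : ℕ, 2 * Z ≤ X →
      (((range (Z + 1)).filter bad).card : ℝ) ≤ ε / 8 * X + 1 + ε * Z := by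
    intro Z
    induction Z using Nat.strong_induction_on with
    | _ Z ih =>
      intro hZX
      have hZ0 : (0 : ℝ) ≤ Z := Nat.cast_nonneg _
      by_cases hZ : (Z : ℝ) ≤ ε / 8 * X
      · have h1 : ((range (Z + 1)).filter bad).card ≤ Z + 1 := by
          refine (card_filter_le _ _).trans ?_
          rw [card_range]
        have h2 : (((range (Z + 1)).filter bad).card : ℝ) ≤ Z + 1 := by exact_mod_cast h1
        have h3 : 0 ≤ ε * (Z : ℝ) := by positivity
        linarith
      · rw [not_le] at hZ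
        have hex : ∃ M : ℕ, Z ≤ 9900 * M ^ 2 := by
          refine ⟨Z, ?_⟩
          rcases Nat.eq_zero_or_pos Z with h | h
          · rw [h]
            norm_num
          · have h1 : Z * 1 ≤ Z * Z := Nat.mul_le_mul_left Z h
            have h2 : Z ^ 2 = Z * Z := sq Z
            omega
        obtain ⟨M, hM1, hM2⟩ : ∃ M : ℕ, Z ≤ 9900 * M ^ 2 ∧ ∀ m < M, 9900 * m ^ 2 < Z :=
          ⟨Nat.find hex, Nat.find_spec hex, fun m hm => not_le.1 (Nat.find_min hex hm)⟩
        have hM1r : (Z : ℝ) ≤ 9900 * (M : ℝ) ^ 2 := by exact_mod_cast hM1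
        have hMs : s * Real.sqrt X ≤ M := by
          rw [← pow_le_pow_iff_left₀ (by positivity) (Nat.cast_nonneg _) two_ne_zero, mul_pow,
            hs2, hsqX]
          linarith
        have hM500 : (M0 + 500 : ℝ) ≤ M := hsX.trans hMs
        have hM500' : M0 + 500 ≤ M := by exact_mod_cast hM500
        have hMlt := hM2 (M - 1) (by omega)
        obtain ⟨m, hm⟩ : ∃ m, M = m + 1 := ⟨M - 1, by omega⟩
        rw [hm, Nat.add_sub_cancel] at hMlt
        have hMlt' : 9900 * (m : ℝ) ^ 2 < Z := by exact_mod_cast hMlt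
        have hmr : (M : ℝ) = m + 1 := by rw [hm]; push_cast; ring
        have hm0 : (0 : ℝ) ≤ M0 := Nat.cast_nonneg _
        have hm499 : (499 : ℝ) ≤ m := by linarith
        have hmm : 499 * (m : ℝ) ≤ (m : ℝ) ^ 2 := by
          rw [sq]
          exact mul_le_mul_of_nonneg_right hm499 (by linarith)
        have h995 : 9800 * (M : ℝ) ^ 2 ≤ 0.995 * Z := by
          have e : ((m : ℝ) + 1) ^ 2 = (m : ℝ) ^ 2 + 2 * m + 1 := by ring
          rw [hmr, e]
          linarith
        have hZpos : (0 : ℝ) < Z := lt_of_le_of_lt (by positivity) hZ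
        have hlt : 9800 * M ^ 2 < Z := by
          have : 9800 * (M : ℝ) ^ 2 < Z := by linarith
          exact_mod_cast this
        have hMX : M ≤ X := by
          have h1 : m ≤ m ^ 2 := by
            have h499 : 499 ≤ m := by exact_mod_cast hm499
            nlinarith
          omega
        have ih' := ih (9800 * M ^ 2) hlt (by omega)
        have hM3 : (3 : ℝ) ≤ M := by linarith
        have hMr0 : (0 : ℝ) < M := by linarith
        have hlogM0 : 0 < Real.log M := Real.log_pos (by linarith)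
        have hlog : Real.log M ≤ Real.log X :=
          Real.log_le_log (by linarith) (by exact_mod_cast hMX)
        have hlog3 : Real.log X ≤ 3 * Real.log M := by
          have h1 : (X : ℝ) ≤ (M : ℝ) ^ 3 := by
            calc (X : ℝ) = 1 * X := by ring
              _ ≤ (s ^ 3 * Real.sqrt X) * X := by gcongr
              _ = (s * Real.sqrt X) ^ 3 := by
                  rw [mul_pow, pow_succ (Real.sqrt X) 2, hsqX]
                  ring
              _ ≤ (M : ℝ) ^ 3 := pow_le_pow_left₀ (by positivity) hMs 3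
          have h2 := Real.log_le_log (by linarith) h1
          rw [Real.log_pow] at h2
          exact_mod_cast h2
        have hscale := hS M (by omega)
        have hthrB : δ * √(X : ℝ) * Real.log X ≤ δ1 * (M * Real.log M) := by
          calc δ * √(X : ℝ) * Real.log X = δ1 * ((s * √(X : ℝ)) * (Real.log X / 3)) := by
                rw [hδd]; ring
            _ ≤ δ1 * (M * Real.log M) := by
                gcongr
                linarith
        have hthr : δ * √(X : ℝ) / Real.log X ≤ δ1 * (M / Real.log M) := by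
          calc δ * √(X : ℝ) / Real.log X = δ1 * ((s * √(X : ℝ)) / Real.log X) / 3 := by
                rw [hδd]; ring
            _ ≤ δ1 * ((s * √(X : ℝ)) / Real.log X) := by
                have : 0 ≤ δ1 * ((s * √(X : ℝ)) / Real.log X) := by positivity
                linarith
            _ ≤ δ1 * (M / Real.log M) := by
                gcongr
        have hcount : ((range (Z + 1)).filter bad).card ≤
            ((range (9800 * M ^ 2 + 1)).filter bad).card +
            ((Ioc (9800 * M ^ 2) (9900 * M ^ 2)).filter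
              (fun ν => ((quadsG (δ1 * (M * Real.log M)) (2 * ν + 7)).ncard : ℝ) <
                δ1 * (M / Real.log M))).card := by
          refine le_trans (card_le_card ?_) (card_union_le _ _)
          intro ν hν
          rw [mem_filter, mem_range] at hν
          rw [mem_union, mem_filter, mem_filter, mem_range, mem_Ioc]
          by_cases h2 : ν < 9800 * M ^ 2 + 1
          · exact Or.inl ⟨h2, hν.2⟩
          · refine Or.inr ⟨⟨by omega, by omega⟩, ?_⟩
            have h4 := hν.2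
            rw [hbad] at h4
            exact lt_of_le_of_lt (quadsG_mono hthrB (2 * ν + 7)) (lt_of_lt_of_le h4 hthr)
        have hcount' : (((range (Z + 1)).filter bad).card : ℝ) ≤
            ((range (9800 * M ^ 2 + 1)).filter bad).card +
            ((Ioc (9800 * M ^ 2) (9900 * M ^ 2)).filter
              (fun ν => ((quadsG (δ1 * (M * Real.log M)) (2 * ν + 7)).ncard : ℝ) <
                δ1 * (M / Real.log M))).card := by
          exact_mod_cast hcount
        have ih'' : (((range (9800 * M ^ 2 + 1)).filter bad).card : ℝ) ≤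
            ε / 8 * X + 1 + ε * (9800 * (M : ℝ) ^ 2) := by
          have : ((9800 * M ^ 2 : ℕ) : ℝ) = 9800 * (M : ℝ) ^ 2 := by push_cast; ring
          rw [← this]
          exact ih'
        have h7 : ε * (9800 * (M : ℝ) ^ 2) + ε * (M : ℝ) ^ 2 ≤ ε * Z := by
          rw [← mul_add]
          refine mul_le_mul_of_nonneg_left ?_ hε.le
          linarith [sq_nonneg (M : ℝ)]
        linarith
  -- all odd numbers
  have hfin : ((range (X + 1)).filter (fun n => Odd n ∧
      ((quadsG (δ * √(X : ℝ) * Real.log X) n).ncard : ℝ) < δ * √(X : ℝ) / Real.log X)).card ≤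
      (range 7).card + ((range (X / 2 + 1)).filter bad).card := by
    have h1 : ((range (X + 1)).filter (fun n => Odd n ∧
      ((quadsG (δ * √(X : ℝ) * Real.log X) n).ncard : ℝ) < δ * √(X : ℝ) / Real.log X)) ⊆
      range 7 ∪ ((range (X / 2 + 1)).filter bad).image (fun ν => 2 * ν + 7) := by
      intro n hn
      rw [mem_filter, mem_range] at hn
      obtain ⟨h1, ⟨c, hc⟩, h3⟩ := hn
      rw [mem_union, mem_range]
      by_cases h7 : n < 7
      · exact Or.inl h7
      · right
        obtain ⟨d, hd⟩ : ∃ d, n = 2 * d + 7 := ⟨c - 3, by omega⟩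
        rw [mem_image]
        refine ⟨d, ?_, hd.symm⟩
        rw [mem_filter, mem_range, hbad]
        refine ⟨by omega, ?_⟩
        rw [hd] at h3
        exact h3
    exact (card_le_card h1).trans ((card_union_le _ _).trans
      (Nat.add_le_add_left card_image_le _))
  have hkey := key (X / 2) (by omega)
  have hhalf : ((X / 2 : ℕ) : ℝ) ≤ X / 2 := Nat.cast_div_le
  rw [card_range] at hfin
  have hfin' : (((range (X + 1)).filter (fun n => Odd n ∧
      ((quadsG (δ * √(X : ℝ) * Real.log X) n).ncard : ℝ) < δ * √(X : ℝ) / Real.log X)).card : ℝ) ≤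
      7 + ((range (X / 2 + 1)).filter bad).card := by exact_mod_cast hfin
  have h8 : ε * ((X / 2 : ℕ) : ℝ) ≤ ε * (X / 2) := mul_le_mul_of_nonneg_left hhalf hε.le
  linarith

end Pool.Agent.L5helper15.GA
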