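import Pool.Agent.L5helper15.GA.Def

set_option autoImplicit false

/-!
# The Fourier bound for a set `A`

Adapted from N223 (project AO).
-/

namespace Pool.Agent.L5helper15.GA
open Finset Pool.Agent.N699.AO
open Pool.Agent.N223.AO (ee_cont EW_cont ee_int wQ wQ_nonneg F_bound pow_cont one_sub_le_two log_bound)

lemma EG_cont (A : Finset ℕ) : Continuous (EG A) := by
  unfold EG
  refine continuous_finsetSum _ fun a _ => ?_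
  exact ee_cont.comp (by fun_prop)

lemma EG_per (A : Finset ℕ) (α : ℝ) : EG A (1 + α) = EG A α := by
  unfold EG
  refine sum_congr rfl fun a _ => ?_
  rw [mul_add, mul_one, Pool.Agent.N223.AO.ee_add, ee_int, one_mul]

/-- the main function -/
noncomputable def Psi (C1 : ℝ) (A : Finset ℕ) (L Q0 : ℕ) (h : ℤ) (Q c : ℕ) (β : ℝ) : ℝ :=
  16 * C1 ^ 2 * wQ Q0 L h Q * ((L : ℝ) ^ 4 / (Q : ℝ) ^ 2) * ((1 + (L : ℝ) ^ 2 * |β|) ^ (-(5 / 4) : ℝ) *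
    ‖EG A ((c : ℝ) / Q + β)‖ ^ 2)

/-- the error -/
noncomputable def Er (C1 : ℝ) (A : Finset ℕ) (L : ℕ) (α : ℝ) : ℝ :=
  8 * C1 ^ 2 * ((L : ℝ) * (1 + Real.log L)) ^ 2 * ‖EG A α‖ ^ 2

lemma Psi_nonneg (C1 : ℝ) (A : Finset ℕ) (L Q0 : ℕ) (h : ℤ) (Q c : ℕ) (β : ℝ) : 0 ≤ Psi C1 A L Q0 h Q c β := by
  unfold Psi
  have := wQ_nonneg Q0 L h Q
  have h2 : 0 ≤ (L : ℝ) ^ 2 * |β| := by positivity
  positivity

lemma pow_cont (L : ℕ) : Continuous (fun β : ℝ => (1 + (L : ℝ) ^ 2 * |β|) ^ (-(5 / 4) : ℝ)) := by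
  refine Continuous.rpow_const (by fun_prop) fun β => Or.inl ?_
  have h2 : 0 ≤ (L : ℝ) ^ 2 * |β| := by positivity
  positivity

lemma Psi_cont (C1 : ℝ) (A : Finset ℕ) (L Q0 : ℕ) (h : ℤ) (Q c : ℕ) : Continuous (Psi C1 A L Q0 h Q c) := by
  unfold Psi
  refine continuous_const.mul ((pow_cont L).mul ?_)
  exact (((EG_cont A).comp (by fun_prop)).norm).pow 2

lemma Er_cont (C1 : ℝ) (A : Finset ℕ) (L : ℕ) : Continuous (Er C1 A L) := by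
  unfold Er
  exact continuous_const.mul (((EG_cont A).norm).pow 2)

lemma Er_nonneg (C1 : ℝ) (A : Finset ℕ) (L : ℕ) (α : ℝ) : 0 ≤ Er C1 A L α := by
  unfold Er
  positivity

/-- the pointwise bound -/
lemma point (C1 : ℝ) (hC1 : 0 < C1) (M : ℕ) (hM : 2 ≤ M)
    (hW : ∀ L A B Q ω : ℕ, 1 ≤ L → B ≤ L → 1 ≤ Q → Q ≤ 8 * L →
      ∀ c : ℤ, IsCoprime c (Q : ℤ) → ∀ β : ℝ, |β| ≤ 1 / (Q * (8 * L)) →
      ‖EW ω A B (c / Q + β)‖ ^ 2 ≤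
        C1 * ((L : ℝ) ^ 2 / Q * (1 + (L : ℝ) ^ 2 * |β|) ^ (-(3 / 4) : ℝ) + L * (1 + Real.log L)))
    (A : Finset ℕ) (Q0 L : ℕ) (hL : L = 40 * M) (h : ℤ) (hh : ∀ Q ∈ Icc 1 Q0, (Q : ℤ) ∣ h) (Q c : ℕ) (hQ : 1 ≤ Q)
    (hQL : Q ≤ 8 * L) (hc : Nat.Coprime c Q) (β : ℝ) (hβ : |β| ≤ 1 / (Q * (8 * L))) :
    ‖EG A ((c : ℝ) / Q + β) * ES M ((c : ℝ) / Q + β) * ET M ((c : ℝ) / Q + β)‖ ^ 2 *
      ‖1 - ee ((h : ℝ) * ((c : ℝ) / Q + β))‖ ^ 2 ≤ Psi C1 A L Q0 h Q c β + Er C1 A L ((c : ℝ) / Q + β) := by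
  have hL1 : 1 ≤ L := by omega
  have hL0 : (1 : ℝ) ≤ L := by exact_mod_cast hL1
  have hlog : 0 ≤ Real.log L := Real.log_nonneg hL0
  have hQ0 : (0 : ℝ) < Q := by exact_mod_cast hQ
  have hcop : IsCoprime (c : ℤ) (Q : ℤ) := Nat.isCoprime_iff_coprime.2 hc
  have h1 := hW L (20 * M) (30 * M) Q 0 hL1 (by omega) hQ hQL c hcop β hβ
  have h2 := hW L (5 * M) (40 * M) Q 1 hL1 (by omega) hQ hQL c hcop β hβ
  have h3 := F_bound Q0 L hL1 h hh Q c hQ β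
  have h3' : ‖1 - ee ((h : ℝ) * ((c : ℝ) / Q + β))‖ ^ 2 ≤ 4 := by
    have := one_sub_le_two ((h : ℝ) * ((c : ℝ) / Q + β))
    have h0 := norm_nonneg (1 - ee ((h : ℝ) * ((c : ℝ) / Q + β)))
    nlinarith
  simp only [Int.cast_natCast] at h1 h2
  change ‖ES M ((c : ℝ) / Q + β)‖ ^ 2 ≤ _ at h1
  change ‖ET M ((c : ℝ) / Q + β)‖ ^ 2 ≤ _ at h2
  set t : ℝ := 1 + (L : ℝ) ^ 2 * |β| with ht
  have ht1 : (1 : ℝ) ≤ t := by
    have : 0 ≤ (L : ℝ) ^ 2 * |β| := by positivity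
    linarith
  have ht0 : 0 < t := by linarith
  set X : ℝ := (L : ℝ) ^ 2 / Q * t ^ (-(3 / 4) : ℝ) with hX
  set Y : ℝ := (L : ℝ) * (1 + Real.log L) with hY
  have hX0 : 0 ≤ X := by positivity
  have hY0 : 0 ≤ Y := by positivity
  have hXX : X ^ 2 * t ^ (1 / 4 : ℝ) = (L : ℝ) ^ 4 / (Q : ℝ) ^ 2 * t ^ (-(5 / 4) : ℝ) := by
    have e1 : (t ^ (-(3 / 4) : ℝ)) ^ 2 * t ^ (1 / 4 : ℝ) = t ^ (-(5 / 4) : ℝ) := by
      rw [← Real.rpow_natCast, ← Real.rpow_mul ht0.le, ← Real.rpow_add ht0]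
      norm_num
    rw [hX, ← e1]
    ring
  set G := ‖1 - ee ((h : ℝ) * ((c : ℝ) / Q + β))‖ ^ 2 with hG
  have hG0 : 0 ≤ G := by positivity
  set N1 := ‖ES M ((c : ℝ) / Q + β)‖ ^ 2 with hN1
  set N2 := ‖ET M ((c : ℝ) / Q + β)‖ ^ 2 with hN2
  set N0 := ‖EG A ((c : ℝ) / Q + β)‖ ^ 2 with hN0
  have hN10 : 0 ≤ N1 := by positivity
  have hN20 : 0 ≤ N2 := by positivity
  have hN00 : 0 ≤ N0 := by positivity
  have e0 : ‖EG A ((c : ℝ) / Q + β) * ES M ((c : ℝ) / Q + β) * ET M ((c : ℝ) / Q + β)‖ ^ 2 = N0 * (N1 * N2) := by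
    rw [norm_mul, norm_mul, hN0, hN1, hN2]
    ring
  rw [e0]
  have h4 : N1 * N2 ≤ (C1 * (X + Y)) * (C1 * (X + Y)) := mul_le_mul h1 h2 hN20 (hN10.trans h1)
  have h5 : (C1 * (X + Y)) * (C1 * (X + Y)) ≤ 2 * C1 ^ 2 * (X ^ 2 + Y ^ 2) := by
    have : 0 ≤ C1 ^ 2 * (X - Y) ^ 2 := by positivity
    nlinarith
  have h6 : N1 * N2 * G ≤ 2 * C1 ^ 2 * (X ^ 2 + Y ^ 2) * G := mul_le_mul_of_nonneg_right (h4.trans h5) hG0
  set w := wQ Q0 L h Q with hw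
  have hw0 : 0 ≤ w := wQ_nonneg Q0 L h Q
  have h7 : 2 * C1 ^ 2 * (X ^ 2 + Y ^ 2) * G ≤
      16 * C1 ^ 2 * w * ((L : ℝ) ^ 4 / (Q : ℝ) ^ 2) * t ^ (-(5 / 4) : ℝ) + 8 * C1 ^ 2 * Y ^ 2 := by
    have a1 : 2 * C1 ^ 2 * X ^ 2 * G ≤ 2 * C1 ^ 2 * X ^ 2 * (8 * (w * t ^ (1 / 4 : ℝ))) :=
      mul_le_mul_of_nonneg_left h3 (by positivity)
    have a2 : 2 * C1 ^ 2 * Y ^ 2 * G ≤ 2 * C1 ^ 2 * Y ^ 2 * 4 := mul_le_mul_of_nonneg_left h3' (by positivity)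
    have a3 : 2 * C1 ^ 2 * X ^ 2 * (8 * (w * t ^ (1 / 4 : ℝ))) = 16 * C1 ^ 2 * w * (X ^ 2 * t ^ (1 / 4 : ℝ)) := by ring
    rw [a3, hXX] at a1
    nlinarith
  have h8 : N0 * (N1 * N2 * G) ≤ N0 * (16 * C1 ^ 2 * w * ((L : ℝ) ^ 4 / (Q : ℝ) ^ 2) * t ^ (-(5 / 4) : ℝ) + 8 * C1 ^ 2 * Y ^ 2) :=
    mul_le_mul_of_nonneg_left (h6.trans h7) hN00
  unfold Psi Er
  rw [← ht, ← hY, ← hN0, ← hw]
  linarith


lemma NP_le (A : Finset ℕ) (Q : ℕ) : (NP A Q : ℝ) ≤ (A.card : ℝ) ^ 2 := by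
  unfold NP
  have h := card_filter_le (A ×ˢ A) (fun p => (Q : ℤ) ∣ gl p.1 - gl p.2)
  rw [card_product] at h
  rw [sq]
  exact_mod_cast h

/-- the sum over the fractions -/
lemma frac_sum (A : Finset ℕ) (Q : ℕ) (hQ : 1 ≤ Q) (β : ℝ) :
    ∑ c ∈ range (Q + 1), ‖EG A ((c : ℝ) / Q + β)‖ ^ 2 ≤ 2 * ((Q : ℝ) * NP A Q) := by
  have h := t_FAV A Q hQ β
  have hQ0 : (Q : ℝ) ≠ 0 := by positivity
  rw [sum_range_succ]
  have h1 : ‖EG A ((Q : ℝ) / Q + β)‖ ^ 2 ≤ ∑ c ∈ range Q, ‖EG A ((c : ℝ) / Q + β)‖ ^ 2 := by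
    rw [div_self hQ0, EG_per]
    have h2 := single_le_sum (f := fun c : ℕ => ‖EG A ((c : ℝ) / Q + β)‖ ^ 2) (s := range Q)
      (fun c _ => by positivity) (mem_range.2 (show 0 < Q by omega))
    simpa using h2
  linarith

/-- the integral over the arcs of one denominator -/
lemma arc_int (C1 : ℝ) (A : Finset ℕ) (L Q0 : ℕ) (hL : 1 ≤ L) (h : ℤ) (Q : ℕ) (hQ : 1 ≤ Q)
    (δ : ℝ) (hδ : 0 ≤ δ) :
    ∑ c ∈ range (Q + 1), (∫ β in (-δ)..δ, Psi C1 A L Q0 h Q c β) ≤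
      256 * C1 ^ 2 * (L : ℝ) ^ 2 * (wQ Q0 L h Q * ((NP A Q : ℝ) / Q)) := by
  have hL0 : (0 : ℝ) < L := by exact_mod_cast hL
  have hQ0 : (0 : ℝ) < Q := by exact_mod_cast hQ
  have hw0 := wQ_nonneg Q0 L h Q
  rw [← intervalIntegral.integral_finsetSum (fun c _ => (Psi_cont C1 A L Q0 h Q c).intervalIntegrable _ _)]
  have h1 : ∀ β ∈ Set.Icc (-δ) δ, ∑ c ∈ range (Q + 1), Psi C1 A L Q0 h Q c β ≤
      (32 * C1 ^ 2 * wQ Q0 L h Q * ((L : ℝ) ^ 4 / (Q : ℝ) ^ 2) * ((Q : ℝ) * NP A Q)) *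
        (1 + (L : ℝ) ^ 2 * |β|) ^ (-(5 / 4) : ℝ) := by
    intro β _
    unfold Psi
    rw [← mul_sum, ← mul_sum]
    have h2 := frac_sum A Q hQ β
    have h3 : 0 ≤ (1 + (L : ℝ) ^ 2 * |β|) ^ (-(5 / 4) : ℝ) := by
      have : 0 ≤ (L : ℝ) ^ 2 * |β| := by positivity
      positivity
    have h4 := mul_le_mul_of_nonneg_left (mul_le_mul_of_nonneg_left h2 h3)
      (show 0 ≤ 16 * C1 ^ 2 * wQ Q0 L h Q * ((L : ℝ) ^ 4 / (Q : ℝ) ^ 2) by positivity)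
    refine h4.trans (le_of_eq ?_)
    ring
  have hc1 : Continuous fun β : ℝ => ∑ c ∈ range (Q + 1), Psi C1 A L Q0 h Q c β :=
    continuous_finsetSum _ fun c _ => Psi_cont C1 A L Q0 h Q c
  have hc2 : Continuous fun β : ℝ => (32 * C1 ^ 2 * wQ Q0 L h Q * ((L : ℝ) ^ 4 / (Q : ℝ) ^ 2) * ((Q : ℝ) * NP A Q)) *
        (1 + (L : ℝ) ^ 2 * |β|) ^ (-(5 / 4) : ℝ) := continuous_const.mul (pow_cont L)
  have i1 : IntervalIntegrable (fun β : ℝ => ∑ c ∈ range (Q + 1), Psi C1 A L Q0 h Q c β) MeasureTheory.volume (-δ) δ :=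
    hc1.intervalIntegrable _ _
  have i2 : IntervalIntegrable (fun β : ℝ => (32 * C1 ^ 2 * wQ Q0 L h Q * ((L : ℝ) ^ 4 / (Q : ℝ) ^ 2) * ((Q : ℝ) * NP A Q)) *
        (1 + (L : ℝ) ^ 2 * |β|) ^ (-(5 / 4) : ℝ)) MeasureTheory.volume (-δ) δ := hc2.intervalIntegrable _ _
  have h5 := intervalIntegral.integral_mono_on (show -δ ≤ δ by linarith) i1 i2 h1
  refine h5.trans ?_
  rw [intervalIntegral.integral_const_mul]
  have h6 := Pool.Agent.N56.AO.t_INTG ((L : ℝ) ^ 2) δ (by positivity) hδ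
  have h7 := mul_le_mul_of_nonneg_left h6
    (show 0 ≤ 32 * C1 ^ 2 * wQ Q0 L h Q * ((L : ℝ) ^ 4 / (Q : ℝ) ^ 2) * ((Q : ℝ) * NP A Q) by positivity)
  refine h7.trans (le_of_eq ?_)
  field_simp
  ring

/-- the Fourier bound -/
theorem four : ∃ C : ℝ, 0 < C ∧ ∀ (A : Finset ℕ) (M Q0 : ℕ), 1 ≤ Q0 → 2 ≤ M → Q0 ≤ M →
    ∀ h : ℤ, (∀ Q ∈ Icc 1 Q0, (Q : ℤ) ∣ h) → ∀ I : Finset ℤ,
    ∑ ν ∈ I, ((rg A M ν : ℝ) - rg A M (ν + h)) ^ 2 ≤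
      C * M ^ 2 * ((A.card : ℝ) ^ 2 * ((1 + Real.log Q0) * (|(h : ℝ)| / M ^ 2) ^ (1 / 4 : ℝ)) +
        ∑ Q ∈ Ioc Q0 (320 * M), (NP A Q : ℝ) / Q + A.card * (1 + Real.log M) ^ 2) := by
  obtain ⟨C1, hC1, hW⟩ := WEYA Pool.Agent.N887.AO.t_WEY1 Pool.Agent.N273.AO.t_WEY2
  have hD := Pool.Agent.N56.AO.t_DIRI
  have hCOV := Pool.Agent.N56.AO.t_COV
  refine ⟨1000000 * C1 ^ 2, by positivity, ?_⟩
  intro A M Q0 hQ01 hM hQ0M h hh I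
  obtain ⟨L, hL⟩ : ∃ L, L = 40 * M := ⟨_, rfl⟩
  have hL1 : 1 ≤ L := by omega
  have hM0 : (0 : ℝ) < M := by exact_mod_cast (show 0 < M by omega)
  have hL0 : (0 : ℝ) < L := by exact_mod_cast hL1
  have hLM : (L : ℝ) = 40 * M := by rw [hL]; push_cast; ring
  have hlM : 0 ≤ Real.log M := Real.log_nonneg (by exact_mod_cast (show 1 ≤ M by omega))
  have hlQ : 0 ≤ Real.log Q0 := Real.log_nonneg (by exact_mod_cast hQ01)
  obtain ⟨K, hKd⟩ : ∃ K : ℝ, K = A.card := ⟨_, rfl⟩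
  have hK0 : 0 ≤ K := by rw [hKd]; exact Nat.cast_nonneg _
  rw [← hKd]
  refine (t_PARS A M h I).trans ?_
  set Φ : ℝ → ℝ := fun α => ‖EG A α * ES M α * ET M α‖ ^ 2 * ‖1 - ee ((h : ℝ) * α)‖ ^ 2 with hΦ
  have hΦc : Continuous Φ := by
    refine Continuous.mul ?_ ?_
    · exact ((((EG_cont A).mul (EW_cont 0 (20 * M) (30 * M))).mul (EW_cont 1 (5 * M) (40 * M))).norm).pow 2
    · exact ((continuous_const.sub (ee_cont.comp (by fun_prop))).norm).pow 2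
  have hcov := hCOV (8 * L) Φ (Er C1 A L) (Psi C1 A L Q0 h) (fun Q => 1 / ((Q : ℝ) * (8 * L))) hΦc
    (Er_cont C1 A L) (Psi_cont C1 A L Q0 h) (Psi_nonneg C1 A L Q0 h) (Er_nonneg C1 A L)
    (fun Q => by positivity) (by
      intro α ha0 ha1
      obtain ⟨Q, c, g1, g2, g3, g4, g5⟩ := hD (8 * L) (by omega) α ha0 ha1
      refine ⟨Q, mem_Icc.2 ⟨g1, g2⟩, c, mem_range.2 (by omega), ?_, ?_⟩
      · refine g5.trans (le_of_eq ?_)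
        push_cast
        rfl
      · have g6 : |α - (c : ℝ) / Q| ≤ 1 / (Q * (8 * L)) := g5.trans (le_of_eq (by push_cast; rfl))
        have g7 := point C1 hC1 M hM hW A Q0 L hL h hh Q c g1 g2 g4 (α - (c : ℝ) / Q) g6
        have e : (c : ℝ) / Q + (α - (c : ℝ) / Q) = α := by ring
        rw [e] at g7
        exact g7)
  refine hcov.trans ?_
  -- the arcs
  have hS : ∑ Q ∈ Icc 1 (8 * L), ∑ c ∈ range (Q + 1),
      (∫ β in (-(1 / ((Q : ℝ) * (8 * L))))..(1 / ((Q : ℝ) * (8 * L))), Psi C1 A L Q0 h Q c β) ≤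
      256 * C1 ^ 2 * (L : ℝ) ^ 2 * ∑ Q ∈ Icc 1 (8 * L), wQ Q0 L h Q * ((NP A Q : ℝ) / Q) := by
    rw [mul_sum]
    refine sum_le_sum fun Q hQ => ?_
    exact arc_int C1 A L Q0 hL1 h Q (mem_Icc.1 hQ).1 _ (by positivity)
  set w : ℝ := (|(h : ℝ)| / (M : ℝ) ^ 2) ^ (1 / 4 : ℝ) with hw
  have hw0 : 0 ≤ w := by positivity
  have hwL : (|(h : ℝ)| / (L : ℝ) ^ 2) ^ (1 / 4 : ℝ) ≤ w := by
    refine Real.rpow_le_rpow (by positivity) ?_ (by norm_num)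
    refine div_le_div_of_nonneg_left (abs_nonneg _) (by positivity) ?_
    rw [hLM]
    nlinarith [pow_pos hM0 2]
  have hQ0L : Q0 ≤ 8 * L := by omega
  have h320 : 8 * L = 320 * M := by omega
  obtain ⟨T2, hT2⟩ : ∃ T2 : ℝ, T2 = ∑ Q ∈ Ioc Q0 (320 * M), (NP A Q : ℝ) / Q := ⟨_, rfl⟩
  have hT20 : 0 ≤ T2 := by
    rw [hT2]
    exact sum_nonneg fun Q _ => by positivity
  have hsplit : ∑ Q ∈ Icc 1 (8 * L), wQ Q0 L h Q * ((NP A Q : ℝ) / Q) ≤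
      w * (K ^ 2 * (1 + Real.log Q0)) + T2 := by
    have e : Icc 1 (8 * L) = Icc 1 Q0 ∪ Ioc Q0 (8 * L) := by
      ext Q
      simp only [mem_Icc, mem_union, mem_Ioc]
      omega
    have hdisj : Disjoint (Icc 1 Q0) (Ioc Q0 (8 * L)) := by
      rw [disjoint_left]
      intro Q h1 h2
      rw [mem_Icc] at h1
      rw [mem_Ioc] at h2
      omega
    rw [e, sum_union hdisj, hT2, ← h320]
    refine add_le_add ?_ (le_of_eq (sum_congr rfl fun Q hQ => ?_))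
    · have h1 : ∀ Q ∈ Icc 1 Q0, wQ Q0 L h Q * ((NP A Q : ℝ) / Q) ≤ w * K ^ 2 * ((Q : ℝ))⁻¹ := by
        intro Q hQ
        rw [mem_Icc] at hQ
        have hQp : (0 : ℝ) < Q := by exact_mod_cast (show 0 < Q by omega)
        unfold wQ
        rw [if_pos hQ.2]
        have h2 : (NP A Q : ℝ) / Q ≤ K ^ 2 * ((Q : ℝ))⁻¹ := by
          rw [div_eq_mul_inv]
          refine mul_le_mul_of_nonneg_right ?_ (by positivity)
          rw [hKd]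
          exact NP_le A Q
        have h3 := mul_le_mul hwL h2 (by positivity) hw0
        refine h3.trans (le_of_eq (by ring))
      refine (sum_le_sum h1).trans ?_
      rw [← mul_sum]
      have h2 : ∑ Q ∈ Icc 1 Q0, ((Q : ℝ))⁻¹ ≤ 1 + Real.log Q0 := by
        have h3 := harmonic_le_one_add_log Q0
        rw [harmonic_eq_sum_Icc] at h3
        push_cast at h3
        exact h3
      have h4 := mul_le_mul_of_nonneg_left h2 (show 0 ≤ w * K ^ 2 by positivity)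
      refine h4.trans (le_of_eq (by ring))
    · unfold wQ
      rw [mem_Ioc] at hQ
      rw [if_neg (by omega), one_mul]
  obtain ⟨hl1, -⟩ := log_bound M hM L hL
  have hlL : 0 ≤ Real.log L := Real.log_nonneg (by exact_mod_cast hL1)
  have hsq1 : (1 + Real.log L) ^ 2 ≤ 36 * (1 + Real.log M) ^ 2 := by
    have := pow_le_pow_left₀ (by linarith) hl1 2
    nlinarith
  have hEr : ∫ α in (0 : ℝ)..1, Er C1 A L α ≤ 8 * C1 ^ 2 * ((L : ℝ) * (1 + Real.log L)) ^ 2 * K := by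
    unfold Er
    rw [intervalIntegral.integral_const_mul, hKd]
    exact mul_le_mul_of_nonneg_left (t_FL2 A) (by positivity)
  set T1 : ℝ := K ^ 2 * ((1 + Real.log Q0) * w) with hT1
  set T3 : ℝ := K * (1 + Real.log M) ^ 2 with hT3
  have hT10 : 0 ≤ T1 := by positivity
  have hT30 : 0 ≤ T3 := by positivity
  have hA : ∑ Q ∈ Icc 1 (8 * L), wQ Q0 L h Q * ((NP A Q : ℝ) / Q) ≤ T1 + T2 := by
    refine hsplit.trans ?_
    have h3 : w * (K ^ 2 * (1 + Real.log Q0)) = T1 := by rw [hT1]; ring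
    linarith
  have hB : 8 * C1 ^ 2 * ((L : ℝ) * (1 + Real.log L)) ^ 2 * K ≤ 460800 * C1 ^ 2 * (M : ℝ) ^ 2 * T3 := by
    have h1 : 8 * C1 ^ 2 * ((L : ℝ) * (1 + Real.log L)) ^ 2 * K =
        (12800 * C1 ^ 2 * (M : ℝ) ^ 2 * K) * (1 + Real.log L) ^ 2 := by
      rw [hLM]
      ring
    rw [h1]
    have h2 := mul_le_mul_of_nonneg_left hsq1 (show 0 ≤ 12800 * C1 ^ 2 * (M : ℝ) ^ 2 * K by positivity)
    refine h2.trans (le_of_eq ?_)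
    rw [hT3]
    ring
  have hA2 : 256 * C1 ^ 2 * (L : ℝ) ^ 2 * ∑ Q ∈ Icc 1 (8 * L), wQ Q0 L h Q * ((NP A Q : ℝ) / Q) ≤
      409600 * C1 ^ 2 * (M : ℝ) ^ 2 * (T1 + T2) := by
    have h1 := mul_le_mul_of_nonneg_left hA (show 0 ≤ 256 * C1 ^ 2 * (L : ℝ) ^ 2 by positivity)
    refine h1.trans (le_of_eq ?_)
    rw [hLM]
    ring
  have hfin : 409600 * C1 ^ 2 * (M : ℝ) ^ 2 * (T1 + T2) + 460800 * C1 ^ 2 * (M : ℝ) ^ 2 * T3 ≤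
      1000000 * C1 ^ 2 * (M : ℝ) ^ 2 * (T1 + T2 + T3) := by
    have h2 : 0 ≤ C1 ^ 2 * (M : ℝ) ^ 2 := by positivity
    have h3 : 0 ≤ C1 ^ 2 * (M : ℝ) ^ 2 * T1 := by positivity
    have h4 : 0 ≤ C1 ^ 2 * (M : ℝ) ^ 2 * T2 := by positivity
    have h5 : 0 ≤ C1 ^ 2 * (M : ℝ) ^ 2 * T3 := by positivity
    linarith
  rw [← hT2]
  have hS' := hS.trans hA2
  have hEr' := hEr.trans hB
  linarith

end Pool.Agent.L5helper15.GA
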