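import Pool.Agent.L5helper15.GA.Four
import Pool.Agent.L5helper15.GA.Cnt

set_option autoImplicit false

/-!
# One scale: few `ν` have few triples (adapted from N562, project AO)
-/

namespace Pool.Agent.L5helper15.GA
open Finset Pool.Agent.N699.AO

theorem choose_Q' (P ε : ℝ) (hP : 0 < P) (hε : 0 < ε) :
    ∃ Q : ℕ, 2 ≤ Q ∧ P * Real.log Q ^ 12 / √(Q : ℝ) ≤ ε := by
  have hc : 0 < ε / (P * 2 ^ 12) := by positivity
  have h1 := (Real.isLittleO_pow_log_id_atTop (n := 12)).def hc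
  have h2 := (tendsto_natCast_atTop_atTop (R := ℝ)).eventually h1
  obtain ⟨y, hy, hy2⟩ := (h2.and (Filter.eventually_ge_atTop 2)).exists
  refine ⟨y ^ 2, by nlinarith, ?_⟩
  have hy0 : (0 : ℝ) < y := by
    have : 0 < y := by omega
    exact_mod_cast this
  have e1 : √((y ^ 2 : ℕ) : ℝ) = y := by
    push_cast
    exact Real.sqrt_sq hy0.le
  have e2 : Real.log ((y ^ 2 : ℕ) : ℝ) = 2 * Real.log y := by
    push_cast
    rw [Real.log_pow]
    norm_num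
  rw [e1, e2, mul_pow, div_le_iff₀ hy0]
  simp only [id] at hy
  rw [Real.norm_of_nonneg (by positivity), Real.norm_of_nonneg hy0.le, div_mul_eq_mul_div,
    le_div_iff₀ (by positivity)] at hy
  linarith

/-- the bound of the number of the exceptions -/
theorem countG {r : ℤ → ℝ} {J D : ℕ} {I : Finset ℤ} {T cs δ F : ℝ} (hJ1 : 1 ≤ J) (hT0 : 0 < T)
    (hcs : 0 < cs) (hδ : δ = cs / 12000)
    (h1 : ∀ ν ∈ I, (1 / 2000 : ℝ) * (J * T) * cs ≤ ∑ j ∈ Icc (-(J : ℤ)) J, r (ν + j * D))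
    (h2 : ∀ ν ∈ I, r ν < δ * T)
    (h3 : ∀ j ∈ Icc (-(J : ℤ)) J, ∑ ν ∈ I, (r ν - r (ν + j * D)) ^ 2 ≤ F) :
    (I.card : ℝ) * (T ^ 2 * cs ^ 2) ≤ 144000000 * F := by
  have hJ1 : (1 : ℝ) ≤ J := by exact_mod_cast hJ1
  have hcard : ((Icc (-(J : ℤ)) (J : ℤ)).card : ℝ) = 2 * J + 1 := by
    rw [Int.card_Icc]
    have : ((J : ℤ) + 1 - -(J : ℤ)).toNat = 2 * J + 1 := by omega
    rw [this]
    push_cast
    ring
  have hν : ∀ ν ∈ I, (J * T * cs / 4000) ^ 2 ≤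
      3 * J * ∑ j ∈ Icc (-(J : ℤ)) (J : ℤ), (r ν - r (ν + j * D)) ^ 2 := by
    intro ν hI
    have a1 := h1 ν hI
    have a2 := h2 ν hI
    have a3 : J * T * cs / 4000 ≤
        ∑ j ∈ Icc (-(J : ℤ)) (J : ℤ), (r (ν + j * D) - r ν) := by
      rw [sum_sub_distrib, sum_const, nsmul_eq_mul, hcard]
      have a4 : (2 * (J : ℝ) + 1) * r ν ≤ (3 * J) * (δ * T) := by
        have b1 : (2 * (J : ℝ) + 1) * r ν ≤ (2 * (J : ℝ) + 1) * (δ * T) := by gcongr
        have b2 : (2 * (J : ℝ) + 1) * (δ * T) ≤ (3 * J) * (δ * T) := by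
          refine mul_le_mul_of_nonneg_right (by linarith) ?_
          rw [hδ]; positivity
        linarith
      have a5 : (3 * (J : ℝ)) * (δ * T) = J * T * cs / 4000 := by
        rw [hδ]
        ring
      have a6 : (1 / 2000 : ℝ) * ((J : ℝ) * T) * cs = J * T * cs / 2000 := by ring
      rw [a6] at a1
      have a7 : J * T * cs / 4000 + J * T * cs / 4000 = J * T * cs / 2000 := by ring
      linarith
    have a8 : 0 ≤ J * T * cs / 4000 := by positivity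
    calc (J * T * cs / 4000) ^ 2
        ≤ (∑ j ∈ Icc (-(J : ℤ)) (J : ℤ), (r (ν + j * D) - r ν)) ^ 2 :=
          pow_le_pow_left₀ a8 a3 2
      _ ≤ ((Icc (-(J : ℤ)) (J : ℤ)).card : ℝ) *
          ∑ j ∈ Icc (-(J : ℤ)) (J : ℤ), (r (ν + j * D) - r ν) ^ 2 :=
          sq_sum_le_card_mul_sum_sq
      _ = (2 * J + 1) * ∑ j ∈ Icc (-(J : ℤ)) (J : ℤ), (r ν - r (ν + j * D)) ^ 2 := by
          rw [hcard]
          congr 1
          refine sum_congr rfl fun j _ => ?_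
          ring
      _ ≤ _ := by
          refine mul_le_mul_of_nonneg_right (by linarith) (sum_nonneg fun j _ => sq_nonneg _)
  have hsum : (I.card : ℝ) * (J * T * cs / 4000) ^ 2 ≤ 3 * J * ((2 * J + 1) * F) := by
    calc (I.card : ℝ) * (J * T * cs / 4000) ^ 2 = ∑ ν ∈ I, (J * T * cs / 4000) ^ 2 := by
          rw [sum_const, nsmul_eq_mul]
      _ ≤ ∑ ν ∈ I, 3 * J * ∑ j ∈ Icc (-(J : ℤ)) (J : ℤ),
            (r ν - r (ν + j * D)) ^ 2 := sum_le_sum hν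
      _ = 3 * J * ∑ j ∈ Icc (-(J : ℤ)) (J : ℤ), ∑ ν ∈ I,
            (r ν - r (ν + j * D)) ^ 2 := by
          rw [← mul_sum, sum_comm]
      _ ≤ 3 * J * ∑ j ∈ Icc (-(J : ℤ)) (J : ℤ), F := by
          gcongr with j hj
          exact h3 j hj
      _ = 3 * J * ((2 * J + 1) * F) := by rw [sum_const, nsmul_eq_mul, hcard]
  have hF : 0 ≤ F := by
    refine le_trans (sum_nonneg fun ν _ => sq_nonneg _) (h3 0 ?_)
    rw [mem_Icc]
    constructor <;> omega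
  have hsum2 : (I.card : ℝ) * (J * T * cs / 4000) ^ 2 ≤ 9 * J ^ 2 * F := by
    refine hsum.trans ?_
    have : (2 * (J : ℝ) + 1) * F ≤ (3 * J) * F := by
      refine mul_le_mul_of_nonneg_right (by linarith) hF
    nlinarith
  have hJ2 : (0 : ℝ) < J ^ 2 := by positivity
  have e1 : (I.card : ℝ) * (J * T * cs / 4000) ^ 2 =
      ((I.card : ℝ) * (T ^ 2 * cs ^ 2) / 16000000) * J ^ 2 := by ring
  rw [e1] at hsum2
  have e2 : (I.card : ℝ) * (T ^ 2 * cs ^ 2) / 16000000 ≤ 9 * F := by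
    refine le_of_mul_le_mul_right ?_ hJ2
    linarith
  linarith

/-- the final estimate -/
theorem finalG {M T X a b w B C4 cs ε : ℝ} (hM : 0 < M) (hT : 0 < T) (hcs : 0 < cs)
    (hB : B = 144000000 * C4 / cs ^ 2)
    (hX : X * (T ^ 2 * cs ^ 2) ≤ 144000000 * (C4 * M ^ 2 * (T ^ 2 * a + T ^ 2 * b + T * w)))
    (h1 : B * a ≤ ε / 3) (h2 : B * b ≤ ε / 3) (h3 : B * w ≤ ε / 3 * T) : X ≤ ε * M ^ 2 := by
  have h4 : X * T ^ 2 ≤ B * M ^ 2 * (T ^ 2 * a + T ^ 2 * b + T * w) := by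
    have e : 144000000 * (C4 * M ^ 2 * (T ^ 2 * a + T ^ 2 * b + T * w)) =
        (B * M ^ 2 * (T ^ 2 * a + T ^ 2 * b + T * w)) * cs ^ 2 := by
      rw [hB]
      field_simp
    rw [e, ← mul_assoc] at hX
    exact le_of_mul_le_mul_right hX (by positivity)
  have h5 : B * (T ^ 2 * a + T ^ 2 * b + T * w) ≤ ε * T ^ 2 := by
    have a1 : B * a * T ^ 2 ≤ ε / 3 * T ^ 2 := mul_le_mul_of_nonneg_right h1 (by positivity)
    have a2 : B * b * T ^ 2 ≤ ε / 3 * T ^ 2 := mul_le_mul_of_nonneg_right h2 (by positivity)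
    have a3 : B * w * T ≤ ε / 3 * T * T := mul_le_mul_of_nonneg_right h3 hT.le
    nlinarith
  have h8 : X * T ^ 2 ≤ ε * M ^ 2 * T ^ 2 := by
    calc X * T ^ 2 ≤ B * M ^ 2 * (T ^ 2 * a + T ^ 2 * b + T * w) := h4
      _ = (B * (T ^ 2 * a + T ^ 2 * b + T * w)) * M ^ 2 := by ring
      _ ≤ (ε * T ^ 2) * M ^ 2 := mul_le_mul_of_nonneg_right h5 (by positivity)
      _ = _ := by ring
  exact le_of_mul_le_mul_right h8 (by positivity)

/-- one scale: few `ν` have few triples -/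
theorem sca : ∀ ε : ℝ, 0 < ε → ∃ δ : ℝ, 0 < δ ∧ ∃ M0 : ℕ, ∀ M : ℕ, M0 ≤ M →
    (((Ioc (9800 * (M : ℤ) ^ 2) (9900 * (M : ℤ) ^ 2)).filter
      (fun ν => (rg (AP M) M ν : ℝ) < δ * (M / Real.log M))).card : ℝ) ≤ ε * M ^ 2 := by
  intro ε hε
  obtain ⟨C4, hC4, h4⟩ := four
  obtain ⟨c, hc, hR⟩ := rhof
  obtain ⟨C2, hC2, hP⟩ := psum
  obtain ⟨C1, hC1, hA1⟩ := class_prime
  obtain ⟨Q0, hQ2, hQ⟩ := choose_Q' (3 * (144000000 * C4 / c ^ 2) * C2) ε (by positivity) hε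
  have hD : NeZero Q0.factorial := ⟨Nat.factorial_ne_zero _⟩
  obtain ⟨M1, hC⟩ := cnt Q0.factorial
  obtain ⟨M3, hP⟩ := hP Q0 (by omega)
  have hQr : (2 : ℝ) ≤ Q0 := by exact_mod_cast hQ2
  have hlogQ : 0 < Real.log Q0 := Real.log_pos (by linarith)
  obtain ⟨cs, hcs⟩ : ∃ cs : ℝ, cs = c / Real.log Q0 ^ 6 := ⟨_, rfl⟩
  have hcs0 : 0 < cs := by rw [hcs]; positivity
  obtain ⟨B, hB⟩ : ∃ B : ℝ, B = 144000000 * C4 / cs ^ 2 := ⟨_, rfl⟩
  have hB0 : 0 < B := by rw [hB]; positivity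
  have hBQ : B * (C2 / √(Q0 : ℝ)) ≤ ε / 3 := by
    have : 3 * (B * (C2 / √(Q0 : ℝ))) ≤ ε := by
      refine le_trans (le_of_eq ?_) hQ
      rw [hB, hcs]
      field_simp
    linarith
  obtain ⟨L, hL⟩ : ∃ L : ℝ, L = 1 + Real.log Q0 := ⟨_, rfl⟩
  have hL0 : 0 < L := by rw [hL]; positivity
  have hfac : (0 : ℝ) < Q0.factorial := by exact_mod_cast Nat.factorial_pos Q0
  have hC10 : 0 < C1 := by linarith
  obtain ⟨M2, hM2⟩ := exists_nat_ge (1000 * (Q0.factorial : ℝ) * (3 * B * (C1 ^ 2 * L) / ε) ^ 4)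
  obtain ⟨M4, hM4⟩ := Filter.eventually_atTop.1 (log_pow_ev (12 * B * C1 / ε) 3)
  refine ⟨cs / 12000, by positivity, Q0 + 1000 * Q0.factorial + M1 + M2 + M3 + M4 + 4, ?_⟩
  intro M hM
  have hM0 : (0 : ℝ) < M := by exact_mod_cast (by omega : 0 < M)
  have hM3' : (3 : ℝ) ≤ M := by exact_mod_cast (by omega : 3 ≤ M)
  have hlogM : 1 ≤ Real.log M := by
    rw [Real.le_log_iff_exp_le hM0]
    have := Real.exp_one_lt_d9
    linarith
  have hlogM0 : 0 < Real.log M := by linarith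
  have hMM : 1000 * M * Q0.factorial ≤ M ^ 2 := by
    have : 1000 * Q0.factorial ≤ M := by omega
    calc 1000 * M * Q0.factorial = M * (1000 * Q0.factorial) := by ring
      _ ≤ M * M := Nat.mul_le_mul_left _ this
      _ = M ^ 2 := by ring
  obtain ⟨T, hT⟩ : ∃ T : ℝ, T = (M : ℝ) / Real.log M := ⟨_, rfl⟩
  have hT0 : 0 < T := by rw [hT]; positivity
  have hAT : ((AP M).card : ℝ) ≤ C1 * T := by
    have := hA1 M 1 (by omega) le_rfl (by omega) (AP M) (Subset.refl _) (by simp)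
    have e1 : Pool.Agent.R330.AF.rt 1 = 1 := by simp [Pool.Agent.R330.AF.rt]
    rw [e1, ← hT] at this
    simpa using this
  have hw3 : B * (C1 * (1 + Real.log M) ^ 2) ≤ ε / 3 * T := by
    have a0 := hM4 M (by omega)
    have a1 : (1 + Real.log M) ^ 2 ≤ 4 * Real.log M ^ 2 := by nlinarith
    have a2 : B * (C1 * (1 + Real.log M) ^ 2) ≤ B * (C1 * (4 * Real.log M ^ 2)) := by gcongr
    refine a2.trans ?_
    rw [hT, ← mul_div_assoc, le_div_iff₀ hlogM0]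
    have e1 : ε / 3 * (12 * B * C1 / ε * Real.log M ^ 3) =
        B * (C1 * (4 * Real.log M ^ 2)) * Real.log M := by
      field_simp
      ring
    rw [← e1]
    exact mul_le_mul_of_nonneg_left a0 (by positivity)
  obtain ⟨u, hu⟩ : ∃ u : ℝ, u = (1000 * (Q0.factorial : ℝ) / M) ^ (1 / 4 : ℝ) := ⟨_, rfl⟩
  have hu0 : 0 ≤ u := by rw [hu]; positivity
  have hLu : B * (C1 ^ 2 * L * u) ≤ ε / 3 := by
    have hCL : 0 < C1 ^ 2 * L := by positivity
    obtain ⟨L', hL'⟩ : ∃ L' : ℝ, L' = C1 ^ 2 * L := ⟨_, rfl⟩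
    rw [← hL'] at hM2 hCL ⊢
    have a1 : 1000 * (Q0.factorial : ℝ) / M ≤ (ε / (3 * B * L')) ^ 4 := by
      have b1 : 1000 * (Q0.factorial : ℝ) * (3 * B * L' / ε) ^ 4 ≤ M := by
        refine hM2.trans ?_
        exact_mod_cast (by omega : M2 ≤ M)
      rw [div_le_iff₀ hM0]
      have b2 : (ε / (3 * B * L')) ^ 4 * (1000 * (Q0.factorial : ℝ) * (3 * B * L' / ε) ^ 4) ≤
          (ε / (3 * B * L')) ^ 4 * M := mul_le_mul_of_nonneg_left b1 (by positivity)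
      refine le_trans (le_of_eq ?_) b2
      field_simp
    have a2 : u ≤ ε / (3 * B * L') := by
      rw [hu]
      calc (1000 * (Q0.factorial : ℝ) / M) ^ (1 / 4 : ℝ)
          ≤ ((ε / (3 * B * L')) ^ 4) ^ (1 / 4 : ℝ) := by gcongr
        _ = ε / (3 * B * L') := by
            rw [← Real.rpow_natCast, ← Real.rpow_mul (by positivity)]
            norm_num
    calc B * (L' * u) ≤ B * (L' * (ε / (3 * B * L'))) := by gcongr
      _ = ε / 3 := by field_simp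
  obtain ⟨I, hI⟩ : ∃ I : Finset ℤ, I = (Ioc (9800 * (M : ℤ) ^ 2) (9900 * (M : ℤ) ^ 2)).filter
    (fun ν => (rg (AP M) M ν : ℝ) < cs / 12000 * (M / Real.log M)) := ⟨_, rfl⟩
  rw [← hI]
  have hcount := countG (r := fun ν => (rg (AP M) M ν : ℝ)) (J := 1000 * M) (D := Q0.factorial)
    (I := I) (T := T) (cs := cs) (δ := cs / 12000)
    (F := C4 * M ^ 2 * (T ^ 2 * (C1 ^ 2 * L * u) + T ^ 2 * (C2 / √(Q0 : ℝ)) +
      T * (C1 * (1 + Real.log M) ^ 2))) (by omega) hT0 hcs0 rfl ?_ ?_ ?_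
  · exact finalG (C4 := C4) (cs := cs) (B := B) hM0 hT0 hcs0 hB hcount hLu hBQ hw3
  · intro ν hν
    rw [hI, mem_filter, mem_Ioc] at hν
    have a1 := hC M (by omega) (1000 * M) le_rfl hMM ν hν.1.1 hν.1.2
    refine le_trans ?_ a1
    have a2 := hR Q0 hQ2 ν hD
    have a3 : cs ≤ (rhoU Q0.factorial (ν : ZMod Q0.factorial) : ℝ) / (Q0.factorial : ℝ) ^ 2 := by
      rw [le_div_iff₀ (by positivity), hcs]
      exact a2
    rw [← hT]
    gcongr
  · intro ν hν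
    rw [hI, mem_filter] at hν
    rw [hT]
    exact hν.2
  · intro j hj
    rw [mem_Icc] at hj
    have a1 := h4 (AP M) M Q0 (by omega) (by omega) (by omega) (j * (Q0.factorial : ℤ)) ?_ I
    · refine a1.trans ?_
      have a2 : |(((j * (Q0.factorial : ℤ) : ℤ)) : ℝ)| / (M : ℝ) ^ 2 ≤ 1000 * (Q0.factorial : ℝ) / M := by
        have b1 : |(j : ℝ)| ≤ 1000 * M := by
          rw [abs_le]
          have c1 : ((-((1000 * M : ℕ) : ℤ) : ℤ) : ℝ) ≤ (j : ℝ) := by exact_mod_cast hj.1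
          have c2 : (j : ℝ) ≤ (((1000 * M : ℕ) : ℤ) : ℝ) := by exact_mod_cast hj.2
          push_cast at c1 c2
          exact ⟨by linarith, c2⟩
        push_cast
        rw [abs_mul, abs_of_pos hfac, div_le_div_iff₀ (by positivity) hM0]
        calc |(j : ℝ)| * (Q0.factorial : ℝ) * M ≤ 1000 * M * (Q0.factorial : ℝ) * M := by gcongr
          _ = 1000 * (Q0.factorial : ℝ) * (M : ℝ) ^ 2 := by ring
      have a3 : (|(((j * (Q0.factorial : ℤ) : ℤ)) : ℝ)| / (M : ℝ) ^ 2) ^ (1 / 4 : ℝ) ≤ u := by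
        rw [hu]
        gcongr
      have a4 : ∑ Q ∈ Ioc Q0 (320 * M), (NP (AP M) Q : ℝ) / Q ≤ T ^ 2 * (C2 / √(Q0 : ℝ)) := by
        have := hP M (by omega)
        rw [← hT] at this
        refine this.trans (le_of_eq ?_)
        ring
      have a5 : ((AP M).card : ℝ) ^ 2 * (L * (|(((j * (Q0.factorial : ℤ) : ℤ)) : ℝ)| /
          (M : ℝ) ^ 2) ^ (1 / 4 : ℝ)) ≤ T ^ 2 * (C1 ^ 2 * L * u) := by
        calc _ ≤ (C1 * T) ^ 2 * (L * u) := by gcongr
          _ = _ := by ring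
      have a6 : ((AP M).card : ℝ) * (1 + Real.log M) ^ 2 ≤ T * (C1 * (1 + Real.log M) ^ 2) := by
        calc _ ≤ (C1 * T) * (1 + Real.log M) ^ 2 := by gcongr
          _ = _ := by ring
      rw [← hL]
      gcongr
    · intro Q hQ'
      rw [mem_Icc] at hQ'
      have : Q ∣ Q0.factorial := Nat.dvd_factorial (by omega) hQ'.2
      have h5 : (Q : ℤ) ∣ (Q0.factorial : ℤ) := by exact_mod_cast this
      exact h5.mul_left j

end Pool.Agent.L5helper15.GA
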