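import Pool.Agent.L5helper15.GA.Four
import Pool.Agent.R330.AF.Sv

set_option autoImplicit false

/-!
# The series over the denominators with the weights `n / φ(n)`

Adapted from N921 (project AO).
-/

namespace Pool.Agent.L5helper15.GA
open Finset Pool.Agent.N699.AO
open Pool.Agent.R330.AF (rt one_le_rt rt_nonneg rt_mul_le moment)
open Pool.Agent.N921.AO (b b_nonneg b_mul sum_b sum_inv_sq geom_le)

/-- partial summation with decreasing weights -/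
theorem abel' (ρ w : ℕ → ℝ) (C : ℝ) (_hρ : ∀ n, 0 ≤ ρ n) (hC : ∀ N : ℕ, ∑ n ∈ Icc 1 N, ρ n ≤ C * N)
    (hw : ∀ n, 1 ≤ n → w (n + 1) ≤ w n) (hw0 : ∀ n, 0 ≤ w n) (N : ℕ) :
    ∑ n ∈ Icc 1 N, ρ n * w n ≤ C * ∑ n ∈ Icc 1 N, w n := by
  have key : ∀ N : ℕ, ∑ n ∈ Icc 1 (N + 1), ρ n * w n ≤ C * ∑ n ∈ Icc 1 (N + 1), w n +
      (∑ n ∈ Icc 1 (N + 1), ρ n - C * (N + 1 : ℕ)) * w (N + 1) := by
    intro N
    induction N with
    | zero =>
      simp only [zero_add, Icc_self, sum_singleton, Nat.cast_one, mul_one]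
      linarith
    | succ N ih =>
      rw [sum_Icc_succ_top (by omega), sum_Icc_succ_top (by omega : 1 ≤ N + 1 + 1) w,
        sum_Icc_succ_top (by omega : 1 ≤ N + 1 + 1) ρ]
      have h1 := hC (N + 1)
      have h2 := hw (N + 1) (by omega)
      set S := ∑ n ∈ Icc 1 (N + 1), ρ n with hS
      set W := ∑ n ∈ Icc 1 (N + 1), w n with hW
      have h3 : 0 ≤ (C * (N + 1 : ℕ) - S) * (w (N + 1) - w (N + 1 + 1)) :=
        mul_nonneg (by linarith) (by linarith)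
      push_cast at h3 ih ⊢
      nlinarith
  rcases N with _ | N
  · simp
  · have h1 := key N
    have h2 : (∑ n ∈ Icc 1 (N + 1), ρ n - C * (N + 1 : ℕ)) * w (N + 1) ≤ 0 :=
      mul_nonpos_of_nonpos_of_nonneg (by linarith [hC (N + 1)]) (hw0 _)
    linarith

theorem rt_pow_moment : ∃ C : ℝ, 1 ≤ C ∧ (∀ N : ℕ, ∑ n ∈ Icc 1 N, rt n ≤ C * N) ∧
    ∀ N : ℕ, ∑ n ∈ Icc 1 N, rt n ^ 2 ≤ C * N := by
  obtain ⟨C, hC1, hC⟩ := moment
  refine ⟨C, hC1, fun N => ?_, fun N => ?_⟩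
  · refine (sum_le_sum fun n hn => ?_).trans (hC N)
    have h1 := one_le_rt (mem_Icc.1 hn).1
    exact le_self_pow₀ h1 (by norm_num)
  · refine (sum_le_sum fun n hn => ?_).trans (hC N)
    have h1 := one_le_rt (mem_Icc.1 hn).1
    exact pow_le_pow_right₀ h1 (by norm_num)

theorem b_anti (n : ℕ) (hn : 1 ≤ n) : b (n + 1) ≤ b n := by
  unfold b
  have hn0 : (0 : ℝ) < n := by exact_mod_cast hn
  have h1 : √(n : ℝ) ≤ √((n + 1 : ℕ) : ℝ) := Real.sqrt_le_sqrt (by push_cast; linarith)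
  have h2 : 0 < √(n : ℝ) := Real.sqrt_pos.2 hn0
  apply one_div_le_one_div_of_le (by positivity)
  have h3 : (n : ℝ) ≤ ((n + 1 : ℕ) : ℝ) := by push_cast; linarith
  exact mul_le_mul h3 h1 h2.le (by positivity)

/-- `b n · n / φ(n)` -/
noncomputable def br (n : ℕ) : ℝ := rt n * b n

theorem br_nonneg (n : ℕ) : 0 ≤ br n := mul_nonneg (rt_nonneg n) (b_nonneg n)

theorem sum_br : ∃ C : ℝ, 1 ≤ C ∧ ∀ N : ℕ, ∑ n ∈ Icc 1 N, br n ≤ C := by
  obtain ⟨C, hC1, hC, -⟩ := rt_pow_moment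
  refine ⟨C * 3, by linarith, fun N => ?_⟩
  have h1 := abel' rt b C rt_nonneg hC b_anti b_nonneg N
  refine h1.trans (mul_le_mul_of_nonneg_left (sum_b N) (by linarith))

theorem sum_rt_sq : ∃ C : ℝ, 1 ≤ C ∧ ∀ N : ℕ, ∑ n ∈ Icc 1 N, rt n ^ 2 * (1 / (n : ℝ) ^ 2) ≤ C := by
  obtain ⟨C, hC1, -, hC⟩ := rt_pow_moment
  refine ⟨C * 2, by linarith, fun N => ?_⟩
  have h1 := abel' (fun n => rt n ^ 2) (fun n => 1 / (n : ℝ) ^ 2) C (fun n => by positivity) hC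
    (fun n hn => by
      have hn0 : (0 : ℝ) < n := by exact_mod_cast hn
      apply one_div_le_one_div_of_le (by positivity)
      push_cast
      nlinarith) (fun n => by positivity) N
  refine h1.trans (mul_le_mul_of_nonneg_left (sum_inv_sq N) (by linarith))

theorem sum_br_dvd (C : ℝ) (hC : ∀ N : ℕ, ∑ n ∈ Icc 1 N, br n ≤ C) (g N : ℕ) (hg : 1 ≤ g) :
    ∑ d ∈ Icc 1 N, (if g ∣ d then br d else 0) ≤ br g * C := by
  rw [← Finset.sum_filter]
  have hsub : (Icc 1 N).filter (fun d => g ∣ d) ⊆ (Icc 1 N).image (fun d => g * d) := by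
    intro d hd
    rw [mem_filter, mem_Icc] at hd
    obtain ⟨⟨h1, h2⟩, c, rfl⟩ := hd
    rw [mem_image]
    refine ⟨c, ?_, rfl⟩
    rw [mem_Icc]
    constructor
    · rcases Nat.eq_zero_or_pos c with rfl | h
      · simp at h1
      · exact h
    · exact (Nat.le_mul_of_pos_left c hg).trans h2
  refine (sum_le_sum_of_subset_of_nonneg hsub (fun _ _ _ => br_nonneg _)).trans ?_
  rw [sum_image (by
    intro x _ y _ h
    exact Nat.eq_of_mul_eq_mul_left hg h)]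
  have h1 : ∀ n ∈ Icc 1 N, br (g * n) ≤ br g * br n := by
    intro n hn
    unfold br
    rw [b_mul]
    have h2 := rt_mul_le hg (mem_Icc.1 hn).1
    have h3 := mul_le_mul_of_nonneg_right h2 (mul_nonneg (b_nonneg g) (b_nonneg n))
    refine h3.trans (le_of_eq (by ring))
  refine (sum_le_sum h1).trans ?_
  rw [← mul_sum]
  exact mul_le_mul_of_nonneg_left (hC N) (br_nonneg g)

theorem sum_gcd' : ∃ C : ℝ, 1 ≤ C ∧ ∀ N : ℕ,
    ∑ d ∈ Icc 1 N, ∑ e ∈ Icc 1 N, (Nat.gcd d e : ℝ) * (br d * br e) ≤ C := by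
  obtain ⟨C1, hC1, h1⟩ := sum_br
  obtain ⟨C2, hC2, h2⟩ := sum_rt_sq
  refine ⟨C1 ^ 2 * C2, by nlinarith [one_le_pow₀ (n := 2) hC1], fun N => ?_⟩
  have h1' : ∀ d ∈ Icc 1 N, ∀ e ∈ Icc 1 N, (Nat.gcd d e : ℝ) * (br d * br e) ≤
      ∑ g ∈ Icc 1 N, (g : ℝ) * ((if g ∣ d then br d else 0) * (if g ∣ e then br e else 0)) := by
    intro d hd e he
    rw [mem_Icc] at hd he
    have hg : Nat.gcd d e ∈ Icc 1 N := by
      rw [mem_Icc]
      exact ⟨Nat.gcd_pos_of_pos_left _ hd.1, (Nat.gcd_le_left _ hd.1).trans hd.2⟩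
    have := single_le_sum (f := fun g : ℕ => (g : ℝ) * ((if g ∣ d then br d else 0) *
      (if g ∣ e then br e else 0))) (s := Icc 1 N) (fun g _ => by
        have := br_nonneg d
        have := br_nonneg e
        positivity) hg
    simpa only [Nat.gcd_dvd_left, Nat.gcd_dvd_right, if_true] using this
  calc ∑ d ∈ Icc 1 N, ∑ e ∈ Icc 1 N, (Nat.gcd d e : ℝ) * (br d * br e)
      ≤ ∑ d ∈ Icc 1 N, ∑ e ∈ Icc 1 N, ∑ g ∈ Icc 1 N,
        (g : ℝ) * ((if g ∣ d then br d else 0) * (if g ∣ e then br e else 0)) :=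
        sum_le_sum fun d hd => sum_le_sum fun e he => h1' d hd e he
    _ = ∑ g ∈ Icc 1 N, (g : ℝ) * ((∑ d ∈ Icc 1 N, (if g ∣ d then br d else 0)) *
        ∑ e ∈ Icc 1 N, (if g ∣ e then br e else 0)) := by
        simp_rw [sum_mul_sum, mul_sum]
        rw [sum_comm' (t' := Icc 1 N) (s' := fun _ => Icc 1 N) (by simp [and_comm])]
        conv_lhs =>
          arg 2
          ext e
          rw [sum_comm]
        rw [sum_comm]
        apply sum_congr rfl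
        intro g _
        rw [sum_comm]
    _ ≤ ∑ g ∈ Icc 1 N, C1 ^ 2 * (rt g ^ 2 * (1 / (g : ℝ) ^ 2)) := by
        apply sum_le_sum
        intro g hg
        rw [mem_Icc] at hg
        have h2 := sum_br_dvd C1 h1 g N hg.1
        have h3 : 0 ≤ ∑ d ∈ Icc 1 N, (if g ∣ d then br d else 0) :=
          sum_nonneg fun d _ => by
            have := br_nonneg d
            positivity
        have h4 : b g * b g = 1 / (g : ℝ) ^ 3 := by
          unfold b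
          have hg0 : (0 : ℝ) < g := by exact_mod_cast hg.1
          have h5 : √(g : ℝ) * √(g : ℝ) = g := Real.mul_self_sqrt hg0.le
          rw [div_mul_div_comm, one_mul]
          congr 1
          calc (g : ℝ) * √(g : ℝ) * ((g : ℝ) * √(g : ℝ)) = (g : ℝ) * g * (√(g : ℝ) * √(g : ℝ)) := by
                ring
            _ = (g : ℝ) ^ 3 := by rw [h5]; ring
        have hg0 : (0 : ℝ) < g := by exact_mod_cast hg.1
        calc (g : ℝ) * ((∑ d ∈ Icc 1 N, (if g ∣ d then br d else 0)) *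
            ∑ e ∈ Icc 1 N, (if g ∣ e then br e else 0))
            ≤ (g : ℝ) * ((br g * C1) * (br g * C1)) := by
              apply mul_le_mul_of_nonneg_left _ hg0.le
              exact mul_le_mul h2 h2 h3 (h3.trans h2)
          _ = C1 ^ 2 * (rt g ^ 2 * (g * (b g * b g))) := by unfold br; ring
          _ = C1 ^ 2 * (rt g ^ 2 * (1 / (g : ℝ) ^ 2)) := by
              rw [h4]
              field_simp
    _ = C1 ^ 2 * ∑ g ∈ Icc 1 N, rt g ^ 2 * (1 / (g : ℝ) ^ 2) := by rw [mul_sum]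
    _ ≤ C1 ^ 2 * C2 := mul_le_mul_of_nonneg_left (h2 N) (by positivity)

theorem totient_mul_le' (x c : ℕ) : (Nat.totient (x * c) : ℝ) ≤ Nat.totient x * c := by
  rcases Nat.eq_zero_or_pos x with rfl | hx
  · simp
  rcases Nat.eq_zero_or_pos c with rfl | hc
  · simp
  have h : (Nat.totient (x * c) : ℚ) ≤ Nat.totient x * c := by
    rw [Nat.totient_eq_mul_prod_factors, Nat.totient_eq_mul_prod_factors]
    have hsub : x.primeFactors ⊆ (x * c).primeFactors :=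
      Nat.primeFactors_mono (Dvd.intro c rfl) (Nat.mul_pos hx hc).ne'
    rw [← Finset.prod_sdiff hsub]
    have h0 : ∀ p ∈ (x * c).primeFactors, (0 : ℚ) ≤ 1 - (p : ℚ)⁻¹ ∧ 1 - (p : ℚ)⁻¹ ≤ 1 := by
      intro p hp
      have hp1 : (1 : ℚ) ≤ p := by exact_mod_cast (Nat.prime_of_mem_primeFactors hp).one_lt.le
      have hp2 : (p : ℚ)⁻¹ ≤ 1 := inv_le_one_of_one_le₀ hp1
      have hp3 : (0 : ℚ) ≤ (p : ℚ)⁻¹ := by positivity
      constructor <;> linarith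
    have h1 : ∏ p ∈ (x * c).primeFactors \ x.primeFactors, (1 - (p : ℚ)⁻¹) ≤ 1 :=
      Finset.prod_le_one (fun p hp => (h0 p (mem_sdiff.1 hp).1).1)
        (fun p hp => (h0 p (mem_sdiff.1 hp).1).2)
    have h2 : (0 : ℚ) ≤ ∏ p ∈ x.primeFactors, (1 - (p : ℚ)⁻¹) :=
      Finset.prod_nonneg (fun p hp => (h0 p (hsub hp)).1)
    push_cast
    calc (x : ℚ) * c * ((∏ p ∈ (x * c).primeFactors \ x.primeFactors, (1 - (p : ℚ)⁻¹)) *
          ∏ p ∈ x.primeFactors, (1 - (p : ℚ)⁻¹))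
        ≤ (x : ℚ) * c * (1 * ∏ p ∈ x.primeFactors, (1 - (p : ℚ)⁻¹)) := by gcongr
      _ = _ := by ring
  exact_mod_cast h

/-- `n / φ(n)` of the least common multiple -/
theorem rt_lcm_le {d e : ℕ} (hd : 1 ≤ d) (he : 1 ≤ e) : rt (Nat.lcm d e) ≤ rt d * rt e := by
  have h1 : Nat.lcm d e = d * (e / Nat.gcd d e) := by
    rw [Nat.lcm, Nat.mul_div_assoc _ (Nat.gcd_dvd_right d e)]
  have hg : 0 < Nat.gcd d e := Nat.gcd_pos_of_pos_left _ hd
  have hq : 1 ≤ e / Nat.gcd d e := Nat.div_pos (Nat.gcd_le_right _ he) hg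
  rw [h1]
  refine (rt_mul_le hd hq).trans ?_
  refine mul_le_mul_of_nonneg_left ?_ (rt_nonneg d)
  -- `rt` of a divisor
  obtain ⟨c, hc⟩ : e / Nat.gcd d e ∣ e := Nat.div_dvd_of_dvd (Nat.gcd_dvd_right d e)
  have hc1 : 1 ≤ c := by
    rcases Nat.eq_zero_or_pos c with h | h
    · rw [h, mul_zero] at hc; omega
    · exact h
  obtain ⟨x, hx⟩ : ∃ x, e / Nat.gcd d e = x := ⟨_, rfl⟩
  rw [hx] at hc hq ⊢
  rw [hc]
  unfold rt
  have hφx : (0 : ℝ) < Nat.totient x := by exact_mod_cast Nat.totient_pos.2 hq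
  have hφc : (0 : ℝ) < Nat.totient (x * c) := by exact_mod_cast Nat.totient_pos.2 (Nat.mul_pos hq hc1)
  rw [div_le_div_iff₀ hφx hφc]
  have h4 : (Nat.totient (x * c) : ℝ) ≤ Nat.totient x * c := totient_mul_le' x c
  push_cast
  have hx0 : (0 : ℝ) ≤ x := Nat.cast_nonneg x
  nlinarith

/-- the bound of a term -/
noncomputable def Hr (Q0 : ℕ) (y : ℕ × ℕ × ℕ) : ℝ :=
  1 / √(Q0 : ℝ) * ((1 / √2) ^ y.1 * ((Nat.gcd y.2.1 y.2.2 : ℝ) * (br y.2.1 * br y.2.2)))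

theorem Hr_nonneg (Q0 : ℕ) (y : ℕ × ℕ × ℕ) : 0 ≤ Hr Q0 y := by
  unfold Hr
  have := br_nonneg y.2.1
  have := br_nonneg y.2.2
  positivity

theorem term_le' (Q0 : ℕ) (h0 : 1 ≤ Q0) (j d e Q : ℕ) (hd : 1 ≤ d)
    (he : 1 ≤ e) (hQ : 2 ^ j * (d * e) = Q) (hQ0 : Q0 < Q) :
    rt (Nat.lcm d e) / (Nat.lcm d e : ℕ) / (Q : ℝ) ≤ Hr Q0 (j, d, e) := by
  have hd0 : (0 : ℝ) < d := by exact_mod_cast hd
  have he0 : (0 : ℝ) < e := by exact_mod_cast he
  have hQr : (0 : ℝ) < Q := by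
    have : 0 < Q := by omega
    exact_mod_cast this
  have hQ0r : (0 : ℝ) < Q0 := by exact_mod_cast h0
  have hg0 : (0 : ℝ) < Nat.gcd d e := by exact_mod_cast Nat.gcd_pos_of_pos_left e hd
  have hl0 : (0 : ℝ) < Nat.lcm d e := by exact_mod_cast Nat.lcm_pos hd he
  have hgl : (Nat.gcd d e : ℝ) * (Nat.lcm d e : ℝ) = d * e := by exact_mod_cast Nat.gcd_mul_lcm d e
  have hQc : (Q : ℝ) = 2 ^ j * (d * e) := by rw [← hQ]; push_cast; ring
  have hlcm : 1 / (Nat.lcm d e : ℝ) = (Nat.gcd d e : ℝ) / (d * e) := by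
    rw [← hgl, div_eq_div_iff hl0.ne' (by positivity)]
    ring
  have hs : √(Q : ℝ) = √((2 : ℝ) ^ j) * (√(d : ℝ) * √(e : ℝ)) := by
    rw [hQc, Real.sqrt_mul (by positivity), Real.sqrt_mul hd0.le]
  have hs2 : √((2 : ℝ) ^ j) = √2 ^ j := by
    rw [Real.sqrt_eq_iff_mul_self_eq (by positivity) (by positivity), ← mul_pow,
      Real.mul_self_sqrt (by norm_num)]
  have hQs : (Q : ℝ) = √(Q : ℝ) * √(Q : ℝ) := (Real.mul_self_sqrt hQr.le).symm
  have hle : √(Q0 : ℝ) ≤ √(Q : ℝ) := Real.sqrt_le_sqrt (by exact_mod_cast hQ0.le)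
  have hq0 : 0 < √(Q0 : ℝ) := Real.sqrt_pos.2 hQ0r
  have hq : 0 < √(Q : ℝ) := Real.sqrt_pos.2 hQr
  have h1 : 1 / (Q : ℝ) ≤ 1 / (√(Q0 : ℝ) * √(Q : ℝ)) := by
    apply one_div_le_one_div_of_le (by positivity)
    calc √(Q0 : ℝ) * √(Q : ℝ) ≤ √(Q : ℝ) * √(Q : ℝ) := mul_le_mul_of_nonneg_right hle hq.le
      _ = Q := hQs.symm
  have e1 : rt (Nat.lcm d e) / (Nat.lcm d e : ℕ) / (Q : ℝ) =
      rt (Nat.lcm d e) * ((Nat.gcd d e : ℝ) / (d * e)) * (1 / (Q : ℝ)) := by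
    rw [← hlcm]
    ring
  have e2 : 1 / √(Q0 : ℝ) * ((1 / √2) ^ j * ((Nat.gcd d e : ℝ) * (br d * br e))) =
      (rt d * rt e) * ((Nat.gcd d e : ℝ) / (d * e)) * (1 / (√(Q0 : ℝ) * √(Q : ℝ))) := by
    unfold br Pool.Agent.N921.AO.b
    rw [hs, hs2]
    have hz : √(2 : ℝ) ≠ 0 := (Real.sqrt_pos.2 (by norm_num)).ne'
    rw [one_div_pow]
    field_simp
  change _ ≤ 1 / √(Q0 : ℝ) * ((1 / √2) ^ j * ((Nat.gcd d e : ℝ) * (br d * br e)))
  rw [e1, e2]
  have h3 := rt_lcm_le hd he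
  have h4 := rt_nonneg (Nat.lcm d e)
  have h5 : 0 ≤ rt d * rt e := mul_nonneg (rt_nonneg d) (rt_nonneg e)
  gcongr

theorem sum_Hr : ∃ C : ℝ, 1 ≤ C ∧ ∀ Q0 R : ℕ,
    ∑ y ∈ range (R + 1) ×ˢ (Icc 1 R ×ˢ Icc 1 R), Hr Q0 y ≤ C / √(Q0 : ℝ) := by
  obtain ⟨C, hC1, hC⟩ := sum_gcd'
  refine ⟨4 * C, by linarith, fun Q0 R => ?_⟩
  have hs2 : (0 : ℝ) < √2 := Real.sqrt_pos.2 (by norm_num)
  have hx : 1 / √2 ≤ 3 / 4 := by
    rw [div_le_div_iff₀ hs2 (by norm_num)]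
    have h1 : (4 / 3 : ℝ) ≤ √2 := by
      apply Real.le_sqrt_of_sq_le
      norm_num
    linarith
  have g1 := geom_le (1 / √2) (by positivity) hx (R + 1)
  have g3 := hC R
  have e : ∑ y ∈ range (R + 1) ×ˢ (Icc 1 R ×ˢ Icc 1 R), Hr Q0 y =
      1 / √(Q0 : ℝ) * ((∑ j ∈ range (R + 1), (1 / √2) ^ j) *
        ∑ d ∈ Icc 1 R, ∑ e ∈ Icc 1 R, (Nat.gcd d e : ℝ) * (br d * br e)) := by
    unfold Hr
    rw [← mul_sum]
    congr 1
    rw [sum_product, sum_mul_sum]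
    apply sum_congr rfl
    intro j _
    rw [sum_product]
    apply sum_congr rfl
    intro d _
    rw [mul_sum]
  rw [e]
  have p1 : 0 ≤ ∑ j ∈ range (R + 1), (1 / √2) ^ j := sum_nonneg fun j _ => by positivity
  have p3 : 0 ≤ ∑ d ∈ Icc 1 R, ∑ e ∈ Icc 1 R, (Nat.gcd d e : ℝ) * (br d * br e) :=
    sum_nonneg fun d _ => sum_nonneg fun e _ => by
      have := br_nonneg d
      have := br_nonneg e
      positivity
  have q1 : (∑ j ∈ range (R + 1), (1 / √2) ^ j) *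
        ∑ d ∈ Icc 1 R, ∑ e ∈ Icc 1 R, (Nat.gcd d e : ℝ) * (br d * br e) ≤ 4 * C :=
    mul_le_mul g1 g3 p3 (by norm_num)
  have k1 : 0 ≤ 1 / √(Q0 : ℝ) := by positivity
  have k2 := mul_le_mul_of_nonneg_left q1 k1
  refine k2.trans (le_of_eq (by ring))

/-- the series over the denominators -/
theorem ser : ∃ C : ℝ, 1 ≤ C ∧ ∀ Q0 R : ℕ, 1 ≤ Q0 →
    ∑ Q ∈ Ioc Q0 R, (∑ p ∈ (ordCompl[2] Q).divisorsAntidiagonal,
      rt (Nat.lcm p.1 p.2) / (Nat.lcm p.1 p.2 : ℕ)) / (Q : ℝ) ≤ C / √(Q0 : ℝ) := by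
  obtain ⟨C, hC1, hC⟩ := sum_Hr
  refine ⟨C, hC1, fun Q0 R h0 => ?_⟩
  refine le_trans ?_ (hC Q0 R)
  simp_rw [sum_div]
  rw [sum_sigma']
  have hmem : ∀ x ∈ (Ioc Q0 R).sigma (fun Q => (ordCompl[2] Q).divisorsAntidiagonal),
      Q0 < x.1 ∧ x.1 ≤ R ∧ 1 ≤ x.2.1 ∧ 1 ≤ x.2.2 ∧
        2 ^ (x.1.factorization 2) * (x.2.1 * x.2.2) = x.1 := by
    intro x hx
    rw [mem_sigma, mem_Ioc, Nat.mem_divisorsAntidiagonal] at hx
    obtain ⟨⟨h1, h2⟩, h3, h4⟩ := hx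
    have h5 : x.2.1 * x.2.2 ≠ 0 := by rw [h3]; exact h4
    refine ⟨h1, h2, Nat.pos_of_ne_zero (left_ne_zero_of_mul h5),
      Nat.pos_of_ne_zero (right_ne_zero_of_mul h5), ?_⟩
    rw [h3]
    exact Nat.ordProj_mul_ordCompl_eq_self x.1 2
  have hinj : Set.InjOn (fun x : (Σ _ : ℕ, ℕ × ℕ) => (x.1.factorization 2, x.2.1, x.2.2))
      ↑((Ioc Q0 R).sigma (fun Q => (ordCompl[2] Q).divisorsAntidiagonal)) := by
    intro x hx y hy hxy
    have h1 := (hmem x hx).2.2.2.2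
    have h2 := (hmem y hy).2.2.2.2
    simp only [Prod.mk.injEq] at hxy
    obtain ⟨a1, a2, a3⟩ := hxy
    rw [a1, a2, a3] at h1
    obtain ⟨x1, x2⟩ := x
    obtain ⟨y1, y2⟩ := y
    have h3 : x1 = y1 := h1.symm.trans h2
    subst h3
    congr 1
    exact Prod.ext a2 a3
  calc _ ≤ ∑ x ∈ (Ioc Q0 R).sigma (fun Q => (ordCompl[2] Q).divisorsAntidiagonal),
        Hr Q0 (x.1.factorization 2, x.2.1, x.2.2) := by
        apply sum_le_sum
        intro x hx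
        obtain ⟨h1, h2, h3, h4, h5⟩ := hmem x hx
        exact term_le' Q0 h0 _ _ _ _ h3 h4 h5 h1
    _ = ∑ y ∈ ((Ioc Q0 R).sigma (fun Q => (ordCompl[2] Q).divisorsAntidiagonal)).image
          (fun x : (Σ _ : ℕ, ℕ × ℕ) => (x.1.factorization 2, x.2.1, x.2.2)), Hr Q0 y := by
        rw [sum_image hinj]
    _ ≤ _ := by
        apply sum_le_sum_of_subset_of_nonneg
        · intro y hy
          rw [mem_image] at hy
          obtain ⟨x, hx, rfl⟩ := hy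
          obtain ⟨h1, h2, h3, h4, h5⟩ := hmem x hx
          have h6 : 2 ^ (x.1.factorization 2) ≤ x.1 := by
            calc 2 ^ (x.1.factorization 2) ≤ 2 ^ (x.1.factorization 2) * (x.2.1 * x.2.2) :=
                  Nat.le_mul_of_pos_right _ (Nat.mul_pos h3 h4)
              _ = x.1 := h5
          have h7 : x.2.1 * x.2.2 ≤ x.1 := by
            calc x.2.1 * x.2.2 ≤ 2 ^ (x.1.factorization 2) * (x.2.1 * x.2.2) :=
                  Nat.le_mul_of_pos_left _ (by positivity)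
              _ = x.1 := h5
          have h8 : x.1.factorization 2 < 2 ^ (x.1.factorization 2) := Nat.lt_two_pow_self
          rw [mem_product, mem_product, mem_range, mem_Icc, mem_Icc]
          refine ⟨by simp only; omega, ⟨h3, ?_⟩, ⟨h4, ?_⟩⟩
          · exact ((Nat.le_mul_of_pos_right _ h4).trans h7).trans h2
          · exact ((Nat.le_mul_of_pos_left _ h3).trans h7).trans h2
        · intro y _ _
          exact Hr_nonneg Q0 y

end Pool.Agent.L5helper15.GA
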