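import Pool.Agent.L5helper15.GA.Ser
import Pool.Agent.N618.AO_SERN1
import Pool.Agent.N921.AO_SERN2
import Pool.Agent.Helper602.MK.J3

set_option autoImplicit false

/-!
# Pairs of primes with congruent values

`AP M`: the `m` in `(20 M, 21 M]` for which `8 m + 3` is prime.
-/

namespace Pool.Agent.L5helper15.GA
open Finset Pool.Agent.N699.AO
open Pool.Agent.R330.AF (rt one_le_rt rt_nonneg rt_mul_le moment)
open Pool.Agent.N618.AO (card_le)

/-- the parameters `m` of the primes `8 m + 3` -/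
def AP (M : ℕ) : Finset ℕ := (Ioc (20 * M) (21 * M)).filter (fun m => (8 * m + 3).Prime)

/-- pairs with congruent values, for a bound of the number of the elements in one class -/
theorem NP_bound (A : Finset ℕ) (Q : ℕ) (hQ : 1 ≤ Q) (F : ℕ → ℝ)
    (hF : ∀ D : ℕ, 1 ≤ D → D ∣ Q → ∀ S : Finset ℕ, S ⊆ A →
      (∀ x ∈ S, ∀ y ∈ S, (D : ℤ) ∣ (x : ℤ) - y) → (S.card : ℝ) ≤ F D) :
    (NP A Q : ℝ) ≤ ∑ p ∈ (ordCompl[2] Q).divisorsAntidiagonal, F 1 * F (Nat.lcm p.1 p.2) := by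
  classical
  set q := ordCompl[2] Q with hq
  have hq0 : 0 < q := Nat.ordCompl_pos 2 (by omega)
  have hqQ : q ∣ Q := Nat.ordCompl_dvd Q 2
  have hodd : ¬ 2 ∣ q := Nat.not_dvd_ordCompl Nat.prime_two (by omega)
  have hcop : Nat.Coprime q 2 := ((Nat.Prime.coprime_iff_not_dvd Nat.prime_two).2 hodd).symm
  have hA1 : (A.card : ℝ) ≤ F 1 := hF 1 le_rfl (one_dvd _) A (Finset.Subset.refl A) (by simp)
  let G : ℕ × ℕ → Finset (ℕ × ℕ) := fun de => (A ×ˢ A).filter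
    (fun p => (de.1 : ℤ) ∣ (p.1 : ℤ) - p.2 ∧ (de.2 : ℤ) ∣ 5 * ((p.1 : ℤ) + p.2) + 4)
  have hsub : (A ×ˢ A).filter (fun p => (Q : ℤ) ∣ gl p.1 - gl p.2) ⊆
      q.divisorsAntidiagonal.biUnion G := by
    intro p hp
    rw [mem_filter] at hp
    obtain ⟨hp1, hp2⟩ := hp
    have e1 : gl p.1 - gl p.2 =
        2 ^ 2 * (((p.1 : ℤ) - p.2) * (5 * ((p.1 : ℤ) + p.2) + 4)) := by
      unfold gl; ring
    have h1 : (q : ℤ) ∣ 2 ^ 2 * (((p.1 : ℤ) - p.2) * (5 * ((p.1 : ℤ) + p.2) + 4)) := by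
      rw [← e1]
      exact (Int.natCast_dvd_natCast.2 hqQ).trans hp2
    have h2 : IsCoprime (q : ℤ) (2 ^ 2) := by
      have : IsCoprime (q : ℤ) ((2 : ℕ) : ℤ) := Nat.isCoprime_iff_coprime.2 hcop
      exact this.pow_right
    have h3 := h2.dvd_of_dvd_mul_left h1
    obtain ⟨d, e, hd, he, hde⟩ := exists_dvd_and_dvd_of_dvd_mul h3
    rw [mem_biUnion]
    refine ⟨(d.natAbs, e.natAbs), ?_, ?_⟩
    · rw [Nat.mem_divisorsAntidiagonal]
      refine ⟨?_, hq0.ne'⟩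
      have := congrArg Int.natAbs hde
      rw [Int.natAbs_mul, Int.natAbs_natCast] at this
      exact this.symm
    · rw [mem_filter]
      refine ⟨hp1, ?_, ?_⟩
      · exact Int.natAbs_dvd.2 hd
      · exact Int.natAbs_dvd.2 he
  have hG : ∀ de ∈ q.divisorsAntidiagonal,
      ((G de).card : ℝ) ≤ F 1 * F (Nat.lcm de.1 de.2) := by
    rintro ⟨d, e⟩ hde
    rw [Nat.mem_divisorsAntidiagonal] at hde
    have hd0 : 0 < d := Nat.pos_of_ne_zero fun h => hde.2 (by rw [← hde.1]; simp [h])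
    have he0 : 0 < e := Nat.pos_of_ne_zero fun h => hde.2 (by rw [← hde.1]; simp [h])
    have hl : 1 ≤ Nat.lcm d e := Nat.lcm_pos hd0 he0
    have hlQ : Nat.lcm d e ∣ Q := by
      refine Nat.lcm_dvd (dvd_trans ?_ hqQ) (dvd_trans ?_ hqQ)
      · exact ⟨e, hde.1.symm⟩
      · exact ⟨d, by rw [mul_comm]; exact hde.1.symm⟩
    have hfib : ∀ a ∈ A, (((G (d, e)).filter (fun p => p.1 = a)).card : ℝ) ≤ F (Nat.lcm d e) := by
      intro a ha
      have h1 : ((G (d, e)).filter (fun p => p.1 = a)).card ≤ (A.filter (fun a' : ℕ =>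
          (d : ℤ) ∣ (a : ℤ) - a' ∧ (e : ℤ) ∣ 5 * ((a : ℤ) + a') + 4)).card := by
        refine card_le_card_of_injOn Prod.snd ?_ ?_
        · rintro ⟨x, y⟩ hxy
          have hxy' := hxy
          rw [mem_coe, mem_filter, mem_filter, mem_product] at hxy'
          obtain ⟨⟨⟨-, h2⟩, h3, h4⟩, rfl⟩ := hxy'
          rw [mem_coe, mem_filter]
          exact ⟨h2, h3, h4⟩
        · rintro ⟨x, y⟩ hxy ⟨x', y'⟩ hxy' h
          rw [mem_coe, mem_filter] at hxy hxy'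
          have e2 : x = a := hxy.2
          have e3 : x' = a := hxy'.2
          have e4 : y = y' := h
          rw [e2, e3, e4]
      have h2 := hF (Nat.lcm d e) hl hlQ (A.filter (fun a' : ℕ =>
          (d : ℤ) ∣ (a : ℤ) - a' ∧ (e : ℤ) ∣ 5 * ((a : ℤ) + a') + 4)) (filter_subset _ _) (by
        intro x hx y hy
        rw [mem_filter] at hx hy
        obtain ⟨hx1, hx2, hx3⟩ := hx
        obtain ⟨hy1, hy2, hy3⟩ := hy
        have h3 : (d : ℤ) ∣ (x : ℤ) - y := by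
          have := dvd_sub hy2 hx2
          have e5 : (a : ℤ) - y - (a - x) = x - y := by ring
          rwa [e5] at this
        have h4 : (e : ℤ) ∣ 5 * ((x : ℤ) - y) := by
          have := dvd_sub hx3 hy3
          have e5 : (5 * ((a : ℤ) + x) + 4) - (5 * ((a : ℤ) + y) + 4) =
            5 * ((x : ℤ) - y) := by ring
          rwa [e5] at this
        have h5 : IsCoprime (e : ℤ) 5 := by
          obtain ⟨c, hc⟩ := hx3
          refine ⟨-c, (a : ℤ) + x + 1, ?_⟩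
          linear_combination hc
        have h6 := h5.dvd_of_dvd_mul_left h4
        exact Int.natCast_dvd.2 (Nat.lcm_dvd (Int.natCast_dvd.1 h3) (Int.natCast_dvd.1 h6)))
      have h4 : (((G (d, e)).filter (fun p => p.1 = a)).card : ℝ) ≤ ((A.filter (fun a' : ℕ =>
          (d : ℤ) ∣ (a : ℤ) - a' ∧ (e : ℤ) ∣ 5 * ((a : ℤ) + a') + 4)).card : ℝ) := by
        exact_mod_cast h1
      linarith
    have hmaps : ∀ p ∈ G (d, e), p.1 ∈ A := fun p hp => by
      rw [mem_filter, mem_product] at hp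
      exact hp.1.1
    have hsum := card_eq_sum_card_fiberwise hmaps
    have hbnd : (0 : ℝ) ≤ F (Nat.lcm d e) := by
      have := hF (Nat.lcm d e) hl hlQ ∅ (empty_subset _) (by simp)
      simpa using this
    calc ((G (d, e)).card : ℝ) = ∑ a ∈ A, (((G (d, e)).filter (fun p => p.1 = a)).card : ℝ) := by
          rw [hsum]; push_cast; rfl
      _ ≤ ∑ a ∈ A, F (Nat.lcm d e) := sum_le_sum hfib
      _ = (A.card : ℝ) * F (Nat.lcm d e) := by rw [sum_const, nsmul_eq_mul]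
      _ ≤ F 1 * F (Nat.lcm d e) := mul_le_mul_of_nonneg_right hA1 hbnd
  have h1 : NP A Q ≤ ∑ de ∈ q.divisorsAntidiagonal, (G de).card :=
    (card_le_card hsub).trans card_biUnion_le
  calc (NP A Q : ℝ) ≤ ((∑ de ∈ q.divisorsAntidiagonal, (G de).card : ℕ) : ℝ) := by
        exact_mod_cast h1
    _ = ∑ de ∈ q.divisorsAntidiagonal, ((G de).card : ℝ) := by push_cast; rfl
    _ ≤ ∑ p ∈ q.divisorsAntidiagonal, F 1 * F (Nat.lcm p.1 p.2) := sum_le_sum hG

theorem rt_eight : rt 8 = 2 := by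
  unfold rt
  have : Nat.totient 8 = 4 := by decide
  rw [this]; norm_num

/-- primes in one class: the inequality of Brun and Titchmarsh -/
theorem class_prime : ∃ C : ℝ, 1 ≤ C ∧ ∀ M D : ℕ, 4 ≤ M → 1 ≤ D → D ^ 2 ≤ M → ∀ S : Finset ℕ,
    S ⊆ AP M → (∀ x ∈ S, ∀ y ∈ S, (D : ℤ) ∣ (x : ℤ) - y) →
    (S.card : ℝ) ≤ C * (M / Real.log M) * (rt D / D) := by
  obtain ⟨C, hC1, hC⟩ := Pool.Agent.Helper602.MK.BTLib.brun_titchmarsh
  refine ⟨8 * C, by linarith, ?_⟩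
  intro M D hM hD hDM S hS hcl
  have hMr : (4 : ℝ) ≤ M := by exact_mod_cast hM
  have hM0 : (0 : ℝ) < M := by linarith
  have hD0 : (0 : ℝ) < D := by exact_mod_cast hD
  have hlog : 0 < Real.log M := Real.log_pos (by linarith)
  rcases S.eq_empty_or_nonempty with rfl | hne
  · simp only [card_empty, Nat.cast_zero]
    have := rt_nonneg D
    positivity
  set a₀ := S.min' hne with ha₀
  have h0 : a₀ ∈ S := S.min'_mem hne
  have hle : ∀ a ∈ S, a₀ ≤ a := fun a ha => S.min'_le a ha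
  obtain ⟨N, hN⟩ : ∃ N, N = M / D + 1 := ⟨_, rfl⟩
  have hdv : ∀ a ∈ S, D ∣ a - a₀ := fun a ha => by
    have h1 := hcl a ha a₀ h0
    rw [← Nat.cast_sub (hle a ha)] at h1
    exact_mod_cast h1
  have hAP : ∀ a ∈ S, 20 * M < a ∧ a ≤ 21 * M ∧ (8 * a + 3).Prime := by
    intro a ha
    have := hS ha
    unfold AP at this
    rw [mem_filter, mem_Ioc] at this
    exact ⟨this.1.1, this.1.2, this.2⟩
  have hcard : S.card ≤ ((Finset.range N).filter
      (fun k => (8 * a₀ + 3 + k * (8 * D)).Prime)).card := by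
    refine card_le_card_of_injOn (fun a => (a - a₀) / D) ?_ ?_
    · intro a ha
      have ha' : a ∈ S := ha
      obtain ⟨h1, h2, h3⟩ := hAP a ha'
      obtain ⟨h4, -, -⟩ := hAP a₀ h0
      have h5 := hle a ha'
      have h6 : (a - a₀) / D * D = a - a₀ := Nat.div_mul_cancel (hdv a ha')
      rw [mem_coe, mem_filter, mem_range]
      constructor
      · rw [hN, Nat.lt_succ_iff]
        exact Nat.div_le_div_right (by omega)
      · have e : 8 * a₀ + 3 + (a - a₀) / D * (8 * D) = 8 * a + 3 := by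
          calc 8 * a₀ + 3 + (a - a₀) / D * (8 * D) = 8 * a₀ + 3 + 8 * ((a - a₀) / D * D) := by ring
            _ = 8 * a₀ + 3 + 8 * (a - a₀) := by rw [h6]
            _ = 8 * a + 3 := by omega
        rw [e]
        exact h3
    · intro a ha b hb hab
      have ha' : a ∈ S := ha
      have hb' : b ∈ S := hb
      have h1 : (a - a₀) / D * D = a - a₀ := Nat.div_mul_cancel (hdv a ha')
      have h2 : (b - a₀) / D * D = b - a₀ := Nat.div_mul_cancel (hdv b hb')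
      have h3 : (a - a₀) / D = (b - a₀) / D := hab
      rw [h3, h2] at h1
      have h4 := hle a ha'
      have h5 := hle b hb'
      omega
  have hMD : 1 ≤ M / D := by
    rw [Nat.one_le_div_iff (by omega)]
    nlinarith
  have hN2 : 2 ≤ N := by omega
  have h1 := hC (8 * a₀ + 3) (8 * D) N (by omega) hN2
  have h2 : (S.card : ℝ) ≤ (((Finset.range N).filter
      (fun k => (8 * a₀ + 3 + k * (8 * D)).Prime)).card : ℝ) := by exact_mod_cast hcard
  refine (h2.trans h1).trans ?_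
  -- `rt (8 D) ≤ 2 rt D`, `N ≤ 2 M / D`, `log N ≥ log M / 2`
  have hrt : ((8 * D : ℕ) : ℝ) / (Nat.totient (8 * D) : ℝ) ≤ 2 * rt D := by
    have h3 := rt_mul_le (a := 8) (b := D) (by norm_num) hD
    rw [rt_eight] at h3
    exact h3
  have hNle : (N : ℝ) ≤ 2 * (M / D) := by
    have h3 : ((M / D : ℕ) : ℝ) ≤ (M : ℝ) / D := Nat.cast_div_le
    have h4 : (1 : ℝ) ≤ (M / D : ℕ) := by exact_mod_cast hMD
    rw [hN]
    push_cast
    linarith
  have hNlog : Real.log M / 2 ≤ Real.log N := by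
    have h3 : √(M : ℝ) ≤ N := by
      have h4 : (D : ℝ) ≤ √(M : ℝ) := by
        apply Real.le_sqrt_of_sq_le
        exact_mod_cast hDM
      have h5 : √(M : ℝ) ≤ M / D := by
        rw [le_div_iff₀ hD0]
        calc √(M : ℝ) * D ≤ √(M : ℝ) * √(M : ℝ) := mul_le_mul_of_nonneg_left h4 (Real.sqrt_nonneg _)
          _ = M := Real.mul_self_sqrt hM0.le
      have h6 : (M : ℝ) / D < N := by
        rw [hN, ← Nat.floor_div_eq_div (K := ℝ)]
        push_cast
        exact Nat.lt_floor_add_one _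
      linarith
    have h7 := Real.log_le_log (Real.sqrt_pos.2 hM0) h3
    rw [Real.log_sqrt hM0.le] at h7
    exact h7
  have hN0 : (0 : ℝ) < N := by
    have : 0 < N := by omega
    exact_mod_cast this
  have hrt0 := rt_nonneg D
  calc C * (((8 * D : ℕ) : ℝ) / (Nat.totient (8 * D) : ℝ)) * N / Real.log N
      ≤ C * (2 * rt D) * (2 * (M / D)) / (Real.log M / 2) := by gcongr
    _ = 8 * C * (M / Real.log M) * (rt D / D) := by
      field_simp
      ring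

/-- integers in one class -/
theorem class_int (M D : ℕ) (hD : 1 ≤ D) (S : Finset ℕ) (hS : S ⊆ AP M)
    (hcl : ∀ x ∈ S, ∀ y ∈ S, (D : ℤ) ∣ (x : ℤ) - y) : (S.card : ℝ) ≤ (M : ℝ) / D + 1 := by
  apply card_le S D hD M (by positivity)
  intro a ha b hb
  refine ⟨hcl a ha b hb, ?_⟩
  have h1 := hS ha
  have h2 := hS hb
  unfold AP at h1 h2
  rw [mem_filter, mem_Ioc] at h1 h2
  have h3 : a ≤ b + M := by omega
  have h4 : (a : ℝ) ≤ b + M := by exact_mod_cast h3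
  linarith

theorem log_pow_ev (C : ℝ) (n : ℕ) : ∀ᶠ M : ℕ in Filter.atTop, C * Real.log M ^ n ≤ M := by
  have hc : 0 < 1 / (|C| + 1) := by positivity
  have h1 := (Real.isLittleO_pow_log_id_atTop (n := n)).def hc
  have h2 := (tendsto_natCast_atTop_atTop (R := ℝ)).eventually h1
  filter_upwards [h2, Filter.eventually_ge_atTop 1] with M hM hM1
  have hM0 : (0 : ℝ) < M := by exact_mod_cast hM1
  have hl : 0 ≤ Real.log M := Real.log_natCast_nonneg M
  simp only [id] at hM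
  rw [Real.norm_of_nonneg (by positivity), Real.norm_of_nonneg hM0.le, one_div_mul_eq_div,
    le_div_iff₀ (by positivity)] at hM
  have h3 : C * Real.log M ^ n ≤ (|C| + 1) * Real.log M ^ n := by
    apply mul_le_mul_of_nonneg_right _ (by positivity)
    linarith [le_abs_self C]
  linarith

theorem log_ev (C : ℝ) : ∀ᶠ M : ℕ in Filter.atTop, C ≤ Real.log M :=
  (Real.tendsto_log_atTop.comp tendsto_natCast_atTop_atTop).eventually_ge_atTop C

/-- the sum over the denominators beyond `Q0` -/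
theorem psum : ∃ C : ℝ, 1 ≤ C ∧ ∀ Q0 : ℕ, 1 ≤ Q0 → ∃ M0 : ℕ, ∀ M : ℕ, M0 ≤ M →
    ∑ Q ∈ Ioc Q0 (320 * M), (NP (AP M) Q : ℝ) / Q ≤ C * (M / Real.log M) ^ 2 / √(Q0 : ℝ) := by
  obtain ⟨C1, hC1, hcp⟩ := class_prime
  obtain ⟨C2, hC2, hser⟩ := ser
  obtain ⟨CS, hCS, hS2⟩ := Pool.Agent.N921.AO.t_SERN2
  refine ⟨C1 ^ 2 * C2 + CS, by nlinarith [one_le_pow₀ (n := 2) hC1], ?_⟩
  intro Q0 hQ0
  have hQ0r : (1 : ℝ) ≤ Q0 := by exact_mod_cast hQ0
  have hsQ : 1 ≤ √(Q0 : ℝ) := Real.one_le_sqrt.2 hQ0r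
  have hev : ∀ᶠ M : ℕ in Filter.atTop, 4 ≤ M ∧ 1 ≤ Real.log M ∧ 8 * √(Q0 : ℝ) ≤ Real.log M ∧
      (Q0 : ℝ) ≤ Real.log M ∧ 4 * Real.log M ^ 12 ≤ M ∧ (1024 * √(Q0 : ℝ)) * Real.log M ^ 4 ≤ M := by
    filter_upwards [Filter.eventually_ge_atTop 4, log_ev 1, log_ev (8 * √(Q0 : ℝ)), log_ev Q0,
      log_pow_ev 4 12, log_pow_ev (1024 * √(Q0 : ℝ)) 4] with M h1 h2 h3 h4 h5 h6
    exact ⟨h1, h2, h3, h4, h5, h6⟩
  obtain ⟨M0, hM0⟩ := Filter.eventually_atTop.1 hev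
  refine ⟨M0, fun M hM => ?_⟩
  obtain ⟨hM4, hl1, hl8, hlQ, hl12, hl4⟩ := hM0 M hM
  have hMr : (4 : ℝ) ≤ M := by exact_mod_cast hM4
  obtain ⟨l, hl⟩ : ∃ l, l = Real.log M := ⟨_, rfl⟩
  obtain ⟨s, hs⟩ : ∃ s, s = √(Q0 : ℝ) := ⟨_, rfl⟩
  rw [← hl] at hl1 hl8 hlQ hl12 hl4 ⊢
  rw [← hs] at hsQ hl8 hl4 ⊢
  obtain ⟨Q1, hQ1⟩ : ∃ Q1 : ℕ, Q1 = ⌈l ^ 6⌉₊ := ⟨_, rfl⟩
  have hl6 : 1 ≤ l ^ 6 := one_le_pow₀ hl1
  have hQ1a : l ^ 6 ≤ Q1 := by rw [hQ1]; exact Nat.le_ceil _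
  have hQ1b : (Q1 : ℝ) ≤ 2 * l ^ 6 := by
    have := Nat.ceil_lt_add_one (show 0 ≤ l ^ 6 by linarith)
    rw [hQ1]
    linarith
  have hQ1M : Q1 ^ 2 ≤ M := by
    have h1 : (Q1 : ℝ) ^ 2 ≤ (2 * l ^ 6) ^ 2 := pow_le_pow_left₀ (Nat.cast_nonneg _) hQ1b 2
    have h2 : (2 * l ^ 6) ^ 2 = 4 * l ^ 12 := by ring
    have h3 : (Q1 : ℝ) ^ 2 ≤ M := by linarith
    exact_mod_cast h3
  have hQ1pos : 1 ≤ Q1 := by
    have : (1 : ℝ) ≤ Q1 := by linarith
    exact_mod_cast this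
  have hQQ : Q0 ≤ Q1 := by
    have h1 : l ≤ l ^ 6 := le_self_pow₀ hl1 (by norm_num)
    have h2 : (Q0 : ℝ) ≤ Q1 := by linarith
    exact_mod_cast h2
  have hQ1L : Q1 ≤ 320 * M := by nlinarith
  obtain ⟨K, hK⟩ : ∃ K : ℝ, K = M / l := ⟨_, rfl⟩
  have hK0 : 0 ≤ K := by rw [hK]; positivity
  rw [← hK]
  have e : Ioc Q0 (320 * M) = Ioc Q0 Q1 ∪ Ioc Q1 (320 * M) := by
    ext Q
    simp only [mem_union, mem_Ioc]
    omega
  have hdisj : Disjoint (Ioc Q0 Q1) (Ioc Q1 (320 * M)) := by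
    rw [disjoint_left]
    intro Q h1 h2
    rw [mem_Ioc] at h1
    rw [mem_Ioc] at h2
    omega
  rw [e, sum_union hdisj]
  -- small denominators
  have hA : ∑ Q ∈ Ioc Q0 Q1, (NP (AP M) Q : ℝ) / Q ≤ C1 ^ 2 * C2 * K ^ 2 / s := by
    have h1 : ∀ Q ∈ Ioc Q0 Q1, (NP (AP M) Q : ℝ) / Q ≤ (C1 ^ 2 * K ^ 2) *
        ((∑ p ∈ (ordCompl[2] Q).divisorsAntidiagonal,
          rt (Nat.lcm p.1 p.2) / (Nat.lcm p.1 p.2 : ℕ)) / (Q : ℝ)) := by
      intro Q hQ
      rw [mem_Ioc] at hQ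
      have h2 := NP_bound (AP M) Q (by omega) (fun D => C1 * K * (rt D / D)) (by
        intro D hD hDQ S hS hcl
        have h3 : D ≤ Q := Nat.le_of_dvd (by omega) hDQ
        have h4 : D ^ 2 ≤ M := (Nat.pow_le_pow_left (by omega : D ≤ Q1) 2).trans hQ1M
        rw [hK, hl]
        exact hcp M D hM4 hD h4 S hS hcl)
      have hr1 : rt 1 = 1 := by unfold rt; simp
      rw [← mul_div_assoc]
      refine div_le_div_of_nonneg_right (h2.trans (le_of_eq ?_)) (Nat.cast_nonneg _)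
      rw [mul_sum]
      refine sum_congr rfl fun p _ => ?_
      rw [hr1]
      push_cast
      ring
    refine (sum_le_sum h1).trans ?_
    rw [← mul_sum]
    have h5 := hser Q0 Q1 hQ0
    rw [← hs] at h5
    have h6 := mul_le_mul_of_nonneg_left h5 (show 0 ≤ C1 ^ 2 * K ^ 2 by positivity)
    refine h6.trans (le_of_eq (by ring))
  -- large denominators
  have hB : ∑ Q ∈ Ioc Q1 (320 * M), (NP (AP M) Q : ℝ) / Q ≤ CS * K ^ 2 / s := by
    obtain ⟨T, hT⟩ : ∃ T : ℝ, T = M + 1 := ⟨_, rfl⟩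
    have hT1 : 1 ≤ T := by rw [hT]; linarith
    have h1 : ∀ Q ∈ Ioc Q1 (320 * M), (NP (AP M) Q : ℝ) / Q ≤
        (∑ p ∈ (ordCompl[2] Q).divisorsAntidiagonal, T * (T / (Nat.lcm p.1 p.2 : ℕ) + 1)) / (Q : ℝ) := by
      intro Q hQ
      rw [mem_Ioc] at hQ
      have h2 := NP_bound (AP M) Q (by omega) (fun D => (M : ℝ) / D + 1) (by
        intro D hD hDQ S hS hcl
        exact class_int M D hD S hS hcl)
      refine div_le_div_of_nonneg_right (h2.trans ?_) (Nat.cast_nonneg _)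
      refine sum_le_sum fun p _ => ?_
      rw [hT]
      push_cast
      rw [div_one]
      have h3 : (M : ℝ) / (Nat.lcm p.1 p.2 : ℕ) ≤ (M + 1) / (Nat.lcm p.1 p.2 : ℕ) :=
        div_le_div_of_nonneg_right (by linarith) (Nat.cast_nonneg _)
      gcongr
    refine (sum_le_sum h1).trans ((hS2 Q1 (320 * M) hQ1pos (by omega) T hT1).trans ?_)
    rw [mul_div_assoc]
    refine mul_le_mul_of_nonneg_left ?_ hCS.le
    obtain ⟨-, hlog⟩ := Pool.Agent.N223.AO.log_bound M (by omega) (40 * M) rfl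
    have e8 : 8 * (40 * M) = 320 * M := by ring
    rw [e8, ← hl] at hlog
    have hlog0 : 0 ≤ Real.log ((320 * M : ℕ) : ℝ) := Real.log_natCast_nonneg _
    have hlog2 : (1 + Real.log ((320 * M : ℕ) : ℝ)) ^ 2 ≤ 256 * l ^ 2 := by
      have h3 : 1 + Real.log ((320 * M : ℕ) : ℝ) ≤ 16 * l := by linarith
      have h4 := pow_le_pow_left₀ (by linarith) h3 2
      refine h4.trans (le_of_eq (by ring))
    have hsq1 : l ^ 3 ≤ √(Q1 : ℝ) := by
      apply Real.le_sqrt_of_sq_le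
      calc (l ^ 3) ^ 2 = l ^ 6 := by ring
        _ ≤ (Q1 : ℝ) := hQ1a
    have hT2 : T ≤ 2 * M := by rw [hT]; linarith
    have hl0 : 0 < l := by linarith
    have hs0 : 0 < s := by linarith
    have hM0' : (0 : ℝ) < M := by linarith
    have h5 : T ^ 2 / √(Q1 : ℝ) ≤ K ^ 2 / s / 2 := by
      calc T ^ 2 / √(Q1 : ℝ) ≤ (2 * M) ^ 2 / l ^ 3 := by gcongr
        _ = K ^ 2 * (4 / l) := by
            rw [hK]
            field_simp
            norm_num
        _ ≤ K ^ 2 * (1 / (2 * s)) := by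
            apply mul_le_mul_of_nonneg_left _ (by positivity)
            rw [div_le_div_iff₀ hl0 (by positivity)]
            linarith
        _ = K ^ 2 / s / 2 := by
            field_simp
    have h6 : T * (1 + Real.log ((320 * M : ℕ) : ℝ)) ^ 2 ≤ K ^ 2 / s / 2 := by
      calc T * (1 + Real.log ((320 * M : ℕ) : ℝ)) ^ 2 ≤ (2 * M) * (256 * l ^ 2) := by gcongr
        _ = M * (1024 * s * l ^ 4) / l ^ 2 / s / 2 := by
            field_simp
            norm_num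
        _ ≤ M * M / l ^ 2 / s / 2 := by gcongr
        _ = K ^ 2 / s / 2 := by
            rw [hK]
            ring
    linarith
  calc ∑ Q ∈ Ioc Q0 Q1, (NP (AP M) Q : ℝ) / Q + ∑ Q ∈ Ioc Q1 (320 * M), (NP (AP M) Q : ℝ) / Q
      ≤ C1 ^ 2 * C2 * K ^ 2 / s + CS * K ^ 2 / s := add_le_add hA hB
    _ = (C1 ^ 2 * C2 + CS) * K ^ 2 / s := by ring

end Pool.Agent.L5helper15.GA
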